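import Mathlib

set_option autoImplicit false

namespace Pool.Agent.P.MP_2eaf66_an

/-- The `n`-th Fourier coefficient of a real function of period two pi. -/
noncomputable def coeff (a : ℝ → ℝ) (n : ℤ) : ℂ :=
  (1 / (2 * Real.pi) : ℂ) *
    ∫ θ in (0 : ℝ)..(2 * Real.pi), (a θ : ℂ) * Complex.exp (-(n * θ * Complex.I))

/-- The polynomial `f_m (n)`: the product over `i` of `n + s_i`, where `s_i` is the sum of the
first `i` entries of `m`. -/
def fpoly {L : ℕ} (m : Fin L → ℤ) (n : ℤ) : ℤ :=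
  ∏ i : Fin L, (n + ∑ j ∈ Finset.Iio i, m j)

/-- The coefficient `N_m`. -/
noncomputable def Ncoef {L : ℕ} (m : Fin L → ℤ) : ℤ :=
  ∑ᶠ n : ℤ, (|fpoly m n| - fpoly m n)

end Pool.Agent.P.MP_2eaf66_an
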