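import Mathlib
import Pool.Agent.P.MP_2eaf66_an.Defs

set_option autoImplicit false

namespace Pool.Agent.P.MP_2eaf66_an

/-- The power series with coefficients `n (n^2 - 1) a_n`, `n ≥ 2`, at `z^(n-2)`: the third
derivative of the sum over `n ≥ 2` of `a_n z^(n+1)`. -/
noncomputable def qdiff (a : ℝ → ℝ) (z : ℂ) : ℂ :=
  ∑' n : ℕ, ((n : ℂ) + 2) * (((n : ℂ) + 2) ^ 2 - 1) * coeff a (n + 2) * z ^ n

end Pool.Agent.P.MP_2eaf66_an
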