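import Mathlib

set_option autoImplicit false

namespace Pool.Agent.P.MP_2eaf66_an.Bg

open scoped ComplexConjugate
open Finset Filter Topology MeasureTheory Metric Real

/-- polar coordinates on the unit disc -/
theorem polar (F : ℂ → ℝ) (hF : Continuous F) :
    ∫ z in ball (0 : ℂ) 1, F z
      = ∫ r in (0 : ℝ)..1, r * ∫ t in (-π)..π, F (r * Complex.exp (t * Complex.I)) := by
  set g : ℝ × ℝ → ℝ := fun p => p.1 * F (p.1 * Complex.exp (p.2 * Complex.I)) with hg
  have hgc : Continuous g := by rw [hg]; fun_prop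
  have hB : MeasurableSet ((Set.Ioo (0 : ℝ) 1) ×ˢ (Set.Ioo (-π) π)) :=
    measurableSet_Ioo.prod measurableSet_Ioo
  rw [← integral_indicator measurableSet_ball, ← Complex.integral_comp_polarCoord_symm]
  have e1 : ∫ p in polarCoord.target,
      p.1 • (ball (0 : ℂ) 1).indicator F (Complex.polarCoord.symm p)
      = ∫ p in polarCoord.target, ((Set.Ioo (0 : ℝ) 1) ×ˢ (Set.Ioo (-π) π)).indicator g p := by
    refine setIntegral_congr_fun polarCoord.open_target.measurableSet fun p hp => ?_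
    have h1 : 0 < p.1 := hp.1
    have h2 : p.2 ∈ Set.Ioo (-π) π := hp.2
    have hn : ‖Complex.polarCoord.symm p‖ = p.1 := by
      rw [Complex.norm_polarCoord_symm, abs_of_pos h1]
    have he : Complex.polarCoord.symm p = p.1 * Complex.exp (p.2 * Complex.I) := by
      rw [Complex.polarCoord_symm_apply, Complex.exp_mul_I]; simp
    by_cases h : p.1 < 1
    · have m1 : Complex.polarCoord.symm p ∈ ball (0 : ℂ) 1 := by
        rw [mem_ball_zero_iff, hn]; exact h
      have m2 : p ∈ (Set.Ioo (0 : ℝ) 1) ×ˢ (Set.Ioo (-π) π) := ⟨⟨h1, h⟩, h2⟩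
      simp only [Set.indicator_of_mem m1, Set.indicator_of_mem m2]
      rw [he, smul_eq_mul]
    · have m1 : Complex.polarCoord.symm p ∉ ball (0 : ℂ) 1 := by
        rw [mem_ball_zero_iff, hn]; exact h
      have m2 : p ∉ (Set.Ioo (0 : ℝ) 1) ×ˢ (Set.Ioo (-π) π) := fun m => h m.1.2
      simp only [Set.indicator_of_notMem m1, Set.indicator_of_notMem m2, smul_zero]
  have hsub : polarCoord.target ∩ ((Set.Ioo (0 : ℝ) 1) ×ˢ (Set.Ioo (-π) π))
      = (Set.Ioo (0 : ℝ) 1) ×ˢ (Set.Ioo (-π) π) :=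
    Set.inter_eq_right.2 fun p hp => ⟨hp.1.1, hp.2⟩
  have hint : IntegrableOn g ((Set.Ioo (0 : ℝ) 1) ×ˢ (Set.Ioo (-π) π)) (volume.prod volume) :=
    (hgc.continuousOn.integrableOn_compact (isCompact_Icc.prod isCompact_Icc)).mono_set
      (Set.prod_mono Set.Ioo_subset_Icc_self Set.Ioo_subset_Icc_self)
  rw [e1, setIntegral_indicator hB, hsub, Measure.volume_eq_prod, setIntegral_prod _ hint,
    intervalIntegral.integral_of_le zero_le_one, integral_Ioc_eq_integral_Ioo]
  refine setIntegral_congr_fun measurableSet_Ioo fun r _ => ?_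
  simp only [hg]
  rw [intervalIntegral.integral_of_le (by linarith [pi_pos]), integral_Ioc_eq_integral_Ioo,
    integral_const_mul]

theorem int_exp (n m : ℕ) :
    ∫ t in (-π)..π, Complex.exp (t * Complex.I) ^ n * conj (Complex.exp (t * Complex.I) ^ m)
      = if n = m then (2 * π : ℂ) else 0 := by
  have e : ∀ t : ℝ, Complex.exp (t * Complex.I) ^ n * conj (Complex.exp (t * Complex.I) ^ m)
      = Complex.exp ((((n : ℂ) - m) * Complex.I) * t) := by
    intro t
    rw [map_pow, ← Complex.exp_conj, ← Complex.exp_nat_mul, ← Complex.exp_nat_mul,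
      ← Complex.exp_add]
    congr 1
    simp only [map_mul, Complex.conj_ofReal, Complex.conj_I]; ring
  simp only [e]
  split_ifs with h
  · subst h; simp; ring
  · have hc : ((n : ℂ) - m) * Complex.I ≠ 0 :=
      mul_ne_zero (sub_ne_zero.2 (by exact_mod_cast h)) Complex.I_ne_zero
    rw [integral_exp_mul_complex hc]
    have : ((n : ℂ) - m) * Complex.I * (π : ℝ)
        = ((n : ℂ) - m) * Complex.I * ((-π : ℝ) : ℂ)
          + (((n : ℤ) - m : ℤ) : ℂ) * (2 * π * Complex.I) := by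
      push_cast; ring
    rw [this, Complex.exp_add, Complex.exp_int_mul_two_pi_mul_I, mul_one, sub_self, zero_div]

/-- Parseval on a circle for polynomials -/
theorem parseval (y : ℕ → ℂ) (M : ℕ) (r : ℝ) :
    ∫ t in (-π)..π, ‖∑ n ∈ range M, y n * (r * Complex.exp (t * Complex.I)) ^ n‖ ^ 2
      = 2 * π * ∑ n ∈ range M, ‖y n‖ ^ 2 * r ^ (2 * n) := by
  apply Complex.ofReal_injective
  rw [← intervalIntegral.integral_ofReal]
  have e : ∀ t : ℝ, ((‖∑ n ∈ range M, y n * (r * Complex.exp (t * Complex.I)) ^ n‖ ^ 2 : ℝ) : ℂ)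
      = ∑ n ∈ range M, ∑ m ∈ range M, (y n * r ^ n * conj (y m * r ^ m)) *
          (Complex.exp (t * Complex.I) ^ n * conj (Complex.exp (t * Complex.I) ^ m)) := by
    intro t
    rw [← Complex.normSq_eq_norm_sq, ← Complex.mul_conj, map_sum, sum_mul_sum]
    refine sum_congr rfl fun n _ => sum_congr rfl fun m _ => ?_
    simp only [mul_pow, map_mul]; ring
  simp only [e]
  rw [intervalIntegral.integral_finsetSum fun n _ => Continuous.intervalIntegrable (by fun_prop) _ _]
  push_cast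
  rw [mul_sum]
  refine sum_congr rfl fun n hn => ?_
  rw [intervalIntegral.integral_finsetSum fun n _ => Continuous.intervalIntegrable (by fun_prop) _ _]
  simp only [intervalIntegral.integral_const_mul, int_exp]
  rw [sum_eq_single n (fun m _ h => by rw [if_neg (Ne.symm h), mul_zero]) (fun h => (h hn).elim),
    if_pos rfl, Complex.mul_conj, Complex.normSq_eq_norm_sq, norm_mul, norm_pow,
    Complex.norm_real, mul_pow, ← pow_mul, mul_comm n 2, pow_mul, pow_mul, Real.norm_eq_abs,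
    sq_abs]
  push_cast; ring

theorem beta_nat (p : ℕ) : ∀ m : ℕ, ∫ r in (0 : ℝ)..1, r ^ (2 * m + 1) * (1 - r ^ 2) ^ p
    = (m.factorial * p.factorial : ℝ) / (2 * (m + p + 1).factorial) := by
  induction p with
  | zero =>
    intro m
    simp only [pow_zero, mul_one, integral_pow, Nat.factorial_zero, Nat.factorial_succ, add_zero]
    have : (m.factorial : ℝ) ≠ 0 := by positivity
    push_cast; field_simp; ring
  | succ p ih =>
    intro m
    have e : ∀ r : ℝ, r ^ (2 * m + 1) * (1 - r ^ 2) ^ (p + 1)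
        = r ^ (2 * m + 1) * (1 - r ^ 2) ^ p - r ^ (2 * (m + 1) + 1) * (1 - r ^ 2) ^ p := by
      intro r; ring
    simp only [e]
    rw [intervalIntegral.integral_sub (Continuous.intervalIntegrable (by fun_prop) _ _)
      (Continuous.intervalIntegrable (by fun_prop) _ _), ih, ih,
      show m + 1 + p + 1 = (m + p + 1) + 1 by ring, show m + (p + 1) + 1 = (m + p + 1) + 1 by ring,
      Nat.factorial_succ (m + p + 1), Nat.factorial_succ m, Nat.factorial_succ p]
    have : ((m + p + 1).factorial : ℝ) ≠ 0 := by positivity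
    push_cast; field_simp; ring

theorem norm_polar (r t : ℝ) : ‖(r : ℂ) * Complex.exp (t * Complex.I)‖ ^ 2 = r ^ 2 := by
  rw [norm_mul, Complex.norm_exp_ofReal_mul_I, mul_one, Complex.norm_real, Real.norm_eq_abs, sq_abs]

/-- weighted Bergman norm of a polynomial -/
theorem berg_sq (y : ℕ → ℂ) (M p : ℕ) :
    ∫ z in ball (0 : ℂ) 1, ‖∑ n ∈ range M, y n * z ^ n‖ ^ 2 * (1 - ‖z‖ ^ 2) ^ p
      = π * ∑ n ∈ range M,
          ‖y n‖ ^ 2 * ((n.factorial * p.factorial : ℝ) / (n + p + 1).factorial) := by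
  rw [polar _ (by fun_prop)]
  simp only [norm_polar, intervalIntegral.integral_mul_const, parseval]
  have e : ∀ r : ℝ, r * (2 * π * (∑ n ∈ range M, ‖y n‖ ^ 2 * r ^ (2 * n)) * (1 - r ^ 2) ^ p)
      = ∑ n ∈ range M, (2 * π * ‖y n‖ ^ 2) * (r ^ (2 * n + 1) * (1 - r ^ 2) ^ p) := by
    intro r
    rw [mul_sum, sum_mul, mul_sum]
    exact sum_congr rfl fun n _ => by ring
  simp only [e]
  rw [intervalIntegral.integral_finsetSum fun n _ => Continuous.intervalIntegrable (by fun_prop) _ _,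
    mul_sum]
  refine sum_congr rfl fun n _ => ?_
  rw [intervalIntegral.integral_const_mul, beta_nat]
  field_simp

theorem tangent_pow (s t : ℝ) (hs : 0 ≤ s) (ht : 0 ≤ t) (k : ℕ) :
    s ^ (k + 1) + (k + 1) * s ^ k * (t - s) ≤ t ^ (k + 1) := by
  induction k with
  | zero => simp
  | succ k ih =>
    have h1 := mul_le_mul_of_nonneg_right ih ht
    have h2 : 0 ≤ ((k : ℝ) + 1) * s ^ k * (t - s) ^ 2 := by positivity
    push_cast
    have e : t ^ (k + 1 + 1) = t ^ (k + 1) * t := by ring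
    rw [e]
    have e2 : (s ^ (k + 1) + ((k : ℝ) + 1) * s ^ k * (t - s)) * t
        = s ^ (k + 1 + 1) + ((k : ℝ) + 1 + 1) * s ^ (k + 1) * (t - s)
          + ((k : ℝ) + 1) * s ^ k * (t - s) ^ 2 := by ring
    linarith

theorem sum_pow_le (x : ℕ → ℝ) (hx : ∀ n, 0 ≤ x n) (M k : ℕ) :
    ∑ n ∈ range M, x n ^ (k + 1) ≤ (∑ n ∈ range M, x n) ^ (k + 1) := by
  rw [pow_succ', sum_mul]
  refine sum_le_sum fun n hn => ?_
  rw [pow_succ']
  exact mul_le_mul_of_nonneg_left
    (pow_le_pow_left₀ (hx n) (single_le_sum (fun i _ => hx i) hn) k) (hx n)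

theorem circle_lower (y : ℕ → ℂ) (M k : ℕ) (r : ℝ) :
    2 * π * ∑ n ∈ range M, ‖y n‖ ^ (2 * (k + 1)) * r ^ (2 * ((k + 1) * n))
      ≤ ∫ t in (-π)..π,
        ‖∑ n ∈ range M, y n * (r * Complex.exp (t * Complex.I)) ^ n‖ ^ (2 * (k + 1)) := by
  set s : ℝ := ∑ n ∈ range M, ‖y n‖ ^ 2 * r ^ (2 * n) with hs
  have hx : ∀ n, 0 ≤ ‖y n‖ ^ 2 * r ^ (2 * n) := fun n =>
    mul_nonneg (by positivity) (by rw [pow_mul]; positivity)
  have hs0 : 0 ≤ s := sum_nonneg fun n _ => hx n
  have h1 : ∑ n ∈ range M, ‖y n‖ ^ (2 * (k + 1)) * r ^ (2 * ((k + 1) * n)) ≤ s ^ (k + 1) := by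
    refine le_trans (le_of_eq ?_) (sum_pow_le _ hx M k)
    refine sum_congr rfl fun n _ => ?_
    rw [mul_pow, ← pow_mul, ← pow_mul]; congr 2; ring
  set u : ℝ → ℝ := fun t =>
    ‖∑ n ∈ range M, y n * (r * Complex.exp (t * Complex.I)) ^ n‖ ^ 2 with hu
  have huc : Continuous u := by rw [hu]; fun_prop
  have hP : ∫ t in (-π)..π, u t = 2 * π * s := parseval y M r
  have h2 : ∫ t in (-π)..π, (s ^ (k + 1) + (k + 1) * s ^ k * (u t - s))
      ≤ ∫ t in (-π)..π, u t ^ (k + 1) :=
    intervalIntegral.integral_mono_on (by linarith [pi_pos])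
      (Continuous.intervalIntegrable (by fun_prop) _ _)
      (Continuous.intervalIntegrable (by fun_prop) _ _)
      fun t _ => tangent_pow s (u t) hs0 (by rw [hu]; positivity) k
  rw [intervalIntegral.integral_add (Continuous.intervalIntegrable (by fun_prop) _ _)
      (Continuous.intervalIntegrable (by fun_prop) _ _), intervalIntegral.integral_const_mul,
    intervalIntegral.integral_sub (huc.intervalIntegrable _ _)
      (Continuous.intervalIntegrable (by fun_prop) _ _), hP] at h2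
  simp only [intervalIntegral.integral_const, smul_eq_mul] at h2
  simp only [pow_mul]
  have h3 := mul_le_mul_of_nonneg_left h1 (by positivity : 0 ≤ 2 * π)
  simp only [pow_mul] at h3
  refine h3.trans (le_trans (le_of_eq ?_) h2)
  ring

/-- lower bound for the weighted Bergman norm of a polynomial by its coefficients -/
theorem berg_lower (y : ℕ → ℂ) (M k p : ℕ) :
    π * ∑ n ∈ range M, ‖y n‖ ^ (2 * (k + 1)) *
        ((((k + 1) * n).factorial * p.factorial : ℝ) / ((k + 1) * n + p + 1).factorial)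
      ≤ ∫ z in ball (0 : ℂ) 1,
          ‖∑ n ∈ range M, y n * z ^ n‖ ^ (2 * (k + 1)) * (1 - ‖z‖ ^ 2) ^ p := by
  rw [polar _ (by fun_prop)]
  simp only [norm_polar, intervalIntegral.integral_mul_const]
  have e : π * ∑ n ∈ range M, ‖y n‖ ^ (2 * (k + 1)) *
        ((((k + 1) * n).factorial * p.factorial : ℝ) / ((k + 1) * n + p + 1).factorial)
      = ∫ r in (0 : ℝ)..1, ∑ n ∈ range M,
        (2 * π * ‖y n‖ ^ (2 * (k + 1))) * (r ^ (2 * ((k + 1) * n) + 1) * (1 - r ^ 2) ^ p) := by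
    rw [intervalIntegral.integral_finsetSum
      fun n _ => Continuous.intervalIntegrable (by fun_prop) _ _, mul_sum]
    refine sum_congr rfl fun n _ => ?_
    rw [intervalIntegral.integral_const_mul, beta_nat]
    field_simp
  rw [e]
  refine intervalIntegral.integral_mono_on zero_le_one
    (Continuous.intervalIntegrable (by fun_prop) _ _)
    (Continuous.intervalIntegrable ?_ _ _) fun r hr => ?_
  · refine continuous_id.mul (Continuous.mul ?_ (by fun_prop))
    exact intervalIntegral.continuous_parametric_intervalIntegral_of_continuous'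
      (f := fun r t : ℝ => ‖∑ n ∈ range M, y n * (r * Complex.exp (t * Complex.I)) ^ n‖
        ^ (2 * (k + 1))) (by unfold Function.uncurry; fun_prop) _ _
  · have hw : 0 ≤ (1 - r ^ 2) ^ p := pow_nonneg (by nlinarith [hr.1, hr.2]) p
    refine le_trans (le_of_eq ?_) (mul_le_mul_of_nonneg_left
      (mul_le_mul_of_nonneg_right (circle_lower y M k r) hw) hr.1)
    rw [mul_sum, sum_mul, mul_sum]
    exact sum_congr rfl fun n _ => by ring

theorem intOn (F : ℂ → ℝ) (hF : Continuous F) : IntegrableOn F (ball (0 : ℂ) 1) :=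
  (hF.continuousOn.integrableOn_compact (isCompact_closedBall 0 1)).mono_set ball_subset_closedBall

/-- Fatou's lemma in the form used below -/
theorem fatou (f : ℕ → ℂ → ℝ) (g : ℂ → ℝ) (hf : ∀ n, Continuous (f n))
    (h0 : ∀ n, ∀ z ∈ ball (0 : ℂ) 1, 0 ≤ f n z) (hg : IntegrableOn g (ball (0 : ℂ) 1))
    (ht : ∀ z ∈ ball (0 : ℂ) 1, Tendsto (fun n => f n z) atTop (𝓝 (g z)))
    (A : ℕ → ℝ) (a : ℝ) (hA : Tendsto A atTop (𝓝 a))
    (h : ∀ᶠ n in atTop, ∫ z in ball (0 : ℂ) 1, f n z ≤ A n) :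
    ∫ z in ball (0 : ℂ) 1, g z ≤ a := by
  have g0 : ∀ z ∈ ball (0 : ℂ) 1, 0 ≤ g z := fun z hz =>
    ge_of_tendsto' (ht z hz) fun n => h0 n z hz
  have a0 : 0 ≤ a := ge_of_tendsto hA (h.mono fun n hn =>
    le_trans (setIntegral_nonneg measurableSet_ball (h0 n)) hn)
  rw [← ENNReal.ofReal_le_ofReal_iff a0, ofReal_integral_eq_lintegral_ofReal hg
    ((ae_restrict_iff' measurableSet_ball).2 (Eventually.of_forall g0))]
  have e : ∫⁻ z in ball (0 : ℂ) 1, ENNReal.ofReal (g z)
      = ∫⁻ z in ball (0 : ℂ) 1, liminf (fun n => ENNReal.ofReal (f n z)) atTop :=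
    setLIntegral_congr_fun measurableSet_ball fun z hz =>
      ((ENNReal.tendsto_ofReal (ht z hz)).liminf_eq).symm
  rw [e]
  refine (lintegral_liminf_le fun n => (hf n).measurable.ennreal_ofReal).trans ?_
  rw [← (ENNReal.tendsto_ofReal hA).liminf_eq]
  refine liminf_le_liminf (h.mono fun n hn => ?_)
  rw [← ofReal_integral_eq_lintegral_ofReal (intOn _ (hf n))
    ((ae_restrict_iff' measurableSet_ball).2 (Eventually.of_forall (h0 n)))]
  exact ENNReal.ofReal_le_ofReal hn

/-- norm bound for the coherent vectors -/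
theorem coh_norm (α : ℕ → ℝ) (p : ℕ) (hα : ∀ n, α n ^ 2 ≤ ((n + 1).ascFactorial (p + 1) : ℝ))
    (M : ℕ) (z : ℂ) (hz : z ∈ ball (0 : ℂ) 1) :
    (∑ n ∈ range M, ‖(α n : ℂ) * z ^ n‖ ^ 2) * (1 - ‖z‖ ^ 2) ^ (p + 2)
      ≤ (p + 1).factorial := by
  rw [mem_ball_zero_iff] at hz
  set t : ℝ := ‖z‖ ^ 2 with ht
  have t0 : 0 ≤ t := by positivity
  have t1 : t < 1 := by rw [ht]; nlinarith [norm_nonneg z]
  have hs := hasSum_choose_mul_geometric_of_norm_lt_one (p + 1)
    (r := t) (by rw [Real.norm_eq_abs, abs_of_nonneg t0]; exact t1)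
  have h1 := sum_le_hasSum (range M) (fun n _ => by positivity) hs
  have h2 : ∑ n ∈ range M, ‖(α n : ℂ) * z ^ n‖ ^ 2
      ≤ (p + 1).factorial * ∑ n ∈ range M, ((n + (p + 1)).choose (p + 1) : ℝ) * t ^ n := by
    rw [mul_sum]
    refine sum_le_sum fun n _ => ?_
    rw [norm_mul, mul_pow, Complex.norm_real, Real.norm_eq_abs, sq_abs, norm_pow, ← pow_mul,
      mul_comm n 2, pow_mul, ← ht, ← mul_assoc]
    refine mul_le_mul_of_nonneg_right ((hα n).trans (le_of_eq ?_)) (by positivity)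
    rw [Nat.ascFactorial_eq_factorial_mul_choose]; push_cast; ring
  have hw : 0 < (1 - t) ^ (p + 2) := pow_pos (by linarith) _
  calc _ ≤ ((p + 1).factorial * (1 / (1 - t) ^ (p + 1 + 1))) * (1 - t) ^ (p + 2) :=
        mul_le_mul_of_nonneg_right
          (h2.trans (mul_le_mul_of_nonneg_left h1 (by positivity))) hw.le
    _ = _ := by field_simp

/-- Bessel bound for the coherent vectors -/
theorem coh_bessel (α : ℕ → ℝ) (p : ℕ) (hα : ∀ n, α n ^ 2 ≤ ((n + 1).ascFactorial (p + 1) : ℝ))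
    (M : ℕ) (ω : ℕ → ℂ) :
    ∫ z in ball (0 : ℂ) 1, ‖∑ n ∈ range M, (ω n * α n) * z ^ n‖ ^ 2 * (1 - ‖z‖ ^ 2) ^ p
      ≤ π * p.factorial * ∑ n ∈ range M, ‖ω n‖ ^ 2 := by
  rw [berg_sq, mul_assoc, mul_sum (s := range M) (a := (p.factorial : ℝ))]
  refine mul_le_mul_of_nonneg_left (sum_le_sum fun n _ => ?_) pi_pos.le
  rw [norm_mul, mul_pow, Complex.norm_real, Real.norm_eq_abs, sq_abs, mul_assoc, mul_comm]
  refine mul_le_mul_of_nonneg_right ?_ (by positivity)
  have h1 : (n.factorial : ℝ) * ((n + 1).ascFactorial (p + 1) : ℝ) = (n + p + 1).factorial := by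
    exact_mod_cast Nat.factorial_mul_ascFactorial n (p + 1)
  have h2 : (0 : ℝ) < (n + p + 1).factorial := by positivity
  rw [← mul_div_assoc, div_le_iff₀ h2, ← h1]
  have := mul_le_mul_of_nonneg_left (hα n)
    (by positivity : (0 : ℝ) ≤ n.factorial * p.factorial)
  nlinarith

end Pool.Agent.P.MP_2eaf66_an.Bg
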