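import Mathlib

set_option autoImplicit false

namespace Pool.Agent.P.MP_2eaf66_an

open scoped InnerProductSpace ComplexConjugate
open Finset

theorem tangent_ineq (σ s : ℝ) (hσ : 0 ≤ σ) (hs : 0 ≤ s) (m : ℕ) :
    ((m : ℝ) + 2) * σ ^ 2 * s ^ m ≤ 2 * σ ^ (m + 2) + m * s ^ (m + 2) := by
  induction m with
  | zero => simp
  | succ m ih =>
    have h1 := mul_le_mul_of_nonneg_right ih hs
    have key : 0 ≤ (σ - s) * (2 * σ ^ (m + 2) - s ^ (m + 1) * (s + σ)) := by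
      rcases le_total s σ with h | h
      · refine mul_nonneg (by linarith) ?_
        have a1 : s ^ (m + 1) ≤ σ ^ (m + 1) := pow_le_pow_left₀ hs h _
        have a2 : s ^ (m + 1) * (s + σ) ≤ σ ^ (m + 1) * (σ + σ) :=
          mul_le_mul a1 (by linarith) (by linarith) (by positivity)
        have : σ ^ (m + 1) * (σ + σ) = 2 * σ ^ (m + 2) := by ring
        linarith
      · refine mul_nonneg_of_nonpos_of_nonpos (by linarith) ?_
        have a1 : σ ^ (m + 1) ≤ s ^ (m + 1) := pow_le_pow_left₀ hσ h _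
        have a2 : σ ^ (m + 1) * (σ + σ) ≤ s ^ (m + 1) * (s + σ) :=
          mul_le_mul a1 (by linarith) (by linarith) (by positivity)
        have : σ ^ (m + 1) * (σ + σ) = 2 * σ ^ (m + 2) := by ring
        linarith
    push_cast
    have e : 2 * σ ^ (m + 1 + 2) + ((m : ℝ) + 1) * s ^ (m + 1 + 2)
        - ((m : ℝ) + 1 + 2) * σ ^ 2 * s ^ (m + 1)
        = ((2 * σ ^ (m + 2) + m * s ^ (m + 2)) * s - ((m : ℝ) + 2) * σ ^ 2 * s ^ m * s)
          + (σ - s) * (2 * σ ^ (m + 2) - s ^ (m + 1) * (s + σ)) := by ring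
    linarith

/-- power mean inequality with sub-probability weights -/
theorem pow_mean {J : Type*} (t : Finset J) (p σ : J → ℝ) (hp : ∀ j ∈ t, 0 ≤ p j)
    (hσ : ∀ j ∈ t, 0 ≤ σ j) (hsum : ∑ j ∈ t, p j ≤ 1) (s : ℝ) (hs : 0 ≤ s)
    (h : s ^ 2 ≤ ∑ j ∈ t, p j * σ j ^ 2) (k : ℕ) (hk : 2 ≤ k) :
    s ^ k ≤ ∑ j ∈ t, p j * σ j ^ k := by
  obtain ⟨m, rfl⟩ : ∃ m, k = m + 2 := ⟨k - 2, by omega⟩
  have h1 : ∑ j ∈ t, p j * (((m : ℝ) + 2) * σ j ^ 2 * s ^ m)
      ≤ ∑ j ∈ t, p j * (2 * σ j ^ (m + 2) + m * s ^ (m + 2)) :=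
    sum_le_sum fun j hj => mul_le_mul_of_nonneg_left (tangent_ineq _ _ (hσ j hj) hs m) (hp j hj)
  have e1 : ∑ j ∈ t, p j * (((m : ℝ) + 2) * σ j ^ 2 * s ^ m)
      = ((m : ℝ) + 2) * s ^ m * ∑ j ∈ t, p j * σ j ^ 2 := by
    rw [mul_sum]; exact sum_congr rfl fun j _ => by ring
  have e2 : ∑ j ∈ t, p j * (2 * σ j ^ (m + 2) + m * s ^ (m + 2))
      = 2 * ∑ j ∈ t, p j * σ j ^ (m + 2) + m * s ^ (m + 2) * ∑ j ∈ t, p j := by
    rw [mul_sum, mul_sum, ← sum_add_distrib]; exact sum_congr rfl fun j _ => by ring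
  rw [e1, e2] at h1
  have h2 : ((m : ℝ) + 2) * s ^ m * s ^ 2 ≤ ((m : ℝ) + 2) * s ^ m * ∑ j ∈ t, p j * σ j ^ 2 :=
    mul_le_mul_of_nonneg_left h (by positivity)
  have h3 : (m : ℝ) * s ^ (m + 2) * ∑ j ∈ t, p j ≤ m * s ^ (m + 2) * 1 :=
    mul_le_mul_of_nonneg_left hsum (by positivity)
  have e3 : ((m : ℝ) + 2) * s ^ m * s ^ 2 = m * s ^ (m + 2) + 2 * s ^ (m + 2) := by ring
  linarith

variable {E : Type} [NormedAddCommGroup E] [InnerProductSpace ℂ E]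

theorem frame_pow {I J : Type} [Fintype I] [Fintype J] (w : OrthonormalBasis J ℂ E)
    (σ : J → ℝ) (hσ : ∀ j, 0 ≤ σ j) (u : I → E)
    (h : ∀ x : E, ∑ i, ‖⟪u i, x⟫_ℂ‖ ^ 2 ≤ ∑ j, σ j ^ 2 * ‖⟪w j, x⟫_ℂ‖ ^ 2)
    (k : ℕ) (hk : 2 ≤ k) : ∑ i, ‖u i‖ ^ k ≤ ∑ j, σ j ^ k := by
  classical
  set q : I → J → ℝ := fun i j => ‖⟪w j, u i⟫_ℂ‖ ^ 2 with hq
  have hq0 : ∀ i j, 0 ≤ q i j := fun i j => by positivity
  have ha : ∀ j, ∑ i, q i j ≤ σ j ^ 2 := by
    intro j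
    have h1 := h (w j)
    have e1 : ∑ i, ‖⟪u i, w j⟫_ℂ‖ ^ 2 = ∑ i, q i j :=
      sum_congr rfl fun i _ => by rw [hq]; simp only; rw [norm_inner_symm]
    have e2 : ∑ j', σ j' ^ 2 * ‖⟪w j', w j⟫_ℂ‖ ^ 2 = σ j ^ 2 := by
      rw [sum_eq_single j]
      · simp
      · intro b _ hb
        rw [w.orthonormal.inner_eq_zero hb]; simp
      · simp
    rwa [e1, e2] at h1
  set p : I → J → ℝ := fun i j => q i j / σ j ^ 2 with hp
  have hp0 : ∀ i j, 0 ≤ p i j := fun i j => div_nonneg (hq0 i j) (sq_nonneg _)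
  have hpq : ∀ i j, p i j * σ j ^ 2 = q i j := by
    intro i j
    by_cases h0 : σ j ^ 2 = 0
    · have : q i j ≤ ∑ i, q i j := single_le_sum (fun i _ => hq0 i j) (mem_univ i)
      have h2 := ha j
      have h3 := hq0 i j
      rw [h0, mul_zero]; linarith
    · rw [hp]; exact div_mul_cancel₀ _ h0
  have hcol : ∀ j, ∑ i, p i j ≤ 1 := by
    intro j
    rw [hp]; simp only
    rw [← sum_div]
    exact div_le_one_of_le₀ (ha j) (sq_nonneg _)
  have hrow : ∀ i, ∑ j, p i j ≤ 1 := by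
    intro i
    set x : E := ∑ j, (⟪w j, u i⟫_ℂ / ((σ j ^ 2 : ℝ) : ℂ)) • w j with hx
    have e1 : ∀ j, ⟪w j, x⟫_ℂ = ⟪w j, u i⟫_ℂ / ((σ j ^ 2 : ℝ) : ℂ) := by
      intro j
      rw [hx]
      exact w.orthonormal.inner_right_fintype _ j
    have e2 : ⟪u i, x⟫_ℂ = ((∑ j, p i j : ℝ) : ℂ) := by
      rw [hx, inner_sum]
      push_cast
      refine sum_congr rfl fun j _ => ?_
      rw [inner_smul_right, ← inner_conj_symm (u i) (w j), div_mul_eq_mul_div, Complex.mul_conj,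
        Complex.normSq_eq_norm_sq, hp, hq]
      push_cast; rfl
    have e3 : ∑ j, σ j ^ 2 * ‖⟪w j, x⟫_ℂ‖ ^ 2 = ∑ j, p i j := by
      refine sum_congr rfl fun j _ => ?_
      rw [e1, norm_div, Complex.norm_real, Real.norm_eq_abs, abs_of_nonneg (sq_nonneg _), div_pow,
        hp, hq]
      simp only
      by_cases h0 : σ j ^ 2 = 0
      · rw [h0]; simp
      · field_simp
    have h1 := h x
    have h2 : ‖⟪u i, x⟫_ℂ‖ ^ 2 ≤ ∑ i, ‖⟪u i, x⟫_ℂ‖ ^ 2 :=
      single_le_sum (f := fun i => ‖⟪u i, x⟫_ℂ‖ ^ 2) (fun i _ => by positivity) (mem_univ i)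
    rw [e3] at h1
    have t0 : 0 ≤ ∑ j, p i j := sum_nonneg fun j _ => hp0 i j
    rw [e2, Complex.norm_real, Real.norm_eq_abs, abs_of_nonneg t0] at h2
    nlinarith
  have hi : ∀ i, ‖u i‖ ^ k ≤ ∑ j, p i j * σ j ^ k := by
    intro i
    refine pow_mean univ (p i) σ (fun j _ => hp0 i j) (fun j _ => hσ j) (hrow i) _
      (norm_nonneg _) ?_ k hk
    rw [← w.sum_sq_norm_inner_right (u i)]
    exact le_of_eq (sum_congr rfl fun j _ => (hpq i j).symm)
  calc ∑ i, ‖u i‖ ^ k ≤ ∑ i, ∑ j, p i j * σ j ^ k := sum_le_sum fun i _ => hi i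
    _ = ∑ j, (∑ i, p i j) * σ j ^ k := by
        rw [sum_comm]; exact sum_congr rfl fun j _ => by rw [sum_mul]
    _ ≤ ∑ j, 1 * σ j ^ k := sum_le_sum fun j _ =>
        mul_le_mul_of_nonneg_right (hcol j) (pow_nonneg (hσ j) _)
    _ = ∑ j, σ j ^ k := by simp

/-- Schur triangularisation, in trace form. -/
theorem schur_trace : ∀ (n : ℕ) (E : Type) [NormedAddCommGroup E] [InnerProductSpace ℂ E]
    [FiniteDimensional ℂ E], Module.finrank ℂ E = n → ∀ Z : E →ₗ[ℂ] E,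
    ∃ e : OrthonormalBasis (Fin n) ℂ E,
      ∀ k : ℕ, LinearMap.trace ℂ E (Z ^ k) = ∑ i, ⟪e i, Z (e i)⟫_ℂ ^ k := by
  intro n
  induction n with
  | zero =>
    intro E _ _ _ hn Z
    refine ⟨(stdOrthonormalBasis ℂ E).reindex (finCongr hn), fun k => ?_⟩
    rw [LinearMap.trace_eq_sum_inner _ ((stdOrthonormalBasis ℂ E).reindex (finCongr hn))]
    simp
  | succ n ih =>
    intro E _ _ _ hn Z
    have : Nontrivial E := Module.nontrivial_of_finrank_pos (R := ℂ) (by omega)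
    obtain ⟨μ, hμ⟩ := Module.End.exists_eigenvalue (LinearMap.adjoint Z)
    obtain ⟨v₀, hv₀⟩ := hμ.exists_hasEigenvector
    have hv0 : v₀ ≠ 0 := hv₀.2
    set v : E := ((‖v₀‖⁻¹ : ℝ) : ℂ) • v₀ with hv
    have hvn : ‖v‖ = 1 := by
      rw [hv, norm_smul, Complex.norm_real, Real.norm_eq_abs, abs_of_nonneg (by positivity)]
      exact inv_mul_cancel₀ (norm_ne_zero_iff.2 hv0)
    have hvne : v ≠ 0 := by
      intro h; rw [h] at hvn; simp at hvn
    have hZv : LinearMap.adjoint Z v = μ • v := by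
      rw [hv, map_smul, hv₀.apply_eq_smul, smul_comm]
    have hin : ∀ x, ⟪v, Z x⟫_ℂ = conj μ * ⟪v, x⟫_ℂ := by
      intro x
      rw [← LinearMap.adjoint_inner_left, hZv, inner_smul_left]
    have : Fact (Module.finrank ℂ E = n + 1) := ⟨hn⟩
    have hK : Module.finrank ℂ (ℂ ∙ v)ᗮ = n := Submodule.finrank_orthogonal_span_singleton hvne
    have hmaps : ∀ x ∈ (ℂ ∙ v)ᗮ, Z x ∈ (ℂ ∙ v)ᗮ := by
      intro x hx
      rw [Submodule.mem_orthogonal_singleton_iff_inner_right] at hx ⊢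
      rw [hin, hx, mul_zero]
    obtain ⟨e', he'⟩ := ih (ℂ ∙ v)ᗮ hK (Z.restrict hmaps)
    have hon : Orthonormal ℂ (Matrix.vecCons v (fun i => (e' i : E))) := by
      rw [orthonormal_vecCons_iff]
      refine ⟨hvn, fun i => ?_, ?_⟩
      · exact Submodule.mem_orthogonal_singleton_iff_inner_right.1 (e' i).2
      · exact e'.orthonormal.comp_linearIsometry (ℂ ∙ v)ᗮ.subtypeₗᵢ
    set e : OrthonormalBasis (Fin (n + 1)) ℂ E :=
      (basisOfOrthonormalOfCardEqFinrank hon (by simp [hn])).toOrthonormalBasis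
        (by rw [coe_basisOfOrthonormalOfCardEqFinrank]; exact hon) with he
    have hcoe : (e : Fin (n + 1) → E) = Matrix.vecCons v (fun i => (e' i : E)) := by
      rw [he, Module.Basis.coe_toOrthonormalBasis, coe_basisOfOrthonormalOfCardEqFinrank]
    refine ⟨e, fun k => ?_⟩
    rw [LinearMap.trace_eq_sum_inner _ e, hcoe, Fin.sum_univ_succ, Fin.sum_univ_succ]
    simp only [Matrix.cons_val_zero, Matrix.cons_val_succ]
    have hvv : ⟪v, v⟫_ℂ = 1 := by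
      rw [inner_self_eq_norm_sq_to_K, hvn]; simp
    have h1 : ∀ (k : ℕ) x, ⟪v, (Z ^ k) x⟫_ℂ = conj μ ^ k * ⟪v, x⟫_ℂ := by
      intro k
      induction k with
      | zero => intro x; simp
      | succ k ihk =>
        intro x
        rw [pow_succ', Module.End.mul_apply, hin, ihk]; ring
    have h2 := he' k
    rw [LinearMap.trace_eq_sum_inner _ e'] at h2
    congr 1
    · rw [h1, hin, hvv]; simp
    · have h3 : ∀ i, ⟪(e' i : E), (Z ^ k) (e' i)⟫_ℂ = ⟪e' i, ((Z.restrict hmaps) ^ k) (e' i)⟫_ℂ := by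
        intro i
        rw [Module.End.pow_restrict, Submodule.coe_inner, LinearMap.coe_restrict_apply]
      have h4 : ∀ i, ⟪(e' i : E), Z (e' i)⟫_ℂ = ⟪e' i, (Z.restrict hmaps) (e' i)⟫_ℂ := by
        intro i
        rw [Submodule.coe_inner, LinearMap.coe_restrict_apply]
      simp only [h3, h4]
      exact h2


theorem inner_eig {J : Type} [Fintype J] (v : OrthonormalBasis J ℂ E) (T : E →ₗ[ℂ] E)
    (hT : T.IsSymmetric) (lam : J → ℝ) (h : ∀ j, T (v j) = (lam j : ℂ) • v j) (j : J) (x : E) :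
    ⟪v j, T x⟫_ℂ = (lam j : ℂ) * ⟪v j, x⟫_ℂ := by
  rw [← hT, h, inner_smul_left, Complex.conj_ofReal]

theorem re_inner_eig {J : Type} [Fintype J] (v : OrthonormalBasis J ℂ E) (T : E →ₗ[ℂ] E)
    (hT : T.IsSymmetric) (lam : J → ℝ) (h : ∀ j, T (v j) = (lam j : ℂ) • v j) (x : E) :
    (⟪x, T x⟫_ℂ).re = ∑ j, lam j * ‖⟪v j, x⟫_ℂ‖ ^ 2 := by
  rw [← v.sum_inner_mul_inner x (T x), Complex.re_sum]
  refine sum_congr rfl fun j _ => ?_
  rw [inner_eig v T hT lam h, ← inner_conj_symm x (v j), mul_left_comm, mul_comm (conj _),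
    Complex.mul_conj, Complex.normSq_eq_norm_sq, ← Complex.ofReal_mul, Complex.ofReal_re]

theorem re_inner_self' (x : E) : (⟪x, x⟫_ℂ).re = ‖x‖ ^ 2 := by
  rw [inner_self_eq_norm_sq_to_K]; norm_cast

theorem abstract_ineq [FiniteDimensional ℂ E] {ι : Type} [Fintype ι]
    (b : OrthonormalBasis ι ℂ E) (X H : E →ₗ[ℂ] E) (hX : X.IsSymmetric) (hH : H.IsSymmetric)
    (hHH : ∀ x, H (H x) = x) (k : ℕ) (hk : 2 ≤ k) :
    ∑ i, ‖(1 / 2 : ℂ) • (X (X (b i)) - H (X (X (H (b i)))))‖ ^ k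
      ≤ (LinearMap.trace ℂ E (X ^ (2 * k)) - LinearMap.trace ℂ E ((X * H) ^ (2 * k))).re := by
  classical
  have hHn : ∀ x, ‖H x‖ = ‖x‖ := by
    intro x
    have : ‖H x‖ ^ 2 = ‖x‖ ^ 2 := by
      rw [← re_inner_self', ← re_inner_self', hH, hHH]
    exact (pow_left_inj₀ (norm_nonneg _) (norm_nonneg _) two_ne_zero).1 this
  set n := Module.finrank ℂ E with hn
  set U : E →ₗ[ℂ] E := X * X with hU
  set V : E →ₗ[ℂ] E := H * U * H with hV
  have hUa : ∀ x, U x = X (X x) := fun x => rfl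
  have hVa : ∀ x, V x = H (U (H x)) := fun x => rfl
  have hUs : U.IsSymmetric := fun x y => by rw [hUa, hUa, hX, hX]
  have hVs : V.IsSymmetric := fun x y => by rw [hVa, hVa, hH, hUs, hH]
  have half : conj (1 / 2 : ℂ) = 1 / 2 := by simp [map_ofNat]
  set U0 : E →ₗ[ℂ] E := (1 / 2 : ℂ) • (U + V) with hU0
  set U1 : E →ₗ[ℂ] E := (1 / 2 : ℂ) • (U - V) with hU1
  have hU0s : U0.IsSymmetric := (hUs.add hVs).smul half
  have hU1s : U1.IsSymmetric := (hUs.sub hVs).smul half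
  set W : E →ₗ[ℂ] E := (1 / 2 : ℂ) • (U * U + V * V) with hW
  have hWs : W.IsSymmetric := by
    refine LinearMap.IsSymmetric.smul half (LinearMap.IsSymmetric.add ?_ ?_)
    · intro x y; simp only [Module.End.mul_apply]; rw [hUs, hUs]
    · intro x y; simp only [Module.End.mul_apply]; rw [hVs, hVs]
  have hWq : ∀ x, (⟪x, W x⟫_ℂ).re = (‖U x‖ ^ 2 + ‖V x‖ ^ 2) / 2 := by
    intro x
    have e : ⟪x, W x⟫_ℂ = (1 / 2 : ℂ) * (⟪U x, U x⟫_ℂ + ⟪V x, V x⟫_ℂ) := by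
      rw [hW, LinearMap.smul_apply, inner_smul_right, LinearMap.add_apply, inner_add_right,
        hUs, hVs]
      rfl
    rw [e, ← re_inner_self', ← re_inner_self']
    simp only [Complex.mul_re, Complex.add_re, Complex.add_im]
    norm_num; ring
  have hpar : ∀ x, ‖U0 x‖ ^ 2 + ‖U1 x‖ ^ 2 = (‖U x‖ ^ 2 + ‖V x‖ ^ 2) / 2 := by
    intro x
    have := parallelogram_law_with_norm ℂ (U x) (V x)
    rw [hU0, hU1, LinearMap.smul_apply, LinearMap.smul_apply, norm_smul, norm_smul,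
      LinearMap.add_apply, LinearMap.sub_apply]
    have h2 : ‖(1 / 2 : ℂ)‖ = 1 / 2 := by simp
    rw [h2]; nlinarith
  set w := hWs.eigenvectorBasis hn.symm with hw
  set μ := hWs.eigenvalues hn.symm with hμ
  have hwμ : ∀ j, W (w j) = (μ j : ℂ) • w j := fun j => hWs.apply_eigenvectorBasis hn.symm j
  set σ : Fin n → ℝ := fun j => √((‖U (w j)‖ ^ 2 + ‖V (w j)‖ ^ 2) / 2) with hσ
  have hσ0 : ∀ j, 0 ≤ σ j := fun j => Real.sqrt_nonneg _
  have hσ2 : ∀ j, σ j ^ 2 = (‖U (w j)‖ ^ 2 + ‖V (w j)‖ ^ 2) / 2 := fun j =>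
    Real.sq_sqrt (by positivity)
  have hσμ : ∀ j, σ j ^ 2 = μ j := by
    intro j
    rw [hσ2, ← hWq, hwμ, inner_smul_right, inner_self_eq_norm_sq_to_K, w.orthonormal.1 j]
    simp
  obtain ⟨e, he⟩ := schur_trace n E hn.symm ((X * H) ^ 2)
  -- step (i)
  have s1 : ∑ i, ‖U0 (e i)‖ ^ k + ∑ i, ‖U1 (b i)‖ ^ k ≤ ∑ j, σ j ^ k := by
    have := frame_pow w σ hσ0 (Sum.elim (fun i => U0 (e i)) (fun i => U1 (b i))) ?_ k hk
    · simpa [Fintype.sum_sum_type] using this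
    · intro x
      rw [Fintype.sum_sum_type]
      simp only [Sum.elim_inl, Sum.elim_inr]
      simp only [hU0s _ x, hU1s _ x]
      rw [e.sum_sq_norm_inner_right, b.sum_sq_norm_inner_right, hpar, ← hWq,
        re_inner_eig w W hWs μ hwμ]
      simp only [hσμ]; exact le_rfl
  -- step (ii)
  have s2 : ∀ j, σ j ^ k ≤ (‖U (w j)‖ ^ k + ‖V (w j)‖ ^ k) / 2 := by
    intro j
    have := pow_mean (univ : Finset (Fin 2)) (fun _ => 1 / 2) ![‖U (w j)‖, ‖V (w j)‖]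
      (fun _ _ => by norm_num) (fun i _ => by fin_cases i <;> simp) (by simp) (σ j) (hσ0 j)
      (by rw [hσ2]; simp [Fin.sum_univ_two]; linarith) k hk
    simp [Fin.sum_univ_two] at this
    linarith
  -- step (iii)
  set v := hX.eigenvectorBasis hn.symm with hv
  set ξ := hX.eigenvalues hn.symm with hξ
  have hvξ : ∀ j, X (v j) = (ξ j : ℂ) • v j := fun j => hX.apply_eigenvectorBasis hn.symm j
  have hvU : ∀ j, U (v j) = ((ξ j ^ 2 : ℝ) : ℂ) • v j := by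
    intro j
    rw [hUa, hvξ, map_smul, hvξ, smul_smul]; push_cast; rw [sq]
  have hUn : ∀ x, ‖U x‖ ^ 2 = ∑ l, (ξ l ^ 2) ^ 2 * ‖⟪v l, x⟫_ℂ‖ ^ 2 := by
    intro x
    rw [← v.sum_sq_norm_inner_right]
    refine sum_congr rfl fun l _ => ?_
    rw [inner_eig v U hUs (fun l => ξ l ^ 2) hvU, norm_mul, Complex.norm_real, Real.norm_eq_abs,
      abs_of_nonneg (sq_nonneg _), mul_pow]
  have s3 : ∑ j, ‖U (w j)‖ ^ k ≤ ∑ l, (ξ l ^ 2) ^ k := by
    refine frame_pow v (fun l => ξ l ^ 2) (fun l => sq_nonneg _) (fun j => U (w j)) ?_ k hk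
    intro x
    simp only [hUs _ x]
    rw [w.sum_sq_norm_inner_right, hUn]
  have s3' : ∑ j, ‖V (w j)‖ ^ k ≤ ∑ l, (ξ l ^ 2) ^ k := by
    simp only [hVa, hHn]
    refine frame_pow v (fun l => ξ l ^ 2) (fun l => sq_nonneg _) (fun j => U (H (w j))) ?_ k hk
    intro x
    simp only [hUs _ x, hH _ (U x)]
    rw [w.sum_sq_norm_inner_right, hHn, hUn]
  -- step (iv)
  have s4 : (LinearMap.trace ℂ E (X ^ (2 * k))).re = ∑ l, (ξ l ^ 2) ^ k := by
    have hp : ∀ (m : ℕ) l, (X ^ m) (v l) = ((ξ l ^ m : ℝ) : ℂ) • v l := by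
      intro m l
      induction m with
      | zero => simp
      | succ m ih =>
        rw [pow_succ', Module.End.mul_apply, ih, map_smul, hvξ, smul_smul]; push_cast
        rw [pow_succ]
    rw [LinearMap.trace_eq_sum_inner _ v, Complex.re_sum]
    refine sum_congr rfl fun l _ => ?_
    rw [hp, inner_smul_right, inner_self_eq_norm_sq_to_K, v.orthonormal.1 l, ← pow_mul]
    simp only [RCLike.ofReal_one, one_pow, mul_one, Complex.ofReal_re]
  -- step (v)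
  have s5 : (LinearMap.trace ℂ E ((X * H) ^ (2 * k))).re ≤ ∑ i, ‖U0 (e i)‖ ^ k := by
    rw [pow_mul, he, Complex.re_sum]
    refine sum_le_sum fun i _ => (Complex.re_le_norm _).trans ?_
    rw [norm_pow]
    refine pow_le_pow_left₀ (norm_nonneg _) ?_ k
    have e1 : ⟪e i, ((X * H) ^ 2) (e i)⟫_ℂ = ⟪X (e i), H (X (H (e i)))⟫_ℂ := by
      rw [hX, sq]; rfl
    have e2 : (⟪e i, U0 (e i)⟫_ℂ).re = (‖X (e i)‖ ^ 2 + ‖X (H (e i))‖ ^ 2) / 2 := by
      have : ⟪e i, U0 (e i)⟫_ℂ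
          = (1 / 2 : ℂ) * (⟪X (e i), X (e i)⟫_ℂ + ⟪X (H (e i)), X (H (e i))⟫_ℂ) := by
        rw [hU0, LinearMap.smul_apply, inner_smul_right, LinearMap.add_apply, inner_add_right,
          hVa, hUa, hUa, hX, hX, hH]
      rw [this, ← re_inner_self', ← re_inner_self']
      simp only [Complex.mul_re, Complex.add_re, Complex.add_im]
      norm_num; ring
    have e3 : (⟪e i, U0 (e i)⟫_ℂ).re ≤ ‖U0 (e i)‖ := by
      refine (Complex.re_le_norm _).trans ((norm_inner_le_norm _ _).trans ?_)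
      rw [e.orthonormal.1 i, one_mul]
    rw [e1]
    refine (norm_inner_le_norm _ _).trans ?_
    rw [hHn]
    nlinarith [sq_nonneg (‖X (e i)‖ - ‖X (H (e i))‖)]
  have s6 : ∑ j, σ j ^ k ≤ ∑ l, (ξ l ^ 2) ^ k := by
    calc ∑ j, σ j ^ k ≤ ∑ j, (‖U (w j)‖ ^ k + ‖V (w j)‖ ^ k) / 2 := sum_le_sum fun j _ => s2 j
      _ = (∑ j, ‖U (w j)‖ ^ k + ∑ j, ‖V (w j)‖ ^ k) / 2 := by
          rw [← sum_div, sum_add_distrib]
      _ ≤ _ := by linarith
  have e7 : ∀ i, (1 / 2 : ℂ) • (X (X (b i)) - H (X (X (H (b i))))) = U1 (b i) := fun i => rfl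
  simp only [e7]
  rw [Complex.sub_re, s4]
  linarith

/-- Matrix form. -/
theorem matrix_ineq {ι : Type} [Fintype ι] [DecidableEq ι] (X : Matrix ι ι ℂ)
    (hX : X.IsHermitian) (h : ι → ℝ) (hh : ∀ i, h i = 1 ∨ h i = -1) (k : ℕ) (hk : 2 ≤ k) :
    ∑ y, √(∑ x with h x ≠ h y, ‖(X * X) x y‖ ^ 2) ^ k
      ≤ ((X ^ (2 * k)).trace
          - ((X * Matrix.diagonal (fun i => (h i : ℂ))) ^ (2 * k)).trace).re := by
  set D : Matrix ι ι ℂ := Matrix.diagonal (fun i => (h i : ℂ)) with hD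
  have hDh : D.IsHermitian := by
    rw [hD, Matrix.isHermitian_diagonal_iff]
    intro i; simp [isSelfAdjoint_iff]
  have hDD : D * D = 1 := by
    rw [hD, Matrix.diagonal_mul_diagonal, ← Matrix.diagonal_one]
    congr 1; ext i
    rcases hh i with h1 | h1 <;> simp [h1]
  have key := abstract_ineq (EuclideanSpace.basisFun ι ℂ) (Matrix.toEuclideanLin X)
    (Matrix.toEuclideanLin D) (Matrix.isSymmetric_toEuclideanLin_iff.2 hX)
    (Matrix.isSymmetric_toEuclideanLin_iff.2 hDh) (by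
      intro x
      rw [← LinearMap.comp_apply, ← Matrix.toLpLin_mul_same, hDD, Matrix.toLpLin_one]; rfl) k hk
  have tr : ∀ A : Matrix ι ι ℂ, LinearMap.trace ℂ _ (Matrix.toEuclideanLin A) = A.trace := by
    intro A
    rw [Matrix.toEuclideanLin_eq_toLin_orthonormal, Matrix.trace_toLin_eq]
  rw [Module.End.mul_eq_comp, ← Matrix.toLpLin_mul_same, ← Matrix.toLpLin_pow,
    ← Matrix.toLpLin_pow, tr, tr] at key
  refine le_trans (le_of_eq ?_) key
  refine sum_congr rfl fun y _ => ?_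
  congr 1
  rw [EuclideanSpace.norm_eq, sum_filter]
  congr 1
  refine sum_congr rfl fun x _ => ?_
  have e : ((1 / 2 : ℂ) • (Matrix.toEuclideanLin X (Matrix.toEuclideanLin X
      (EuclideanSpace.basisFun ι ℂ y)) - Matrix.toEuclideanLin D (Matrix.toEuclideanLin X
      (Matrix.toEuclideanLin X (Matrix.toEuclideanLin D (EuclideanSpace.basisFun ι ℂ y)))))) x
      = (1 / 2 : ℂ) * ((X * X) x y - h x * (X * X) x y * h y) := by
    simp only [PiLp.smul_apply, PiLp.sub_apply, Matrix.toLpLin_apply, Matrix.mulVec_mulVec,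
      smul_eq_mul]
    simp only [EuclideanSpace.basisFun_apply, PiLp.ofLp_single, Matrix.mulVec_single_one,
      Matrix.col_apply]
    have : D * (X * (X * D)) = D * (X * X) * D := by simp only [Matrix.mul_assoc]
    rw [this, hD, Matrix.mul_diagonal, Matrix.diagonal_mul]
  rw [e]
  rcases hh x with h1 | h1 <;> rcases hh y with h2 | h2 <;> rw [h1, h2] <;> norm_num
  · rw [← two_mul, norm_mul]; norm_num; ring
  · rw [← two_mul, norm_mul]; norm_num; ring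

end Pool.Agent.P.MP_2eaf66_an
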