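import Mathlib
import Pool.Agent.P.MP_2eaf66_an.Operator

set_option autoImplicit false

namespace Pool.Agent.P.MP_2eaf66_an

open scoped ComplexConjugate
open Finset

theorem fiber_parseval {α : Type} (A : Finset α) (T : Finset ℤ) (σ : α → ℤ)
    (hσ : ∀ x ∈ A, σ x ∈ T) (v : α → ℂ) :
    ((∑ s ∈ T, ‖∑ x ∈ A with σ x = s, v x‖ ^ 2 : ℝ) : ℂ)
      = ∑ x ∈ A, ∑ y ∈ A, if σ x = σ y then v x * conj (v y) else 0 := by
  push_cast
  have e : ∀ s, ((‖∑ x ∈ A with σ x = s, v x‖ : ℝ) : ℂ) ^ 2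
      = ∑ x ∈ A, ∑ y ∈ A, if σ x = s then (if σ y = s then v x * conj (v y) else 0) else 0 := by
    intro s
    rw [← Complex.ofReal_pow, ← Complex.normSq_eq_norm_sq, ← Complex.mul_conj, map_sum,
      sum_filter, sum_filter, sum_mul_sum]
    refine sum_congr rfl fun x _ => sum_congr rfl fun y _ => ?_
    split_ifs <;> simp
  simp only [e]
  rw [sum_comm]
  refine sum_congr rfl fun x hx => ?_
  rw [sum_comm]
  refine sum_congr rfl fun y _ => ?_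
  rw [sum_ite_eq, if_pos (hσ x hx)]
  simp only [eq_comm]

theorem conv_lower (B T : Finset ℤ) (hT : ∀ q ∈ B, ∀ t ∈ B, q + t ∈ T) (f : ℤ → ℂ) :
    (∑ q ∈ B, ‖f q‖ ^ 2) ^ 2 ≤ ∑ s ∈ T, ‖∑ q ∈ B with s - q ∈ B, f q * f (s - q)‖ ^ 2 := by
  set T' : Finset ℤ := insert 0 ((B ×ˢ B).image (fun x => x.1 - x.2)) with hT'
  have h1 := fiber_parseval (B ×ˢ B) T (fun x => x.1 + x.2)
    (fun x hx => hT _ (mem_product.1 hx).1 _ (mem_product.1 hx).2) (fun x => f x.1 * f x.2)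
  have h2 := fiber_parseval (B ×ˢ B) T' (fun x => x.1 - x.2)
    (fun x hx => mem_insert_of_mem (mem_image_of_mem _ hx)) (fun x => f x.1 * conj (f x.2))
  have h3 : (∑ x ∈ B ×ˢ B, ∑ y ∈ B ×ˢ B, if x.1 + x.2 = y.1 + y.2 then
        (f x.1 * f x.2) * conj (f y.1 * f y.2) else 0)
      = ∑ x ∈ B ×ˢ B, ∑ y ∈ B ×ˢ B, if x.1 - x.2 = y.1 - y.2 then
        (f x.1 * conj (f x.2)) * conj (f y.1 * conj (f y.2)) else 0 := by
    simp only [sum_product]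
    refine sum_congr rfl fun a _ => ?_
    rw [sum_comm]
    refine sum_congr rfl fun c _ => ?_
    rw [sum_comm]
    refine sum_congr rfl fun d _ => sum_congr rfl fun b _ => ?_
    have : (a + b = c + d) ↔ (a - c = d - b) := by constructor <;> intro h <;> linarith
    simp only [this, map_mul, Complex.conj_conj]
    split_ifs
    · ring
    · rfl
  rw [h3, ← h2, Complex.ofReal_inj] at h1
  have e1 : ∀ s, ∑ x ∈ B ×ˢ B with x.1 + x.2 = s, f x.1 * f x.2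
      = ∑ q ∈ B with s - q ∈ B, f q * f (s - q) := by
    intro s
    rw [sum_filter, sum_filter, sum_product]
    refine sum_congr rfl fun q _ => ?_
    have : ∀ t, (q + t = s) ↔ (s - q = t) := fun t => by constructor <;> intro h <;> linarith
    simp only [this]
    rw [sum_ite_eq]
  simp only [e1] at h1
  rw [h1]
  have e2 : ∑ x ∈ B ×ˢ B with x.1 - x.2 = 0, f x.1 * conj (f x.2)
      = ((∑ q ∈ B, ‖f q‖ ^ 2 : ℝ) : ℂ) := by
    rw [sum_filter, sum_product]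
    push_cast
    refine sum_congr rfl fun q hq => ?_
    simp only [sub_eq_zero]
    rw [sum_ite_eq, if_pos hq, Complex.mul_conj, Complex.normSq_eq_norm_sq]
    push_cast; rfl
  have := single_le_sum
    (f := fun s => ‖∑ x ∈ B ×ˢ B with x.1 - x.2 = s, f x.1 * conj (f x.2)‖ ^ 2)
    (s := T') (fun s _ => by positivity) (mem_insert_self 0 _)
  refine le_trans (le_of_eq ?_) this
  rw [e2, Complex.norm_real, Real.norm_eq_abs, sq_abs]

theorem shift_sum (J : Finset ℤ) (φ g : ℤ → ℂ) (d : ℤ) (h0 : ∀ j ∉ J, φ j = 0)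
    (hd : ∀ j ∉ J, φ (j - d) = 0) :
    ∑ j ∈ J, φ j * g (j + d) = ∑ j ∈ J, φ (j - d) * g j := by
  have h1 : HasSum (fun j => φ j * g (j + d)) (∑ j ∈ J, φ j * g (j + d)) :=
    hasSum_sum_of_ne_finset_zero fun j hj => by rw [h0 j hj, zero_mul]
  have h2 : HasSum (fun j => φ (j - d) * g j) (∑ j ∈ J, φ (j - d) * g j) :=
    hasSum_sum_of_ne_finset_zero fun j hj => by rw [hd j hj, zero_mul]
  have h3 := (Equiv.addRight d).hasSum_iff.2 h2
  refine h1.unique ?_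
  convert h3 using 2 with j
  simp

theorem sbp (J : Finset ℤ) (φ g : ℤ → ℂ) (h0 : ∀ j ∉ J, φ j = 0)
    (h1 : ∀ j ∉ J, φ (j + 1) = 0) (h2 : ∀ j ∉ J, φ (j - 1) = 0) :
    ∑ j ∈ J, φ j * (g (j + 1) - 2 * g j + g (j - 1))
      = ∑ j ∈ J, (φ (j + 1) - 2 * φ j + φ (j - 1)) * g j := by
  have a1 := shift_sum J φ g 1 h0 h2
  have a2 := shift_sum J φ g (-1) h0 (by simpa using h1)
  simp only [sub_neg_eq_add, ← sub_eq_add_neg] at a2
  simp only [mul_add, mul_sub, add_mul, sub_mul, sum_add_distrib, sum_sub_distrib]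
  rw [a1, a2]
  have : ∑ j ∈ J, φ j * (2 * g j) = ∑ j ∈ J, 2 * φ j * g j :=
    sum_congr rfl fun j _ => by ring
  rw [this]; ring

theorem abs_second_diff_mul (x y z x' y' z' a0 a1 a2 : ℤ) (hy : |y| ≤ a0) (hy' : |y'| ≤ a0)
    (h1 : |z - y| ≤ a1) (h2 : |y - x| ≤ a1) (h1' : |z' - y'| ≤ a1) (h2' : |y' - x'| ≤ a1)
    (h3 : |z - 2 * y + x| ≤ a2) (h3' : |z' - 2 * y' + x'| ≤ a2) :
    |z * z' - 2 * (y * y') + x * x'| ≤ 2 * a0 * a2 + 2 * a1 ^ 2 := by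
  have e : z * z' - 2 * (y * y') + x * x' = y * (z' - 2 * y' + x') + y' * (z - 2 * y + x)
      + (z - y) * (z' - y') + (y - x) * (y' - x') := by ring
  have m : ∀ p q P Q : ℤ, |p| ≤ P → |q| ≤ Q → |p * q| ≤ P * Q := fun p q P Q hp hq => by
    rw [abs_mul]; exact mul_le_mul hp hq (abs_nonneg _) ((abs_nonneg _).trans hp)
  have b1 := abs_le.1 (m _ _ _ _ hy h3')
  have b2 := abs_le.1 (m _ _ _ _ hy' h3)
  have b3 := abs_le.1 (m _ _ _ _ h1 h1')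
  have b4 := abs_le.1 (m _ _ _ _ h2 h2')
  rw [e, abs_le]
  constructor <;> nlinarith [b1.1, b1.2, b2.1, b2.2, b3.1, b3.2, b4.1, b4.2]

/-- truncated parabola -/
def par (N q : ℤ) : ℤ := if N ≤ q ∧ q ≤ 5 * N then (q - N) * (5 * N - q) else 0

theorem par_zero (N q : ℤ) (h : q ≤ N ∨ 5 * N ≤ q) : par N q = 0 := by
  unfold par
  split_ifs with h1
  · rcases h with h | h
    · have : q = N := by omega
      rw [this]; ring
    · have : q = 5 * N := by omega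
      rw [this]; ring
  · rfl

theorem par_nonneg (N q : ℤ) : 0 ≤ par N q := by
  unfold par
  split_ifs with h1
  · exact mul_nonneg (by omega) (by omega)
  · rfl

theorem par_le (N q : ℤ) : par N q ≤ 4 * N ^ 2 := by
  unfold par
  split_ifs with h1
  · nlinarith [sq_nonneg (q - 3 * N)]
  · positivity

theorem par_diff (N q : ℤ) (hN : 1 ≤ N) : |par N (q + 1) - par N q| ≤ 4 * N := by
  by_cases h : N ≤ q ∧ q + 1 ≤ 5 * N
  · unfold par
    rw [if_pos (by omega), if_pos (by omega)]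
    have : (q + 1 - N) * (5 * N - (q + 1)) - (q - N) * (5 * N - q) = 6 * N - 2 * q - 1 := by ring
    rw [this, abs_le]; omega
  · rw [par_zero N (q + 1) (by omega), par_zero N q (by omega)]
    simp; omega

theorem par_diff2 (N q : ℤ) :
    |par N q * (par N (q + 1) - 2 * par N q + par N (q - 1))| ≤ 8 * N ^ 2 := by
  by_cases h : N < q ∧ q < 5 * N
  · have : par N (q + 1) - 2 * par N q + par N (q - 1) = -2 := by
      unfold par
      rw [if_pos (by omega), if_pos (by omega), if_pos (by omega)]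
      ring
    rw [this, abs_le]
    have := par_nonneg N q
    have := par_le N q
    constructor <;> nlinarith
  · rw [par_zero N q (by omega)]
    simp; positivity

/-- the bump -/
def bump (N q : ℤ) : ℤ := par N q ^ 2

theorem bump_zero (N q : ℤ) (h : q ≤ N ∨ 5 * N ≤ q) : bump N q = 0 := by
  rw [bump, par_zero N q h]; rfl

theorem bump_le (N q : ℤ) : |bump N q| ≤ 16 * N ^ 4 := by
  rw [bump, abs_of_nonneg (sq_nonneg _)]
  have h1 := par_nonneg N q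
  have h2 := par_le N q
  calc par N q ^ 2 ≤ (4 * N ^ 2) ^ 2 := pow_le_pow_left₀ h1 h2 2
    _ = 16 * N ^ 4 := by ring

theorem bump_diff (N q : ℤ) (hN : 1 ≤ N) : |bump N (q + 1) - bump N q| ≤ 32 * N ^ 3 := by
  have e : bump N (q + 1) - bump N q
      = (par N (q + 1) - par N q) * (par N (q + 1) + par N q) := by
    unfold bump; ring
  have h1 := par_nonneg N q
  have h2 := par_le N q
  have h3 := par_nonneg N (q + 1)
  have h4 := par_le N (q + 1)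
  rw [e, abs_mul, abs_of_nonneg (add_nonneg h3 h1)]
  calc _ ≤ (4 * N) * (8 * N ^ 2) :=
        mul_le_mul (par_diff N q hN) (by linarith) (by linarith) (by linarith)
    _ = 32 * N ^ 3 := by ring

theorem bump_diff2 (N q : ℤ) (hN : 1 ≤ N) :
    |bump N (q + 1) - 2 * bump N q + bump N (q - 1)| ≤ 48 * N ^ 2 := by
  have e : bump N (q + 1) - 2 * bump N q + bump N (q - 1)
      = 2 * (par N q * (par N (q + 1) - 2 * par N q + par N (q - 1)))
        + (par N (q + 1) - par N q) ^ 2 + (par N (q - 1 + 1) - par N (q - 1)) ^ 2 := by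
    rw [sub_add_cancel]; unfold bump; ring
  have h1 := abs_le.1 (par_diff2 N q)
  have h2 : (par N (q + 1) - par N q) ^ 2 ≤ (4 * N) ^ 2 := sq_le_sq' (abs_le.1 (par_diff N q hN)).1
    (abs_le.1 (par_diff N q hN)).2
  have h3 : (par N (q - 1 + 1) - par N (q - 1)) ^ 2 ≤ (4 * N) ^ 2 :=
    sq_le_sq' (abs_le.1 (par_diff N (q - 1) hN)).1 (abs_le.1 (par_diff N (q - 1) hN)).2
  rw [e, abs_le]
  constructor <;> nlinarith [h1.1, h1.2, sq_nonneg (par N (q + 1) - par N q),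
    sq_nonneg (par N (q - 1 + 1) - par N (q - 1)), sq_nonneg N]

theorem bump_ge (N q : ℤ) (hN : 1 ≤ N) (h1 : 2 * N ≤ q) (h2 : q < 4 * N) : N ^ 4 ≤ bump N q := by
  have : N ^ 2 ≤ par N q := by
    unfold par
    rw [if_pos (by omega)]
    nlinarith
  calc N ^ 4 = (N ^ 2) ^ 2 := by ring
    _ ≤ par N q ^ 2 := pow_le_pow_left₀ (by positivity) this 2

theorem phi_diff2 (N s j : ℤ) (hN : 1 ≤ N) :
    |bump N (j + 1) * bump N (s - (j + 1)) - 2 * (bump N j * bump N (s - j))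
      + bump N (j - 1) * bump N (s - (j - 1))| ≤ 4000 * N ^ 6 := by
  have e1 : s - (j + 1) = (s - j) - 1 := by ring
  have e2 : s - (j - 1) = (s - j) + 1 := by ring
  rw [e1, e2]
  have := abs_second_diff_mul (bump N (j - 1)) (bump N j) (bump N (j + 1))
    (bump N (s - j + 1)) (bump N (s - j)) (bump N (s - j - 1)) (16 * N ^ 4) (32 * N ^ 3)
    (48 * N ^ 2) (bump_le _ _) (bump_le _ _) (bump_diff _ _ hN)
    (by simpa using bump_diff N (j - 1) hN)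
    (by rw [abs_sub_comm]; simpa using bump_diff N (s - j - 1) hN)
    (by rw [abs_sub_comm]; exact bump_diff N (s - j) hN)
    (bump_diff2 _ _ hN)
    (by have := bump_diff2 N (s - j) hN
        rwa [show bump N (s - j + 1) - 2 * bump N (s - j) + bump N (s - j - 1)
          = bump N (s - j - 1) - 2 * bump N (s - j) + bump N (s - j + 1) by ring] at this)
  refine this.trans ?_
  have : 0 ≤ N ^ 6 := by positivity
  nlinarith

theorem block_s (a : ℤ → ℂ) (G : ℤ → ℤ → ℂ)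
    (hG : ∀ i j, G (i - 1) (j + 1) - 2 * G i j + G (i + 1) (j - 1) = 2 * (a j * a i))
    (N : ℤ) (hN : 1 ≤ N) (s : ℤ) :
    ‖∑ q ∈ Icc N (5 * N) with s - q ∈ Icc N (5 * N),
        ((bump N q : ℂ) * a q) * ((bump N (s - q) : ℂ) * a (s - q))‖ ^ 2
      ≤ 20000000 * (N : ℝ) ^ 11 * ∑ j ∈ Icc N (5 * N) with s - j ∈ Icc N (5 * N),
        (((s - j : ℤ) : ℝ) * j) * ‖G (s - j) j‖ ^ 2 := by
  set J := (Icc N (5 * N)).filter (fun q => s - q ∈ Icc N (5 * N)) with hJ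
  set φ : ℤ → ℂ := fun q => ((bump N q * bump N (s - q) : ℤ) : ℂ) with hφ
  set g : ℤ → ℂ := fun j => G (s - j) j with hg
  have hN' : (1 : ℝ) ≤ N := by exact_mod_cast hN
  have hz : ∀ j ∉ J, ∀ d : ℤ, -1 ≤ d → d ≤ 1 → φ (j + d) = 0 := by
    intro j hj d h1 h2
    rw [hJ, mem_filter, mem_Icc, mem_Icc] at hj
    rw [hφ]; simp only
    by_cases hc : j + d ≤ N ∨ 5 * N ≤ j + d
    · rw [bump_zero N _ hc]; simp
    · rw [bump_zero N (s - (j + d)) (by omega)]; simp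
  have key := sbp J φ g (fun j hj => by simpa using hz j hj 0 (by norm_num) (by norm_num))
    (fun j hj => hz j hj 1 (by norm_num) (by norm_num))
    (fun j hj => by simpa [sub_eq_add_neg] using hz j hj (-1) (by norm_num) (by norm_num))
  have e1 : ∑ j ∈ J, φ j * (g (j + 1) - 2 * g j + g (j - 1))
      = 2 * ∑ q ∈ J, ((bump N q : ℂ) * a q) * ((bump N (s - q) : ℂ) * a (s - q)) := by
    rw [mul_sum]
    refine sum_congr rfl fun j _ => ?_
    have := hG (s - j) j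
    rw [hg, hφ]; simp only
    rw [show s - (j + 1) = s - j - 1 by ring, show s - (j - 1) = s - j + 1 by ring, this]
    push_cast; ring
  have e2 : ‖∑ j ∈ J, (φ (j + 1) - 2 * φ j + φ (j - 1)) * g j‖
      ≤ 4000 * (N : ℝ) ^ 6 * ∑ j ∈ J, ‖g j‖ := by
    rw [mul_sum]
    refine (norm_sum_le _ _).trans (sum_le_sum fun j _ => ?_)
    rw [norm_mul]
    refine mul_le_mul_of_nonneg_right ?_ (norm_nonneg _)
    have h := phi_diff2 N s j hN
    have e : φ (j + 1) - 2 * φ j + φ (j - 1)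
        = ((bump N (j + 1) * bump N (s - (j + 1)) - 2 * (bump N j * bump N (s - j))
          + bump N (j - 1) * bump N (s - (j - 1)) : ℤ) : ℂ) := by
      rw [hφ]; push_cast; ring
    rw [e, Complex.norm_intCast]
    exact_mod_cast h
  rw [← key, e1, norm_mul] at e2
  have hcard : (J.card : ℝ) ≤ 5 * N := by
    have h1 : J.card ≤ (Icc N (5 * N)).card := card_filter_le _ _
    rw [Int.card_Icc] at h1
    have h2 : (J.card : ℤ) ≤ 5 * N := by omega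
    exact_mod_cast h2
  have e3 : (∑ j ∈ J, ‖g j‖) ^ 2 ≤ 5 * N * ∑ j ∈ J, ‖g j‖ ^ 2 :=
    sq_sum_le_card_mul_sum_sq.trans
      (mul_le_mul_of_nonneg_right hcard (sum_nonneg fun j _ => by positivity))
  have e4 : (N : ℝ) ^ 2 * ∑ j ∈ J, ‖g j‖ ^ 2
      ≤ ∑ j ∈ J, (((s - j : ℤ) : ℝ) * j) * ‖G (s - j) j‖ ^ 2 := by
    rw [mul_sum]
    refine sum_le_sum fun j hj => mul_le_mul_of_nonneg_right ?_ (by positivity)
    rw [hJ, mem_filter, mem_Icc, mem_Icc] at hj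
    have a1 : (N : ℝ) ≤ j := by exact_mod_cast hj.1.1
    have a2 : (N : ℝ) ≤ ((s - j : ℤ) : ℝ) := by exact_mod_cast hj.2.1
    nlinarith
  set c := ‖∑ q ∈ J, ((bump N q : ℂ) * a q) * ((bump N (s - q) : ℂ) * a (s - q))‖ with hc
  have hc0 : 0 ≤ c := norm_nonneg _
  have h2 : ‖(2 : ℂ)‖ = 2 := by simp
  rw [h2] at e2
  have e5 : (2 * c) ^ 2 ≤ (4000 * (N : ℝ) ^ 6 * ∑ j ∈ J, ‖g j‖) ^ 2 :=
    pow_le_pow_left₀ (by linarith) e2 2
  calc c ^ 2 = (2 * c) ^ 2 / 4 := by ring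
    _ ≤ (4000 * (N : ℝ) ^ 6 * ∑ j ∈ J, ‖g j‖) ^ 2 / 4 := by linarith
    _ = 4000000 * (N : ℝ) ^ 12 * (∑ j ∈ J, ‖g j‖) ^ 2 := by ring
    _ ≤ 4000000 * (N : ℝ) ^ 12 * (5 * N * ∑ j ∈ J, ‖g j‖ ^ 2) :=
        mul_le_mul_of_nonneg_left e3 (by positivity)
    _ = 20000000 * (N : ℝ) ^ 11 * ((N : ℝ) ^ 2 * ∑ j ∈ J, ‖g j‖ ^ 2) := by ring
    _ ≤ _ := mul_le_mul_of_nonneg_left e4 (by positivity)

theorem block (a : ℤ → ℂ) (G : ℤ → ℤ → ℂ)
    (hG : ∀ i j, G (i - 1) (j + 1) - 2 * G i j + G (i + 1) (j - 1) = 2 * (a j * a i))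
    (N : ℤ) (hN : 1 ≤ N) :
    (N : ℝ) ^ 5 * (∑ n ∈ Ico (2 * N) (4 * N), ‖a n‖ ^ 2) ^ 2
      ≤ 20000000 * ∑ j ∈ Icc N (5 * N), ∑ i ∈ Icc N (5 * N), ((i : ℝ) * j) * ‖G i j‖ ^ 2 := by
  have hN' : (1 : ℝ) ≤ N := by exact_mod_cast hN
  set B := Icc N (5 * N) with hB
  set T := Icc (2 * N) (10 * N) with hT
  have h1 := conv_lower B T (fun q hq t ht => by
    rw [hB, mem_Icc] at hq ht; rw [hT, mem_Icc]; omega) (fun q => (bump N q : ℂ) * a q)
  have h2 : ∑ s ∈ T, ‖∑ q ∈ B with s - q ∈ B,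
        ((bump N q : ℂ) * a q) * ((bump N (s - q) : ℂ) * a (s - q))‖ ^ 2
      ≤ 20000000 * (N : ℝ) ^ 11 * ∑ s ∈ T, ∑ j ∈ B with s - j ∈ B,
        (((s - j : ℤ) : ℝ) * j) * ‖G (s - j) j‖ ^ 2 := by
    rw [mul_sum]
    exact sum_le_sum fun s _ => block_s a G hG N hN s
  have h3 : ∑ s ∈ T, ∑ j ∈ B with s - j ∈ B, (((s - j : ℤ) : ℝ) * j) * ‖G (s - j) j‖ ^ 2
      = ∑ j ∈ B, ∑ i ∈ B, ((i : ℝ) * j) * ‖G i j‖ ^ 2 := by
    simp only [sum_filter]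
    rw [sum_comm]
    refine sum_congr rfl fun j hj => ?_
    rw [← sum_filter]
    refine sum_bij' (fun s _ => s - j) (fun i _ => i + j) ?_ ?_ ?_ ?_ ?_
    · intro s hs; exact (mem_filter.1 hs).2
    · intro i hi
      rw [mem_filter, add_sub_cancel_right]
      refine ⟨?_, hi⟩
      rw [hB, mem_Icc] at hi hj; rw [hT, mem_Icc]; omega
    · intro s _; ring
    · intro i _; ring
    · intro s _; rfl
  have h4 : (N : ℝ) ^ 8 * ∑ n ∈ Ico (2 * N) (4 * N), ‖a n‖ ^ 2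
      ≤ ∑ q ∈ B, ‖(bump N q : ℂ) * a q‖ ^ 2 := by
    rw [mul_sum]
    calc _ ≤ ∑ q ∈ Ico (2 * N) (4 * N), ‖(bump N q : ℂ) * a q‖ ^ 2 := by
          refine sum_le_sum fun q hq => ?_
          rw [mem_Ico] at hq
          rw [norm_mul, mul_pow, Complex.norm_intCast, sq_abs]
          refine mul_le_mul_of_nonneg_right ?_ (by positivity)
          have : ((N : ℝ)) ^ 4 ≤ (bump N q : ℝ) := by exact_mod_cast bump_ge N q hN hq.1 hq.2
          calc (N : ℝ) ^ 8 = ((N : ℝ) ^ 4) ^ 2 := by ring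
            _ ≤ _ := pow_le_pow_left₀ (by positivity) this 2
      _ ≤ _ := by
          refine sum_le_sum_of_subset_of_nonneg ?_ fun _ _ _ => by positivity
          intro q hq
          rw [mem_Ico] at hq; rw [hB, mem_Icc]; omega
  have hA : 0 ≤ ∑ n ∈ Ico (2 * N) (4 * N), ‖a n‖ ^ 2 := sum_nonneg fun _ _ => by positivity
  have h5 := pow_le_pow_left₀ (by positivity) h4 2
  rw [h3] at h2
  have h6 := h5.trans (h1.trans h2)
  have hpos : (0 : ℝ) < (N : ℝ) ^ 11 := by positivity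
  refine le_of_mul_le_mul_left ?_ hpos
  calc _ = ((N : ℝ) ^ 8 * ∑ n ∈ Ico (2 * N) (4 * N), ‖a n‖ ^ 2) ^ 2 := by ring
    _ ≤ _ := h6
    _ = _ := by ring

theorem sum_pow_le_pow_sum' (s : Finset ℤ) (x : ℤ → ℝ) (hx : ∀ i, 0 ≤ x i) (k : ℕ) (hk : 1 ≤ k) :
    ∑ i ∈ s, x i ^ k ≤ (∑ i ∈ s, x i) ^ k := by
  obtain ⟨m, rfl⟩ : ∃ m, k = m + 1 := ⟨k - 1, by omega⟩
  rw [pow_succ, mul_sum]
  refine sum_le_sum fun i hi => ?_
  rw [pow_succ]
  exact mul_le_mul_of_nonneg_right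
    (pow_le_pow_left₀ (hx i) (single_le_sum (fun i _ => hx i) hi) m) (hx i)

theorem block_pow (a : ℤ → ℂ) (G : ℤ → ℤ → ℂ)
    (hG : ∀ i j, G (i - 1) (j + 1) - 2 * G i j + G (i + 1) (j - 1) = 2 * (a j * a i))
    (N : ℤ) (hN : 1 ≤ N) (ρ : ℤ → ℝ) (hρ0 : ∀ j, 0 ≤ ρ j)
    (hρ : ∀ j ∈ Icc N (5 * N), ∑ i ∈ Icc N (5 * N), ((i : ℝ) * j) * ‖G i j‖ ^ 2 ≤ ρ j ^ 2)
    (k : ℕ) (hk : 2 ≤ k) :
    ∑ n ∈ Ico (2 * N) (4 * N), (n : ℝ) ^ (2 * k + 1) * ‖a n‖ ^ (2 * k)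
      ≤ (4 ^ (2 * k + 1) * 10000 ^ k) * ∑ j ∈ Ico N (8 * N), ρ j ^ k := by
  have hN' : (1 : ℝ) ≤ N := by exact_mod_cast hN
  set A := ∑ n ∈ Ico (2 * N) (4 * N), ‖a n‖ ^ 2 with hA
  have hA0 : 0 ≤ A := sum_nonneg fun _ _ => by positivity
  have h1 := (block a G hG N hN).trans
    (mul_le_mul_of_nonneg_left (sum_le_sum hρ) (by norm_num))
  rw [← hA] at h1
  have h2 := pow_mean (Icc N (5 * N)) (fun _ => 1 / (5 * (N : ℝ))) ρ
    (fun _ _ => by positivity) (fun j _ => hρ0 j) (by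
      rw [sum_const, Int.card_Icc, nsmul_eq_mul, mul_one_div, div_le_one (by positivity)]
      have : (((5 * N + 1 - N).toNat : ℤ)) ≤ 5 * N := by omega
      exact_mod_cast this) ((N : ℝ) ^ 2 * A / 10000) (by positivity) (by
      rw [← mul_sum, one_div, ← div_eq_inv_mul, le_div_iff₀ (by positivity)]
      calc _ = ((N : ℝ) ^ 5 * A ^ 2) / 20000000 := by ring
        _ ≤ _ := by linarith) k hk
  rw [← mul_sum, one_div, ← div_eq_inv_mul, le_div_iff₀ (by positivity), div_pow,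
    div_mul_eq_mul_div, div_le_iff₀ (by positivity)] at h2
  have h3 : ∑ j ∈ Icc N (5 * N), ρ j ^ k ≤ ∑ j ∈ Ico N (8 * N), ρ j ^ k := by
    refine sum_le_sum_of_subset_of_nonneg ?_ fun j _ _ => pow_nonneg (hρ0 j) _
    intro q hq
    rw [mem_Icc] at hq; rw [mem_Ico]; omega
  have h4 : ∑ n ∈ Ico (2 * N) (4 * N), ‖a n‖ ^ (2 * k) ≤ A ^ k := by
    simp only [pow_mul]
    exact sum_pow_le_pow_sum' _ _ (fun _ => by positivity) k (by omega)
  have h5 : ∑ n ∈ Ico (2 * N) (4 * N), (n : ℝ) ^ (2 * k + 1) * ‖a n‖ ^ (2 * k)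
      ≤ (4 * (N : ℝ)) ^ (2 * k + 1) * ∑ n ∈ Ico (2 * N) (4 * N), ‖a n‖ ^ (2 * k) := by
    rw [mul_sum]
    refine sum_le_sum fun n hn => mul_le_mul_of_nonneg_right ?_ (by positivity)
    rw [mem_Ico] at hn
    have a1 : (0 : ℝ) ≤ n := by exact_mod_cast (by omega : (0 : ℤ) ≤ n)
    have a2 : (n : ℝ) ≤ 4 * N := by exact_mod_cast hn.2.le
    exact pow_le_pow_left₀ a1 a2 _
  have hAk : 0 ≤ A ^ k := by positivity
  calc _ ≤ (4 * (N : ℝ)) ^ (2 * k + 1) * A ^ k :=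
        h5.trans (mul_le_mul_of_nonneg_left h4 (by positivity))
    _ = 4 ^ (2 * k + 1) * (((N : ℝ) ^ 2 * A) ^ k * N) := by ring
    _ ≤ 4 ^ (2 * k + 1) * (((N : ℝ) ^ 2 * A) ^ k * (5 * N)) := by gcongr; linarith
    _ ≤ 4 ^ (2 * k + 1) * ((∑ j ∈ Icc N (5 * N), ρ j ^ k) * 10000 ^ k) := by gcongr
    _ ≤ 4 ^ (2 * k + 1) * ((∑ j ∈ Ico N (8 * N), ρ j ^ k) * 10000 ^ k) := by gcongr
    _ = _ := by ring

theorem sum_Ico_consec (f : ℤ → ℝ) (a b c : ℤ) (h1 : a ≤ b) (h2 : b ≤ c) :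
    ∑ i ∈ Ico a c, f i = ∑ i ∈ Ico a b, f i + ∑ i ∈ Ico b c, f i := by
  rw [← sum_union (Ico_disjoint_Ico_consecutive a b c), Ico_union_Ico_eq_Ico h1 h2]

theorem dyadic (l r : ℤ → ℝ) (hr : ∀ j, 0 ≤ r j) (C : ℝ) (hC : 0 ≤ C) (T : ℕ)
    (h : ∀ N : ℤ, 1 ≤ N → 8 * N ≤ 4 * 2 ^ T →
      ∑ n ∈ Ico (2 * N) (4 * N), l n ≤ C * ∑ j ∈ Ico N (8 * N), r j) :
    ∑ n ∈ Ico (2 : ℤ) (2 * 2 ^ T), l n ≤ 3 * C * ∑ j ∈ Ico (1 : ℤ) (4 * 2 ^ T), r j := by
  have key : ∀ t : ℕ, t ≤ T → ∑ n ∈ Ico (2 : ℤ) (2 * 2 ^ t), l n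
      ≤ C * (∑ j ∈ Ico (1 : ℤ) (2 ^ t), r j + ∑ j ∈ Ico (1 : ℤ) (2 * 2 ^ t), r j
        + ∑ j ∈ Ico (1 : ℤ) (4 * 2 ^ t), r j) := by
    intro t
    induction t with
    | zero =>
      intro _
      have : ∀ s : Finset ℤ, 0 ≤ ∑ j ∈ s, r j := fun s => sum_nonneg fun j _ => hr j
      simp only [pow_zero, mul_one, Ico_self, sum_empty]
      exact mul_nonneg hC (add_nonneg (add_nonneg le_rfl (this _)) (this _))
    | succ t ih =>
      intro ht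
      have ih' := ih (by omega)
      have hp : (1 : ℤ) ≤ 2 ^ t := one_le_pow₀ (by norm_num)
      have hle : (2 : ℤ) ^ (t + 1) ≤ 2 ^ T := pow_le_pow_right₀ (by norm_num) ht
      rw [pow_succ] at hle
      have hb := h (2 ^ t) hp (by linarith)
      rw [show (2 : ℤ) * 2 ^ (t + 1) = 4 * 2 ^ t by ring,
        show (4 : ℤ) * 2 ^ (t + 1) = 8 * 2 ^ t by ring,
        show (2 : ℤ) ^ (t + 1) = 2 * 2 ^ t by ring,
        sum_Ico_consec l 2 (2 * 2 ^ t) (4 * 2 ^ t) (by linarith) (by linarith),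
        sum_Ico_consec r 1 (2 ^ t) (8 * 2 ^ t) (by linarith) (by linarith)]
      nlinarith
  have hp : (1 : ℤ) ≤ 2 ^ T := one_le_pow₀ (by norm_num)
  have m : ∀ M : ℤ, M ≤ 4 * 2 ^ T →
      ∑ j ∈ Ico (1 : ℤ) M, r j ≤ ∑ j ∈ Ico (1 : ℤ) (4 * 2 ^ T), r j := fun M hM =>
    sum_le_sum_of_subset_of_nonneg (Ico_subset_Ico_right hM) fun j _ _ => hr j
  have m1 := m (2 ^ T) (by linarith)
  have m2 := m (2 * 2 ^ T) (by linarith)
  refine (key T le_rfl).trans ?_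
  rw [mul_comm 3 C, mul_assoc]
  exact mul_le_mul_of_nonneg_left (by linarith) hC

/-- The elementary half of the proof. -/
theorem elementary (a : ℤ → ℂ) (G : ℤ → ℤ → ℂ)
    (hG : ∀ i j, G (i - 1) (j + 1) - 2 * G i j + G (i + 1) (j - 1) = 2 * (a j * a i))
    (k : ℕ) (hk : 2 ≤ k) (T : ℕ) :
    ∑ n ∈ Ico (2 : ℤ) (2 * 2 ^ T), (n : ℝ) ^ (2 * k + 1) * ‖a n‖ ^ (2 * k)
      ≤ 3 * (4 ^ (2 * k + 1) * 10000 ^ k) * ∑ j ∈ Ico (1 : ℤ) (4 * 2 ^ T),
        √(∑ i ∈ Ico (1 : ℤ) (4 * 2 ^ T), ((i : ℝ) * j) * ‖G i j‖ ^ 2) ^ k := by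
  refine dyadic _ (fun j => √(∑ i ∈ Ico (1 : ℤ) (4 * 2 ^ T), ((i : ℝ) * j) * ‖G i j‖ ^ 2) ^ k)
    (fun j => by positivity) _ (by positivity) T ?_
  intro N hN hNT
  refine block_pow a G hG N hN _ (fun j => Real.sqrt_nonneg _) ?_ k hk
  intro j hj
  rw [mem_Icc] at hj
  have hj0 : (0 : ℝ) ≤ j := by exact_mod_cast (by omega : (0 : ℤ) ≤ j)
  have nn : ∀ i ∈ Ico (1 : ℤ) (4 * 2 ^ T), 0 ≤ ((i : ℝ) * j) * ‖G i j‖ ^ 2 := by
    intro i hi
    rw [mem_Ico] at hi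
    have hi0 : (0 : ℝ) ≤ i := by exact_mod_cast (by omega : (0 : ℤ) ≤ i)
    positivity
  rw [Real.sq_sqrt (sum_nonneg nn)]
  refine sum_le_sum_of_subset_of_nonneg ?_ fun i hi _ => nn i hi
  intro q hq
  rw [mem_Icc] at hq; rw [mem_Ico]; omega

end Pool.Agent.P.MP_2eaf66_an
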