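import Mathlib
import Pool.Agent.P.MP_2eaf66_an.Defs

set_option autoImplicit false

namespace Pool.Agent.P.MP_2eaf66_an

open scoped ComplexConjugate
open Finset

theorem coeff_neg (a : ℝ → ℝ) (n : ℤ) : coeff a (-n) = conj (coeff a n) := by
  unfold coeff
  have hpi : (0 : ℝ) ≤ 2 * Real.pi := by positivity
  rw [map_mul, intervalIntegral.integral_of_le hpi, intervalIntegral.integral_of_le hpi,
    ← integral_conj]
  congr 1
  · simp [map_ofNat]
  · congr 1; ext θ
    rw [map_mul, Complex.conj_ofReal, ← Complex.exp_conj]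
    simp

theorem coeff_bound (a : ℝ → ℝ) : ∃ C : ℝ, ∀ n : ℤ, ‖coeff a n‖ ≤ C := by
  refine ⟨‖(1 / (2 * Real.pi) : ℂ)‖ * ∫ θ in (0 : ℝ)..(2 * Real.pi), ‖a θ‖, fun n => ?_⟩
  unfold coeff
  have hpi : (0 : ℝ) ≤ 2 * Real.pi := by positivity
  rw [norm_mul]
  refine mul_le_mul_of_nonneg_left ?_ (norm_nonneg _)
  refine (intervalIntegral.norm_integral_le_integral_norm hpi).trans (le_of_eq ?_)
  congr 1; ext θ
  rw [norm_mul, Complex.norm_real]
  have : (-((n : ℂ) * θ * Complex.I)) = ((-(n * θ) : ℝ) : ℂ) * Complex.I := by push_cast; ring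
  rw [this, Complex.norm_exp_ofReal_mul_I, mul_one]

theorem coeff_deriv (a : ℝ → ℝ) (ha : ContDiff ℝ (⊤ : ℕ∞) a)
    (hp : Function.Periodic a (2 * Real.pi)) (n : ℤ) :
    coeff (deriv a) n = n * Complex.I * coeff a n := by
  have hd : Differentiable ℝ a := ha.differentiable (by simp)
  have hc : Continuous (deriv a) := ha.continuous_deriv (by simp)
  have h1 : ∀ x : ℝ, HasDerivAt (fun θ : ℝ => (a θ : ℂ)) ((deriv a x : ℝ) : ℂ) x := fun x =>
    (hd x).hasDerivAt.ofReal_comp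
  have h2 : ∀ x : ℝ, HasDerivAt (fun θ : ℝ => Complex.exp (-(n * θ * Complex.I)))
      (Complex.exp (-(n * x * Complex.I)) * (-(n * Complex.I))) x := by
    intro x
    have : HasDerivAt (fun θ : ℝ => -((n : ℂ) * θ * Complex.I)) (-(n * Complex.I)) x := by
      have := (((hasDerivAt_id x).ofReal_comp.const_mul (n : ℂ)).mul_const Complex.I).neg
      exact this.congr_deriv (by simp)
    exact this.cexp
  have key := intervalIntegral.integral_mul_deriv_eq_deriv_mul (a := 0) (b := 2 * Real.pi)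
    (u := fun θ : ℝ => (a θ : ℂ)) (v := fun θ : ℝ => Complex.exp (-(n * θ * Complex.I)))
    (fun x _ => h1 x) (fun x _ => h2 x)
    (Continuous.intervalIntegrable (by fun_prop) _ _)
    (Continuous.intervalIntegrable (by fun_prop) _ _)
  have e0 : a (2 * Real.pi) = a 0 := by simpa using hp 0
  have e1 : Complex.exp (-((n : ℂ) * ((2 * Real.pi : ℝ) : ℂ) * Complex.I)) = 1 := by
    have := Complex.exp_int_mul_two_pi_mul_I (-n)
    rw [← this]; congr 1; push_cast; ring
  simp only [e0, e1] at key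
  simp only [Complex.ofReal_zero, mul_zero, zero_mul, neg_zero, Complex.exp_zero, sub_self,
    zero_sub] at key
  have e2 : ∫ θ in (0 : ℝ)..(2 * Real.pi),
      (a θ : ℂ) * (Complex.exp (-(n * θ * Complex.I)) * (-(n * Complex.I)))
      = -(n * Complex.I) *
        ∫ θ in (0 : ℝ)..(2 * Real.pi), (a θ : ℂ) * Complex.exp (-(n * θ * Complex.I)) := by
    rw [← intervalIntegral.integral_const_mul]
    congr 1; ext θ; ring
  rw [e2] at key
  unfold coeff
  linear_combination (1 / (2 * Real.pi) : ℂ) * key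

theorem coeff_decay (p : ℕ) : ∀ (a : ℝ → ℝ), ContDiff ℝ (⊤ : ℕ∞) a →
    Function.Periodic a (2 * Real.pi) → ∃ C : ℝ, ∀ n : ℤ, |(n : ℝ)| ^ p * ‖coeff a n‖ ≤ C := by
  induction p with
  | zero =>
    intro a _ _
    simpa using coeff_bound a
  | succ p ih =>
    intro a ha hp
    have ha' : ContDiff ℝ (⊤ : ℕ∞) (deriv a) := (contDiff_infty_iff_deriv.1 ha).2
    have hp' : Function.Periodic (deriv a) (2 * Real.pi) := by
      intro x
      have : (fun y => a (y + 2 * Real.pi)) = a := funext hp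
      rw [← deriv_comp_add_const, this]
    obtain ⟨C, hC⟩ := ih (deriv a) ha' hp'
    refine ⟨C, fun n => ?_⟩
    have := hC n
    rw [coeff_deriv a ha hp, norm_mul, norm_mul, Complex.norm_I, Complex.norm_intCast] at this
    calc _ = |(n : ℝ)| ^ p * (|(n : ℝ)| * 1 * ‖coeff a n‖) := by ring
      _ ≤ C := this

theorem summable_inv_sq : Summable (fun n : ℤ => 1 / (1 + |(n : ℝ)|) ^ 2) := by
  have h : Summable (fun n : ℕ => 1 / (1 + (n : ℝ)) ^ 2) := by
    have := (summable_nat_add_iff 1).2 (Real.summable_one_div_nat_pow.2 (by norm_num : 1 < 2))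
    refine this.congr fun n => ?_
    push_cast; rw [add_comm]
  refine Summable.of_nat_of_neg ?_ ?_ <;> simpa using h

theorem coeff_summable (a : ℝ → ℝ) (ha : ContDiff ℝ (⊤ : ℕ∞) a)
    (hp : Function.Periodic a (2 * Real.pi)) (p : ℕ) :
    Summable (fun n : ℤ => (1 + |(n : ℝ)|) ^ p * ‖coeff a n‖) := by
  obtain ⟨C0, h0⟩ := coeff_decay 0 a ha hp
  obtain ⟨C1, h1⟩ := coeff_decay (p + 2) a ha hp
  refine Summable.of_nonneg_of_le (fun n => by positivity) (fun n => ?_)
    (summable_inv_sq.mul_left (2 ^ (p + 1) * (C0 + C1)))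
  rw [mul_one_div, le_div_iff₀ (by positivity)]
  have h2 : (1 + |(n : ℝ)|) ^ (p + 2) ≤ 2 ^ (p + 1) * (1 ^ (p + 2) + |(n : ℝ)| ^ (p + 2)) :=
    add_pow_le zero_le_one (abs_nonneg _) (p + 2)
  have a0 := h0 n
  have a1 := h1 n
  rw [pow_zero, one_mul] at a0
  rw [one_pow] at h2
  calc _ = (1 + |(n : ℝ)|) ^ (p + 2) * ‖coeff a n‖ := by ring
    _ ≤ 2 ^ (p + 1) * (1 + |(n : ℝ)| ^ (p + 2)) * ‖coeff a n‖ :=
        mul_le_mul_of_nonneg_right h2 (norm_nonneg _)
    _ = 2 ^ (p + 1) * (‖coeff a n‖ + |(n : ℝ)| ^ (p + 2) * ‖coeff a n‖) := by ring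
    _ ≤ _ := by gcongr

end Pool.Agent.P.MP_2eaf66_an
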