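import Mathlib
import Pool.Agent.P.MP_2eaf66_an.Defs

set_option autoImplicit false

namespace Pool.Agent.P.MP_2eaf66_an

open scoped ComplexConjugate
open Finset

theorem pow_path {ι : Type} [Fintype ι] [DecidableEq ι] (A : Matrix ι ι ℂ) (r : ℕ) :
    ∀ B : ι → ι → ℂ, ∑ x, ∑ y, (A ^ r) x y * B x y
      = ∑ p : Fin (r + 1) → ι,
          (∏ i : Fin r, A (p i.castSucc) (p i.succ)) * B (p 0) (p (Fin.last r)) := by
  induction r with
  | zero =>
    intro B
    rw [← (Equiv.funUnique (Fin 1) ι).symm.sum_comp]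
    simp [Matrix.one_apply]
  | succ r ih =>
    intro B
    have e1 : ∑ x, ∑ y, (A ^ (r + 1)) x y * B x y
        = ∑ x, ∑ z, (A ^ r) x z * ∑ y, A z y * B x y := by
      refine sum_congr rfl fun x _ => ?_
      simp only [pow_succ, Matrix.mul_apply, sum_mul, mul_sum]
      rw [sum_comm]
      exact sum_congr rfl fun z _ => sum_congr rfl fun y _ => by ring
    rw [e1, ih (fun x z => ∑ y, A z y * B x y),
      ← (Fin.snocEquiv (fun _ : Fin (r + 1 + 1) => ι)).sum_comp, Fintype.sum_prod_type, sum_comm]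
    refine sum_congr rfl fun p _ => ?_
    rw [mul_sum]
    refine sum_congr rfl fun y _ => ?_
    rw [Fin.prod_univ_castSucc]
    simp only [Fin.snocEquiv_apply, Fin.succ_castSucc, Fin.snoc_castSucc, Fin.succ_last,
      Fin.snoc_last]
    rw [show (0 : Fin (r + 1 + 1)) = (0 : Fin (r + 1)).castSucc from rfl, Fin.snoc_castSucc]
    ring

theorem trace_pow_path {ι : Type} [Fintype ι] [DecidableEq ι] (A : Matrix ι ι ℂ) (r : ℕ) :
    (A ^ (r + 1)).trace = ∑ p : Fin (r + 1) → ι, ∏ i, A (p i) (p (i + 1)) := by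
  have := pow_path A r (fun x y => A y x)
  rw [pow_succ, Matrix.trace]
  simp only [Matrix.diag_apply, Matrix.mul_apply]
  rw [this]
  refine sum_congr rfl fun p _ => ?_
  rw [Fin.prod_univ_castSucc]
  simp only [Fin.coeSucc_eq_succ, Fin.last_add_one]

theorem psum_succ {r : ℕ} (m : Fin (r + 1) → ℤ) (i : Fin r) :
    ∑ j ∈ Iio i.succ, m j = ∑ j ∈ Iio i.castSucc, m j + m i.castSucc := by
  have : Iio i.succ = insert i.castSucc (Iio i.castSucc) := by
    ext j
    simp only [mem_Iio, mem_insert, Fin.lt_def, Fin.ext_iff, Fin.val_succ, Fin.val_castSucc]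
    omega
  rw [this, sum_insert (by simp), add_comm]

theorem psum_step {r : ℕ} (m : Fin (r + 1) → ℤ) (hm : ∑ i, m i = 0) (i : Fin (r + 1)) :
    ∑ j ∈ Iio (i + 1), m j - ∑ j ∈ Iio i, m j = m i := by
  refine Fin.lastCases ?_ (fun i => ?_) i
  · have : (univ : Finset (Fin (r + 1))) = insert (Fin.last r) (Iio (Fin.last r)) := by
      ext j
      simp only [mem_univ, mem_Iio, mem_insert, Fin.lt_def, Fin.ext_iff, Fin.val_last, true_iff]
      omega
    rw [this, sum_insert (by simp)] at hm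
    rw [Fin.last_add_one]
    have h0 : Iio (0 : Fin (r + 1)) = ∅ := by ext j; simp
    rw [h0, sum_empty]; linarith
  · rw [Fin.coeSucc_eq_succ, psum_succ]; ring

/-- closed paths versus increments and starting point -/
def pathEquiv (r : ℕ) : ({m : Fin (r + 1) → ℤ // ∑ i, m i = 0} × ℤ) ≃ (Fin (r + 1) → ℤ) where
  toFun x := fun i => x.2 + ∑ j ∈ Iio i, x.1.1 j
  invFun p := (⟨fun i => p (i + 1) - p i, by
    rw [sum_sub_distrib, sub_eq_zero]; exact Equiv.sum_comp (Equiv.addRight (1 : Fin (r + 1))) p⟩, p 0)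
  left_inv := by
    rintro ⟨⟨m, hm⟩, n⟩
    have h0 : Iio (0 : Fin (r + 1)) = ∅ := by ext j; simp
    refine Prod.ext (Subtype.ext ?_) ?_
    · ext i
      have := psum_step m hm i
      simp only; linarith
    · simp [h0]
  right_inv := by
    intro p
    ext i
    simp only
    have h0 : Iio (0 : Fin (r + 1)) = ∅ := by ext j; simp
    refine Fin.induction ?_ (fun i ih => ?_) i
    · simp [h0]
    · rw [psum_succ, Fin.coeSucc_eq_succ]; linarith

/-- the weight of a closed path -/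
noncomputable def pathW {r : ℕ} (b : ℤ → ℂ) (p : Fin (r + 1) → ℤ) : ℂ :=
  ((|∏ i, p i| - ∏ i, p i : ℤ) : ℂ) * ∏ i, b (p (i + 1) - p i)

theorem pathW_equiv {r : ℕ} (b : ℤ → ℂ) (x : {m : Fin (r + 1) → ℤ // ∑ i, m i = 0} × ℤ) :
    pathW b (pathEquiv r x)
      = ((|fpoly x.1.1 x.2| - fpoly x.1.1 x.2 : ℤ) : ℂ) * ∏ i, b (x.1.1 i) := by
  unfold pathW fpoly pathEquiv
  simp only [Equiv.coe_fn_mk]
  congr 1
  refine prod_congr rfl fun i _ => ?_
  congr 1
  have := psum_step x.1.1 x.1.2 i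
  linarith

theorem abs_psum_le {L : ℕ} (m : Fin L → ℤ) (i : Fin L) : |∑ j ∈ Iio i, m j| ≤ ∑ j, |m j| :=
  (abs_sum_le_sum_abs _ _).trans
    (sum_le_sum_of_subset_of_nonneg (subset_univ _) fun _ _ _ => abs_nonneg _)

theorem fpoly_supp {L : ℕ} (hL : Even L) (m : Fin L → ℤ) (n : ℤ) (h : ∑ j, |m j| ≤ |n|) :
    |fpoly m n| - fpoly m n = 0 := by
  rw [sub_eq_zero, abs_eq_self]
  unfold fpoly
  rcases le_total 0 n with hn | hn
  · rw [abs_of_nonneg hn] at h
    refine prod_nonneg fun i _ => ?_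
    have := abs_le.1 (abs_psum_le m i)
    linarith [this.1]
  · rw [abs_of_nonpos hn] at h
    have e : ∏ i : Fin L, (n + ∑ j ∈ Iio i, m j)
        = (-1) ^ L * ∏ i : Fin L, (-(n + ∑ j ∈ Iio i, m j)) := by
      rw [prod_neg, ← mul_assoc, card_univ, Fintype.card_fin, ← mul_pow]; simp
    rw [e, hL.neg_one_pow, one_mul]
    refine prod_nonneg fun i _ => ?_
    have := abs_le.1 (abs_psum_le m i)
    linarith [this.2]

theorem one_add_sum_le {ι : Type} (s : Finset ι) (x : ι → ℝ) (hx : ∀ i, 0 ≤ x i) :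
    1 + ∑ i ∈ s, x i ≤ ∏ i ∈ s, (1 + x i) := by
  classical
  induction s using Finset.induction_on with
  | empty => simp
  | insert a s ha ih =>
    rw [sum_insert ha, prod_insert ha]
    have h1 : 0 ≤ ∑ i ∈ s, x i := sum_nonneg fun i _ => hx i
    have := hx a
    nlinarith

theorem fpoly_bound {L : ℕ} (hL : Even L) (m : Fin L → ℤ) (n : ℤ) :
    |((|fpoly m n| - fpoly m n : ℤ) : ℝ)|
      ≤ (2 * 2 ^ L) * (∏ i, (1 + |(m i : ℝ)|) ^ (L + 2)) * (1 / (1 + |(n : ℝ)|) ^ 2) := by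
  rcases le_or_gt (∑ j, |m j|) |n| with h | h
  · rw [fpoly_supp hL m n h]
    simp only [Int.cast_zero, abs_zero]; positivity
  · set M : ℝ := ∑ j, |(m j : ℝ)| with hM
    have hMz : ((∑ j, |m j| : ℤ) : ℝ) = M := by rw [hM]; push_cast; rfl
    have hn : |(n : ℝ)| ≤ M := by rw [← hMz]; exact_mod_cast h.le
    have hM0 : 0 ≤ M := (abs_nonneg _).trans hn
    have h1 : |(fpoly m n : ℝ)| ≤ (2 * (1 + M)) ^ L := by
      unfold fpoly
      push_cast
      rw [abs_prod]
      calc _ ≤ ∏ _i : Fin L, (2 * (1 + M)) := by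
            refine prod_le_prod (fun i _ => abs_nonneg _) fun i _ => ?_
            have : |∑ j ∈ Iio i, (m j : ℝ)| ≤ M := by
              rw [← hMz]; exact_mod_cast abs_psum_le m i
            have := abs_add_le (n : ℝ) (∑ j ∈ Iio i, (m j : ℝ))
            linarith
        _ = _ := by simp
    have h2 : 1 + M ≤ ∏ i, (1 + |(m i : ℝ)|) := one_add_sum_le _ _ fun i => abs_nonneg _
    have h3 : |((|fpoly m n| - fpoly m n : ℤ) : ℝ)| ≤ 2 * |(fpoly m n : ℝ)| := by
      push_cast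
      have := abs_sub |(fpoly m n : ℝ)| (fpoly m n : ℝ)
      rw [abs_abs] at this; linarith
    rw [mul_one_div, le_div_iff₀ (by positivity), prod_pow]
    calc _ ≤ (2 * (2 * (1 + M)) ^ L) * (1 + M) ^ 2 := by
          refine mul_le_mul (h3.trans (by linarith)) ?_ (by positivity) (by positivity)
          exact pow_le_pow_left₀ (by positivity) (by linarith) 2
      _ = (2 * 2 ^ L) * (1 + M) ^ (L + 2) := by rw [mul_pow]; ring
      _ ≤ _ := by gcongr

theorem summable_pi_prod {L : ℕ} (g : ℤ → ℝ) (hg0 : ∀ n, 0 ≤ g n) (hg : Summable g) :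
    Summable (fun m : Fin L → ℤ => ∏ i, g (m i)) := by
  refine summable_of_sum_le (c := (∑' n, g n) ^ L) (fun m => prod_nonneg fun i _ => hg0 _) ?_
  intro s
  set T : Finset ℤ := s.biUnion (fun m => univ.image m) with hT
  calc ∑ m ∈ s, ∏ i, g (m i) ≤ ∑ m ∈ Fintype.piFinset (fun _ : Fin L => T), ∏ i, g (m i) := by
        refine sum_le_sum_of_subset_of_nonneg ?_ fun m _ _ => prod_nonneg fun i _ => hg0 _
        intro m hm
        rw [Fintype.mem_piFinset]
        intro i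
        exact mem_biUnion.2 ⟨m, hm, mem_image_of_mem _ (mem_univ i)⟩
    _ = ∏ _i : Fin L, ∑ n ∈ T, g n := (prod_univ_sum _ (fun _ n => g n)).symm
    _ = (∑ n ∈ T, g n) ^ L := by simp
    _ ≤ _ := pow_le_pow_left₀ (sum_nonneg fun n _ => hg0 n) (hg.sum_le_tsum _ fun n _ => hg0 n) L

theorem pathW_summable {r : ℕ} (hr : Even (r + 1)) (b : ℤ → ℂ)
    (h2 : Summable (fun n : ℤ => 1 / (1 + |(n : ℝ)|) ^ 2))
    (hs : ∀ p : ℕ, Summable (fun n : ℤ => (1 + |(n : ℝ)|) ^ p * ‖b n‖)) :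
    Summable (pathW (r := r) b) := by
  rw [← (pathEquiv r).summable_iff]
  have h1 := (summable_pi_prod (L := r + 1) _ (fun n => by positivity) (hs (r + 1 + 2))).mul_of_nonneg
    h2 (fun m => prod_nonneg fun i _ => by positivity) (fun n => by positivity)
  have h3 := (h1.comp_injective
    (i := fun x : {m : Fin (r + 1) → ℤ // ∑ i, m i = 0} × ℤ => (x.1.1, x.2))
    (by
      rintro ⟨x, n⟩ ⟨y, n'⟩ h
      simp only [Prod.mk.injEq] at h
      exact Prod.ext (Subtype.ext h.1) h.2)).mul_left (2 * 2 ^ (r + 1))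
  refine Summable.of_norm_bounded h3 fun x => ?_
  simp only [Function.comp]
  rw [pathW_equiv, norm_mul, Complex.norm_intCast, norm_prod, prod_mul_distrib]
  refine (mul_le_mul_of_nonneg_right (fpoly_bound hr _ _)
    (prod_nonneg fun i _ => norm_nonneg _)).trans (le_of_eq ?_)
  ring

theorem hasSum_Ncoef {r : ℕ} (hr : Even (r + 1)) (b : ℤ → ℂ) (Z : ℂ)
    (hZ : HasSum (pathW (r := r) b) Z) :
    HasSum (fun m : {m : Fin (r + 1) → ℤ // ∑ i, m i = 0} =>
      (Ncoef m.1 : ℂ) * ∏ i, b (m.1 i)) Z := by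
  rw [← (pathEquiv r).hasSum_iff] at hZ
  refine hZ.prod_fiberwise fun m => ?_
  simp only [Function.comp, pathW_equiv]
  refine HasSum.mul_right _ ?_
  set M := ∑ j, |m.1 j| with hM
  have hz : ∀ n ∉ Icc (-M) M, |fpoly m.1 n| - fpoly m.1 n = 0 := by
    intro n hn
    refine fpoly_supp hr _ _ ?_
    rw [mem_Icc, ← abs_le, not_le] at hn
    exact hn.le
  have e : Ncoef m.1 = ∑ n ∈ Icc (-M) M, (|fpoly m.1 n| - fpoly m.1 n) := by
    refine finsum_eq_sum_of_support_subset _ ?_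
    intro n hn
    by_contra hc
    exact hn (hz n hc)
  rw [e, Int.cast_sum]
  exact hasSum_sum_of_ne_finset_zero fun n hn => by rw [hz n hn]; simp

theorem pathW_real {r : ℕ} (hr : Even (r + 1)) (b : ℤ → ℂ) (hb : ∀ n, b (-n) = conj (b n))
    (Z : ℂ) (hZ : HasSum (pathW (r := r) b) Z) : ((Z.re : ℝ) : ℂ) = Z := by
  have h1 := (Equiv.neg (Fin (r + 1) → ℤ)).hasSum_iff.2 hZ
  have h2 : HasSum (fun p => conj (pathW (r := r) b p)) (conj Z) := by
    simpa using (Complex.hasSum_conj' (f := pathW (r := r) b) (x := Z)).2 hZ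
  have e : (pathW (r := r) b ∘ Equiv.neg (Fin (r + 1) → ℤ)) = fun p => conj (pathW b p) := by
    ext p
    simp only [Function.comp, Equiv.neg_apply, pathW, Pi.neg_apply, map_mul, map_prod, map_intCast]
    rw [prod_neg, card_univ, Fintype.card_fin, hr.neg_one_pow, one_mul]
    congr 1
    refine prod_congr rfl fun i _ => ?_
    rw [← hb]; congr 1; ring
  rw [e] at h1
  exact Complex.conj_eq_iff_re.1 (h2.unique h1)

end Pool.Agent.P.MP_2eaf66_an
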