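import Mathlib
import Pool.Agent.P.MP_2eaf66_an.Defs
import Pool.Agent.P.MP_2eaf66_an.Operator
import Pool.Agent.P.MP_2eaf66_an.Elementary
import Pool.Agent.P.MP_2eaf66_an.Fourier
import Pool.Agent.P.MP_2eaf66_an.Paths

set_option autoImplicit false

namespace Pool.Agent.P.MP_2eaf66_an

open scoped ComplexConjugate
open Finset Filter Topology

/-- the truncated Hermitian matrix -/
noncomputable def Xm (b : ℤ → ℂ) (S : Finset ℤ) : Matrix S S ℂ :=
  fun x y => ((√|((x : ℤ) : ℝ)| : ℝ) : ℂ) * b (y - x) * ((√|((y : ℤ) : ℝ)| : ℝ) : ℂ)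

/-- the sign, with value one at zero -/
noncomputable def sg (x : ℤ) : ℝ := if 0 ≤ x then 1 else -1

theorem sg_cases (x : ℤ) : sg x = 1 ∨ sg x = -1 := by
  unfold sg; split_ifs <;> simp

theorem sqrt_mul_sqrt_abs (x : ℤ) :
    ((√|(x : ℝ)| : ℝ) : ℂ) * ((√|(x : ℝ)| : ℝ) : ℂ) = ((|x| : ℤ) : ℂ) := by
  rw [← Complex.ofReal_mul, Real.mul_self_sqrt (abs_nonneg _)]
  norm_cast

theorem abs_mul_sg (x : ℤ) : ((|x| : ℤ) : ℂ) * (sg x : ℂ) = x := by
  unfold sg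
  split_ifs with h
  · rw [abs_of_nonneg h]; simp
  · rw [abs_of_neg (not_le.1 h)]; simp

theorem Xm_herm (b : ℤ → ℂ) (hb : ∀ n, b (-n) = conj (b n)) (S : Finset ℤ) :
    (Xm b S).IsHermitian := by
  ext x y
  simp only [Matrix.conjTranspose_apply, Xm, RCLike.star_def, map_mul, Complex.conj_ofReal]
  rw [← hb, neg_sub]; ring

theorem trace_diff (b : ℤ → ℂ) (S : Finset ℤ) (r : ℕ) :
    ((Xm b S) ^ (r + 1)).trace
      - ((Xm b S * Matrix.diagonal (fun i : S => (sg i : ℂ))) ^ (r + 1)).trace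
      = ∑ p : Fin (r + 1) → S, pathW b (fun i => (p i : ℤ)) := by
  rw [trace_pow_path, trace_pow_path, ← sum_sub_distrib]
  refine sum_congr rfl fun p _ => ?_
  simp only [Matrix.mul_diagonal, Xm, prod_mul_distrib, pathW]
  have e1 := Equiv.prod_comp (Equiv.addRight (1 : Fin (r + 1)))
    (fun i => ((√|((p i : ℤ) : ℝ)| : ℝ) : ℂ))
  have e2 := Equiv.prod_comp (Equiv.addRight (1 : Fin (r + 1))) (fun i => (sg (p i) : ℂ))
  simp only [Equiv.coe_addRight] at e1 e2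
  rw [e1, e2]
  have e3 : (∏ i, ((√|((p i : ℤ) : ℝ)| : ℝ) : ℂ)) * (∏ i, ((√|((p i : ℤ) : ℝ)| : ℝ) : ℂ))
      = ∏ i, ((|(p i : ℤ)| : ℤ) : ℂ) := by
    rw [← prod_mul_distrib]; exact prod_congr rfl fun i _ => sqrt_mul_sqrt_abs _
  have e4 : (∏ i, ((|(p i : ℤ)| : ℤ) : ℂ)) * (∏ i, (sg (p i) : ℂ)) = ∏ i, ((p i : ℤ) : ℂ) := by
    rw [← prod_mul_distrib]; exact prod_congr rfl fun i _ => abs_mul_sg _
  rw [abs_prod, Int.cast_sub, Int.cast_prod, Int.cast_prod, ← e4, ← e3]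
  ring

theorem tendsto_trunc {r : ℕ} (F : (Fin (r + 1) → ℤ) → ℂ) (Z : ℂ) (hZ : HasSum F Z) :
    Tendsto (fun R : ℕ => ∑ p : Fin (r + 1) → (Icc (-(R : ℤ)) R), F (fun i => (p i : ℤ)))
      atTop (𝓝 Z) := by
  let box : ℕ → Finset (Fin (r + 1) → ℤ) := fun R =>
    univ.map ⟨fun (p : Fin (r + 1) → (Icc (-(R : ℤ)) R)) i => (p i : ℤ), by
      intro p q h; ext i; exact congrFun h i⟩
  have hbox : Tendsto box atTop atTop := by
    rw [tendsto_atTop]
    intro t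
    simp only [subset_iff]
    rw [eventually_all_finset]
    intro q _
    filter_upwards [eventually_ge_atTop (∑ i, (q i).natAbs)] with R hR
    rw [Finset.mem_map]
    refine ⟨fun i => ⟨q i, ?_⟩, mem_univ _, rfl⟩
    have : (q i).natAbs ≤ ∑ i, (q i).natAbs :=
      single_le_sum (f := fun i => (q i).natAbs) (fun _ _ => Nat.zero_le _) (mem_univ i)
    rw [mem_Icc]; omega
  have := Tendsto.comp hZ hbox
  refine this.congr fun R => ?_
  simp only [Function.comp, box, sum_map]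
  rfl

theorem tendsto_trunc1 (f : ℤ → ℂ) (hf : Summable f) :
    Tendsto (fun R : ℕ => ∑ l ∈ Icc (-(R : ℤ)) R, f l) atTop (𝓝 (∑' l, f l)) := by
  have hbox : Tendsto (fun R : ℕ => Icc (-(R : ℤ)) R) atTop atTop := by
    rw [tendsto_atTop]
    intro t
    simp only [subset_iff]
    rw [eventually_all_finset]
    intro q _
    filter_upwards [eventually_ge_atTop q.natAbs] with R hR
    rw [mem_Icc]; omega
  have h2 : Tendsto (fun s : Finset ℤ => ∑ l ∈ s, f l) atTop (𝓝 (∑' l, f l)) := hf.hasSum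
  exact h2.comp hbox

theorem summable_G (b : ℤ → ℂ)
    (hs : ∀ p : ℕ, Summable (fun n : ℤ => (1 + |(n : ℝ)|) ^ p * ‖b n‖)) (d i j : ℤ) :
    Summable (fun l : ℤ => ((|l + d| : ℤ) : ℂ) * (b (l + i) * b (j - l))) := by
  have h0 : Summable (fun n => ‖b n‖) := by simpa using hs 0
  have hC : ∀ n, ‖b n‖ ≤ ∑' n, ‖b n‖ := fun n => h0.le_tsum n fun _ _ => norm_nonneg _
  have h1 := ((Equiv.addRight i).summable_iff.2 (hs 1)).mul_left
    ((1 + |((d - i : ℤ) : ℝ)|) * ∑' n, ‖b n‖)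
  refine Summable.of_norm_bounded h1 fun l => ?_
  simp only [Function.comp, Equiv.coe_addRight, pow_one]
  rw [norm_mul, norm_mul, Complex.norm_intCast]
  have a1 : |((|l + d| : ℤ) : ℝ)| ≤ (1 + |((d - i : ℤ) : ℝ)|) * (1 + |((l + i : ℤ) : ℝ)|) := by
    push_cast
    rw [abs_abs]
    have := abs_add_le ((d : ℝ) - i) ((l : ℝ) + i)
    rw [show (d : ℝ) - i + (l + i) = l + d by ring] at this
    nlinarith [abs_nonneg ((d : ℝ) - i), abs_nonneg ((l : ℝ) + i),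
      mul_nonneg (abs_nonneg ((d : ℝ) - i)) (abs_nonneg ((l : ℝ) + i))]
  calc _ ≤ ((1 + |((d - i : ℤ) : ℝ)|) * (1 + |((l + i : ℤ) : ℝ)|))
        * (‖b (l + i)‖ * ∑' n, ‖b n‖) := by
        gcongr; exact hC _
    _ = _ := by ring

/-- the limiting off-diagonal kernel -/
noncomputable def Gk (b : ℤ → ℂ) (i j : ℤ) : ℂ :=
  ∑' l : ℤ, ((|l| : ℤ) : ℂ) * (b (l + i) * b (j - l))

theorem Gk_diff2 (b : ℤ → ℂ)
    (hs : ∀ p : ℕ, Summable (fun n : ℤ => (1 + |(n : ℝ)|) ^ p * ‖b n‖)) (i j : ℤ) :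
    Gk b (i - 1) (j + 1) - 2 * Gk b i j + Gk b (i + 1) (j - 1) = 2 * (b j * b i) := by
  have e1 : Gk b (i - 1) (j + 1) = ∑' l : ℤ, ((|l + 1| : ℤ) : ℂ) * (b (l + i) * b (j - l)) := by
    rw [Gk, ← (Equiv.addRight 1).tsum_eq]
    refine tsum_congr fun l => ?_
    simp only [Equiv.coe_addRight]
    congr 3 <;> ring
  have e2 : Gk b (i + 1) (j - 1) = ∑' l : ℤ, ((|l + -1| : ℤ) : ℂ) * (b (l + i) * b (j - l)) := by
    rw [Gk, ← (Equiv.addRight (-1)).tsum_eq]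
    refine tsum_congr fun l => ?_
    simp only [Equiv.coe_addRight]
    congr 3 <;> ring
  have e0 : Gk b i j = ∑' l : ℤ, ((|l + 0| : ℤ) : ℂ) * (b (l + i) * b (j - l)) := by
    simp [Gk]
  have s1 := (summable_G b hs 1 i j).hasSum
  have s2 := (summable_G b hs (-1) i j).hasSum
  have s0 := (summable_G b hs 0 i j).hasSum
  rw [e1, e2, e0]
  refine ((s1.sub (s0.mul_left 2)).add s2).unique ?_
  have h := hasSum_single (f := fun l : ℤ => ((|l + 1| : ℤ) : ℂ) * (b (l + i) * b (j - l))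
    - 2 * (((|l + 0| : ℤ) : ℂ) * (b (l + i) * b (j - l)))
    + ((|l + -1| : ℤ) : ℂ) * (b (l + i) * b (j - l))) 0 (by
      intro l hl
      have : |l + 1| - 2 * |l + 0| + |l + -1| = 0 := by
        rcases lt_or_gt_of_ne hl with h | h
        · rw [abs_of_nonpos (by omega), abs_of_nonpos (by omega), abs_of_nonpos (by omega)]; ring
        · rw [abs_of_nonneg (by omega), abs_of_nonneg (by omega), abs_of_nonneg (by omega)]; ring
      have h2 : ((|l + 1| - 2 * |l + 0| + |l + -1| : ℤ) : ℂ) = 0 := by rw [this]; simp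
      rw [Int.cast_add, Int.cast_sub, Int.cast_mul, Int.cast_ofNat] at h2
      linear_combination (b (l + i) * b (j - l)) * h2)
  have e : ((|(0 : ℤ) + 1| : ℤ) : ℂ) * (b (0 + i) * b (j - 0))
    - 2 * (((|(0 : ℤ) + 0| : ℤ) : ℂ) * (b (0 + i) * b (j - 0)))
    + ((|(0 : ℤ) + -1| : ℤ) : ℂ) * (b (0 + i) * b (j - 0)) = 2 * (b j * b i) := by
    simp; ring
  rw [e] at h
  exact h

/-- the entries of the square of the truncated matrix -/
noncomputable def Kf (b : ℤ → ℂ) (S : Finset ℤ) (x y : ℤ) : ℂ :=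
  ((√|(x : ℝ)| : ℝ) : ℂ) * ((√|(y : ℝ)| : ℝ) : ℂ)
    * ∑ l ∈ S, ((|l| : ℤ) : ℂ) * (b (l - x) * b (y - l))

theorem Xm_sq (b : ℤ → ℂ) (S : Finset ℤ) (x y : S) : (Xm b S * Xm b S) x y = Kf b S x y := by
  rw [Matrix.mul_apply, Kf, mul_sum, ← sum_coe_sort S]
  refine sum_congr rfl fun l _ => ?_
  rw [← sqrt_mul_sqrt_abs]
  simp only [Xm]; ring

theorem rows_le (b : ℤ → ℂ) (M : ℤ) (R : ℕ) (hR : M ≤ R) (k : ℕ) :
    ∑ j ∈ Ico (1 : ℤ) M, √(∑ i ∈ Ico (1 : ℤ) M, ((i : ℝ) * j) *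
        ‖∑ l ∈ Icc (-(R : ℤ)) R, ((|l| : ℤ) : ℂ) * (b (l + i) * b (j - l))‖ ^ 2) ^ k
      ≤ ∑ y : Icc (-(R : ℤ)) R, √(∑ x ∈ univ.filter (fun x : Icc (-(R : ℤ)) R => sg x ≠ sg y),
          ‖(Xm b (Icc (-(R : ℤ)) R) * Xm b (Icc (-(R : ℤ)) R)) x y‖ ^ 2) ^ k := by
  set S := Icc (-(R : ℤ)) R with hS
  have e : ∀ y : S, ∑ x ∈ univ.filter (fun x : S => sg x ≠ sg y), ‖(Xm b S * Xm b S) x y‖ ^ 2
      = ∑ x ∈ S with sg x ≠ sg y, ‖Kf b S x y‖ ^ 2 := by
    intro y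
    rw [sum_filter, sum_filter, ← sum_coe_sort S]
    simp only [Xm_sq]
  simp only [e]
  rw [sum_coe_sort S (fun y => √(∑ x ∈ S with sg x ≠ sg y, ‖Kf b S x y‖ ^ 2) ^ k)]
  calc _ ≤ ∑ j ∈ Ico (1 : ℤ) M, √(∑ x ∈ S with sg x ≠ sg j, ‖Kf b S x j‖ ^ 2) ^ k := by
        refine sum_le_sum fun j hj => pow_le_pow_left₀ (Real.sqrt_nonneg _)
          (Real.sqrt_le_sqrt ?_) k
        rw [mem_Ico] at hj
        have hj0 : (0 : ℝ) ≤ j := by exact_mod_cast (by omega : (0 : ℤ) ≤ j)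
        calc _ = ∑ x ∈ (Ico (1 : ℤ) M).image (fun i => -i), ‖Kf b S x j‖ ^ 2 := by
              rw [sum_image (fun _ _ _ _ h => neg_injective h)]
              refine sum_congr rfl fun i hi => ?_
              rw [mem_Ico] at hi
              have hi0 : (0 : ℝ) ≤ i := by exact_mod_cast (by omega : (0 : ℤ) ≤ i)
              rw [Kf, norm_mul, norm_mul, Complex.norm_real, Complex.norm_real, mul_pow, mul_pow,
                Real.norm_eq_abs, Real.norm_eq_abs, sq_abs, sq_abs, Real.sq_sqrt (abs_nonneg _),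
                Real.sq_sqrt (abs_nonneg _), Int.cast_neg, abs_neg, abs_of_nonneg hi0,
                abs_of_nonneg hj0]
              simp only [sub_neg_eq_add]
          _ ≤ _ := by
              refine sum_le_sum_of_subset_of_nonneg ?_ fun _ _ _ => by positivity
              intro x hx
              obtain ⟨i, hi, rfl⟩ := mem_image.1 hx
              rw [mem_Ico] at hi
              rw [mem_filter, hS, mem_Icc]
              refine ⟨by omega, ?_⟩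
              unfold sg
              rw [if_neg (by omega), if_pos (by omega)]; norm_num
    _ ≤ _ := by
        refine sum_le_sum_of_subset_of_nonneg ?_ fun _ _ _ => by positivity
        intro x hx
        rw [mem_Ico] at hx
        rw [hS, mem_Icc]; omega

theorem rows_limit (b : ℤ → ℂ) (hb : ∀ n, b (-n) = conj (b n))
    (hs : ∀ p : ℕ, Summable (fun n : ℤ => (1 + |(n : ℝ)|) ^ p * ‖b n‖))
    (k r : ℕ) (hk : 2 ≤ k) (hr : 2 * k = r + 1) (Z : ℂ) (hZ : HasSum (pathW (r := r) b) Z)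
    (M : ℤ) :
    ∑ j ∈ Ico (1 : ℤ) M, √(∑ i ∈ Ico (1 : ℤ) M, ((i : ℝ) * j) * ‖Gk b i j‖ ^ 2) ^ k ≤ Z.re := by
  have t1 : Tendsto (fun R : ℕ => ∑ j ∈ Ico (1 : ℤ) M, √(∑ i ∈ Ico (1 : ℤ) M, ((i : ℝ) * j) *
        ‖∑ l ∈ Icc (-(R : ℤ)) R, ((|l| : ℤ) : ℂ) * (b (l + i) * b (j - l))‖ ^ 2) ^ k) atTop
      (𝓝 (∑ j ∈ Ico (1 : ℤ) M,
        √(∑ i ∈ Ico (1 : ℤ) M, ((i : ℝ) * j) * ‖Gk b i j‖ ^ 2) ^ k)) := by
    refine tendsto_finsetSum _ fun j _ => Tendsto.pow (Tendsto.sqrt ?_) _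
    refine tendsto_finsetSum _ fun i _ => Tendsto.const_mul _ (Tendsto.pow (Tendsto.norm ?_) _)
    exact tendsto_trunc1 _ (by simpa using summable_G b hs 0 i j)
  have t2 := (Complex.continuous_re.tendsto Z).comp (tendsto_trunc _ Z hZ)
  refine le_of_tendsto_of_tendsto t1 t2 ?_
  filter_upwards [eventually_ge_atTop M.toNat] with R hR
  refine (rows_le b M R (by omega) k).trans ?_
  have := matrix_ineq (Xm b (Icc (-(R : ℤ)) R)) (Xm_herm b hb _) (fun i => sg i)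
    (fun i => sg_cases _) k hk
  rw [hr, trace_diff] at this
  exact this

theorem sum_parab (n : ℕ) (x : ℝ) :
    ∑ j ∈ range n, (j : ℝ) * (x - j) = x * n * (n - 1) / 2 - (n - 1) * n * (2 * n - 1) / 6 := by
  induction n with
  | zero => simp
  | succ n ih => rw [sum_range_succ, ih]; push_cast; ring

theorem case_one (b : ℤ → ℂ) (hb : ∀ n, b (-n) = conj (b n)) (Z : ℂ)
    (hZ : HasSum (pathW (r := 1) b) Z) (M : ℤ) :
    ∑ n ∈ Ico (2 : ℤ) M, (n : ℝ) ^ 3 * ‖b n‖ ^ 2 ≤ 4 * Z.re := by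
  have hre := Complex.hasSum_re hZ
  have val : ∀ p : Fin 2 → ℤ, (pathW (r := 1) b p).re
      = ((|p 0 * p 1| - p 0 * p 1 : ℤ) : ℝ) * ‖b (p 1 - p 0)‖ ^ 2 := by
    intro p
    have : pathW (r := 1) b p
        = ((((|p 0 * p 1| - p 0 * p 1 : ℤ) : ℝ) * ‖b (p 1 - p 0)‖ ^ 2 : ℝ) : ℂ) := by
      unfold pathW
      rw [Fin.prod_univ_two, Fin.prod_univ_two]
      have e1 : (0 : Fin 2) + 1 = 1 := rfl
      have e2 : (1 : Fin 2) + 1 = 0 := rfl
      rw [e1, e2, ← neg_sub (p 1) (p 0), hb, Complex.mul_conj, Complex.normSq_eq_norm_sq,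
        Complex.ofReal_mul, Complex.ofReal_intCast]
    rw [this, Complex.ofReal_re]
  have nn : ∀ p : Fin 2 → ℤ, 0 ≤ (pathW (r := 1) b p).re := by
    intro p
    rw [val]
    refine mul_nonneg ?_ (by positivity)
    exact_mod_cast sub_nonneg.2 (le_abs_self _)
  let φ : (Σ _ : ℤ, ℕ) → (Fin 2 → ℤ) := fun x => ![-(x.2 : ℤ), x.1 - x.2]
  have hφ : Function.Injective φ := by
    rintro ⟨n, j⟩ ⟨n', j'⟩ h
    have h0 := congrFun h 0
    have h1 := congrFun h 1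
    simp only [φ, Matrix.cons_val_zero, Matrix.cons_val_one, neg_inj, Nat.cast_inj] at h0 h1
    subst h0
    have : n = n' := by omega
    subst this; rfl
  have key := sum_le_hasSum (((Ico (2 : ℤ) M).sigma (fun n => range n.toNat)).image φ)
    (fun p _ => nn p) hre
  rw [sum_image (fun _ _ _ _ h => hφ h), sum_sigma] at key
  refine le_trans ?_ (mul_le_mul_of_nonneg_left key (by norm_num))
  rw [mul_sum]
  refine sum_le_sum fun n hn => ?_
  rw [mem_Ico] at hn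
  obtain ⟨n', rfl⟩ : ∃ n' : ℕ, n = n' := ⟨n.toNat, by omega⟩
  have e : ∑ j ∈ range (n' : ℤ).toNat, (pathW (r := 1) b (φ ⟨n', j⟩)).re
      = 2 * (∑ j ∈ range n', (j : ℝ) * (n' - j)) * ‖b n'‖ ^ 2 := by
    rw [Int.toNat_natCast, mul_sum, sum_mul]
    refine sum_congr rfl fun j hj => ?_
    rw [mem_range] at hj
    rw [val]
    simp only [φ, Matrix.cons_val_zero, Matrix.cons_val_one]
    rw [abs_of_nonpos (mul_nonpos_of_nonpos_of_nonneg (by omega) (by omega)),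
      show (n' : ℤ) - j - -(j : ℤ) = n' by ring]
    push_cast; ring
  rw [e, sum_parab]
  have h2 : (2 : ℝ) ≤ n' := by exact_mod_cast hn.1
  push_cast
  rw [← mul_assoc]
  refine mul_le_mul_of_nonneg_right ?_ (by positivity)
  nlinarith [mul_nonneg (by linarith : (0 : ℝ) ≤ n') (by nlinarith : (0 : ℝ) ≤ n' * n' - 4)]

theorem final_sum (l : ℤ → ℝ) (hl : ∀ n, 0 ≤ n → 0 ≤ l n) (B : ℝ)
    (h : ∀ T : ℕ, ∑ n ∈ Ico (2 : ℤ) (2 * 2 ^ T), l n ≤ B) :
    ∃ S : ℝ, HasSum (fun n : ℕ => l (n + 2)) S ∧ S ≤ B := by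
  have h1 : ∀ M : ℕ, ∑ n ∈ range M, l (n + 2) ≤ B := by
    intro M
    refine le_trans ?_ (h M)
    rw [← sum_image (s := range M) (g := fun n : ℕ => (n : ℤ) + 2) (f := l)
      (fun _ _ _ _ h => by simpa using h)]
    refine sum_le_sum_of_subset_of_nonneg ?_ fun n hn _ => hl n (by rw [mem_Ico] at hn; omega)
    intro x hx
    obtain ⟨n, hn, rfl⟩ := mem_image.1 hx
    rw [mem_range] at hn
    have : (M : ℤ) < 2 ^ M := by exact_mod_cast Nat.lt_two_pow_self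
    rw [mem_Ico]; omega
  have h0 : ∀ n : ℕ, 0 ≤ l (n + 2) := fun n => hl _ (by omega)
  exact ⟨_, (summable_of_sum_range_le h0 h1).hasSum, Real.tsum_le_of_sum_range_le h0 h1⟩

theorem main_seq (k : ℕ) (hk : 1 ≤ k) : ∃ c : ℝ, 0 < c ∧ ∀ b : ℤ → ℂ,
    (∀ n, b (-n) = conj (b n)) →
    (∀ p : ℕ, Summable (fun n : ℤ => (1 + |(n : ℝ)|) ^ p * ‖b n‖)) →
    ∀ L : ℕ, L = 2 * k → ∃ S Z : ℝ,
      HasSum (fun n : ℕ => ((n : ℝ) + 2) ^ (2 * k + 1) * ‖b (n + 2)‖ ^ (2 * k)) S ∧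
      HasSum (fun m : {m : Fin L → ℤ // ∑ i, m i = 0} =>
        (Ncoef m.1 : ℂ) * ∏ i, b (m.1 i)) (Z : ℂ) ∧ c * S ≤ Z := by
  set C : ℝ := 4 + 3 * (4 ^ (2 * k + 1) * 10000 ^ k) with hC
  have hC0 : 0 < C := by positivity
  refine ⟨C⁻¹, inv_pos.2 hC0, fun b hb hs L hL => ?_⟩
  obtain ⟨r, rfl⟩ : ∃ r, L = r + 1 := ⟨L - 1, by omega⟩
  have hr : Even (r + 1) := hL ▸ even_two_mul k
  have hZ := (pathW_summable hr b summable_inv_sq hs).hasSum
  set Z := ∑' p, pathW (r := r) b p with hZdef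
  have hbound : ∀ T : ℕ, ∑ n ∈ Ico (2 : ℤ) (2 * 2 ^ T),
      (n : ℝ) ^ (2 * k + 1) * ‖b n‖ ^ (2 * k) ≤ C * Z.re := by
    intro T
    have hp : (0 : ℝ) ≤ 3 * (4 ^ (2 * k + 1) * 10000 ^ k) := by positivity
    rcases eq_or_lt_of_le hk with h1 | h1
    · subst h1
      obtain rfl : r = 1 := by omega
      have a1 := case_one b hb Z hZ (2 * 2 ^ T)
      have a2 := case_one b hb Z hZ 0
      have a3 : 0 ≤ Z.re := by simpa using a2
      refine a1.trans (mul_le_mul_of_nonneg_right ?_ a3)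
      linarith
    · have a1 := rows_limit b hb hs k r h1 hL.symm Z hZ (4 * 2 ^ T)
      have a2 := rows_limit b hb hs k r h1 hL.symm Z hZ 0
      have a3 : 0 ≤ Z.re := by simpa using a2
      refine (elementary b (Gk b) (Gk_diff2 b hs) k h1 T).trans ?_
      refine (mul_le_mul_of_nonneg_left a1 hp).trans (mul_le_mul_of_nonneg_right ?_ a3)
      linarith
  obtain ⟨S, hS, hSle⟩ := final_sum (fun n => (n : ℝ) ^ (2 * k + 1) * ‖b n‖ ^ (2 * k))
    (fun n hn => by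
      have : (0 : ℝ) ≤ n := by exact_mod_cast hn
      positivity) _ hbound
  refine ⟨S, Z.re, ?_, ?_, ?_⟩
  · simpa using hS
  · rw [pathW_real hr b hb Z hZ]
    exact hasSum_Ncoef hr b Z hZ
  · rw [inv_mul_le_iff₀ hC0]; exact hSle

end Pool.Agent.P.MP_2eaf66_an
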