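import Mathlib
import Pool.Agent.P.MP_2eaf66_an.Main
import Pool.Agent.P.MP_2eaf66_an.BgDisc

set_option autoImplicit false

namespace Pool.Agent.P.MP_2eaf66_an.Bg

open scoped ComplexConjugate InnerProductSpace
open Finset Filter Topology MeasureTheory Metric Real

section
variable {E : Type} [NormedAddCommGroup E] [InnerProductSpace ℂ E]

theorem spec_bound [FiniteDimensional ℂ E] (X H : E →ₗ[ℂ] E) (hX : X.IsSymmetric)
    (hH : H.IsSymmetric) (hHH : ∀ x, H (H x) = x) (k : ℕ) (hk : 2 ≤ k) :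
    ∃ (n : ℕ) (w : Fin n → E) (σ : Fin n → ℝ), (∀ t, ‖w t‖ = 1) ∧ (∀ t, 0 ≤ σ t) ∧
      ∑ t, σ t ^ k
        ≤ (LinearMap.trace ℂ E (X ^ (2 * k)) - LinearMap.trace ℂ E ((X * H) ^ (2 * k))).re ∧
      ∀ (f : E) (B : ℝ), 0 < B → ‖f‖ ≤ B →
        ‖((1 / 2 : ℂ) • (X * X - H * (X * X) * H)) f‖ ^ k
          ≤ B ^ (k - 2) * ∑ t, σ t ^ k * ‖⟪w t, f⟫_ℂ‖ ^ 2 := by
  set U : E →ₗ[ℂ] E := (1 / 2 : ℂ) • (X * X - H * (X * X) * H) with hU
  have half : conj (1 / 2 : ℂ) = 1 / 2 := by simp [map_ofNat]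
  have hUs : U.IsSymmetric := by
    refine LinearMap.IsSymmetric.smul half (LinearMap.IsSymmetric.sub ?_ ?_)
    · intro x y; simp only [Module.End.mul_apply]; rw [hX, hX]
    · intro x y; simp only [Module.End.mul_apply]; rw [hH, hX, hX, hH]
  set w := hUs.eigenvectorBasis rfl with hw
  set lam := hUs.eigenvalues rfl with hlam
  have hev : ∀ t, U (w t) = (lam t : ℂ) • w t := fun t => hUs.apply_eigenvectorBasis rfl t
  refine ⟨_, w, fun t => |lam t|, w.orthonormal.1, fun t => abs_nonneg _, ?_, ?_⟩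
  · refine le_trans (le_of_eq ?_) (abstract_ineq w X H hX hH hHH k hk)
    refine sum_congr rfl fun t _ => ?_
    have : (1 / 2 : ℂ) • (X (X (w t)) - H (X (X (H (w t))))) = U (w t) := rfl
    rw [this, hev, norm_smul, w.orthonormal.1, mul_one, Complex.norm_real, Real.norm_eq_abs]
  · intro f B hB hf
    have h1 : ‖U f‖ ^ 2 = ∑ t, ‖⟪w t, f⟫_ℂ‖ ^ 2 * |lam t| ^ 2 := by
      rw [← w.sum_sq_norm_inner_right]
      refine sum_congr rfl fun t _ => ?_
      rw [inner_eig w U hUs lam hev, norm_mul, Complex.norm_real, Real.norm_eq_abs]; ring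
    have h2 : ∑ t, ‖⟪w t, f⟫_ℂ‖ ^ 2 / B ^ 2 ≤ 1 := by
      rw [← sum_div, w.sum_sq_norm_inner_right, div_le_one (by positivity)]
      exact pow_le_pow_left₀ (norm_nonneg _) hf 2
    have h3 := pow_mean univ (fun t => ‖⟪w t, f⟫_ℂ‖ ^ 2 / B ^ 2) (fun t => |lam t|)
      (fun _ _ => by positivity) (fun _ _ => abs_nonneg _) h2 (‖U f‖ / B) (by positivity)
      (by
        rw [div_pow, h1, sum_div]
        exact le_of_eq (sum_congr rfl fun t _ => by ring)) k hk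
    obtain ⟨m, rfl⟩ : ∃ m, k = m + 2 := ⟨k - 2, by omega⟩
    rw [div_pow, div_le_iff₀ (by positivity)] at h3
    refine h3.trans (le_of_eq ?_)
    rw [Nat.add_sub_cancel, sum_mul, mul_sum]
    refine sum_congr rfl fun t _ => ?_
    field_simp
    ring

theorem on_fin {M : ℕ} (v : ℕ → E)
    (hv : ∀ n < M, ∀ m < M, ⟪v n, v m⟫_ℂ = if n = m then 1 else 0) :
    Orthonormal ℂ (fun n : Fin M => v n) := by
  rw [orthonormal_iff_ite]
  intro i j
  rw [hv i i.2 j j.2]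
  simp only [Fin.ext_iff]

theorem norm_comb {M : ℕ} (v : ℕ → E)
    (hv : ∀ n < M, ∀ m < M, ⟪v n, v m⟫_ℂ = if n = m then 1 else 0) (c : ℕ → ℂ) :
    ‖∑ n ∈ range M, c n • v n‖ ^ 2 = ∑ n ∈ range M, ‖c n‖ ^ 2 := by
  rw [← re_inner_self', sum_range, (on_fin v hv).inner_sum, Complex.re_sum, sum_range]
  refine sum_congr rfl fun n _ => ?_
  rw [mul_comm, Complex.mul_conj, Complex.ofReal_re, Complex.normSq_eq_norm_sq]

theorem bessel {M : ℕ} (v : ℕ → E)
    (hv : ∀ n < M, ∀ m < M, ⟪v n, v m⟫_ℂ = if n = m then 1 else 0) (x : E) :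
    ∑ n ∈ range M, ‖⟪x, v n⟫_ℂ‖ ^ 2 ≤ ‖x‖ ^ 2 := by
  rw [sum_range]
  refine le_trans (le_of_eq ?_) ((on_fin v hv).sum_inner_products_le x (s := univ))
  exact sum_congr rfl fun n _ => by rw [norm_inner_symm]

theorem le_div_of_sq (x u : ℝ) (hu : 0 < u) (m : ℕ) (hm : m ≤ 2)
    (h : x ^ 2 * u ^ (2 * m + 2) ≤ (2 * m + 1).factorial) : x ≤ 11 / u ^ (m + 1) := by
  rw [le_div_iff₀ (by positivity)]
  have h1 : ((2 * m + 1).factorial : ℝ) ≤ 11 ^ 2 := by
    interval_cases m <;> norm_num [Nat.factorial]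
  refine le_of_sq_le_sq ?_ (by norm_num)
  calc _ = x ^ 2 * u ^ (2 * m + 2) := by ring
    _ ≤ _ := h.trans h1

theorem core {n : ℕ} (U : E →ₗ[ℂ] E) (w : Fin n → E) (σ : Fin n → ℝ) (hw : ∀ t, ‖w t‖ = 1)
    (hσ : ∀ t, 0 ≤ σ t) (k : ℕ) (hk : 2 ≤ k)
    (hU : ∀ (f : E) (B : ℝ), 0 < B → ‖f‖ ≤ B →
        ‖U f‖ ^ k ≤ B ^ (k - 2) * ∑ t, σ t ^ k * ‖⟪w t, f⟫_ℂ‖ ^ 2)
    {M : ℕ} (P Q : ℕ → E) (hP : ∀ n < M, ∀ m < M, ⟪P n, P m⟫_ℂ = if n = m then 1 else 0)
    (hQ : ∀ n < M, ∀ m < M, ⟪Q n, Q m⟫_ℂ = if n = m then 1 else 0)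
    (a b : ℕ) (hab : a + b = 2) (α β : ℕ → ℝ)
    (hα : ∀ n, α n ^ 2 ≤ ((n + 1).ascFactorial (2 * a + 1) : ℝ))
    (hβ : ∀ n, β n ^ 2 ≤ ((n + 1).ascFactorial (2 * b + 1) : ℝ)) :
    ∫ z in ball (0 : ℂ) 1, ‖∑ i ∈ range M, ∑ j ∈ range M,
        (α i * β j * ⟪Q i, U (P j)⟫_ℂ) * z ^ (i + j)‖ ^ k * (1 - ‖z‖ ^ 2) ^ (4 * k - 2)
      ≤ 11 ^ (2 * k) * (π * 24) * ∑ t, σ t ^ k := by
  obtain ⟨m, rfl⟩ : ∃ m, k = m + 2 := ⟨k - 2, by omega⟩
  have hpt : ∀ z ∈ ball (0 : ℂ) 1, ‖∑ i ∈ range M, ∑ j ∈ range M,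
        (α i * β j * ⟪Q i, U (P j)⟫_ℂ) * z ^ (i + j)‖ ^ (m + 2) * (1 - ‖z‖ ^ 2) ^ (4 * (m + 2) - 2)
      ≤ ∑ t, (11 ^ (2 * (m + 2)) * σ t ^ (m + 2)) *
        (‖∑ j ∈ range M, (⟪w t, P j⟫_ℂ * β j) * z ^ j‖ ^ 2 * (1 - ‖z‖ ^ 2) ^ (2 * b)) := by
    intro z hz
    have hu : 0 < 1 - ‖z‖ ^ 2 := by
      rw [mem_ball_zero_iff] at hz; nlinarith [norm_nonneg z]
    set u := 1 - ‖z‖ ^ 2 with hu'
    set f : E := ∑ j ∈ range M, ((β j : ℂ) * z ^ j) • P j with hf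
    set g : E := ∑ i ∈ range M, conj ((α i : ℂ) * z ^ i) • Q i with hg
    have e1 : ∑ i ∈ range M, ∑ j ∈ range M, (α i * β j * ⟪Q i, U (P j)⟫_ℂ) * z ^ (i + j)
        = ⟪g, U f⟫_ℂ := by
      rw [hg, hf, sum_inner, map_sum]
      refine sum_congr rfl fun i _ => ?_
      rw [inner_sum]
      refine sum_congr rfl fun j _ => ?_
      rw [map_smul, inner_smul_left, inner_smul_right, Complex.conj_conj]; ring
    have nf : ‖f‖ ≤ 11 / u ^ (b + 1) := le_div_of_sq _ _ hu b (by omega) (by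
      rw [hf, norm_comb P hP]; exact coh_norm β (2 * b) hβ M z hz)
    have ng : ‖g‖ ≤ 11 / u ^ (a + 1) := le_div_of_sq _ _ hu a (by omega) (by
      rw [hg, norm_comb Q hQ]
      simp only [Complex.norm_conj]
      exact coh_norm α (2 * a) hα M z hz)
    have e2 : ∀ t, ⟪w t, f⟫_ℂ = ∑ j ∈ range M, (⟪w t, P j⟫_ℂ * β j) * z ^ j := by
      intro t
      rw [hf, inner_sum]
      exact sum_congr rfl fun j _ => by rw [inner_smul_right]; ring
    have h1 := hU f _ (by positivity) nf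
    simp only [e2, Nat.add_sub_cancel] at h1
    set S := ∑ t, σ t ^ (m + 2) * ‖∑ j ∈ range M, (⟪w t, P j⟫_ℂ * β j) * z ^ j‖ ^ 2 with hS
    have S0 : 0 ≤ S := sum_nonneg fun t _ => mul_nonneg (pow_nonneg (hσ t) _) (by positivity)
    have h2 : ‖⟪g, U f⟫_ℂ‖ ^ (m + 2)
        ≤ (11 / u ^ (a + 1)) ^ (m + 2) * ((11 / u ^ (b + 1)) ^ m * S) := by
      refine (pow_le_pow_left₀ (norm_nonneg _) (norm_inner_le_norm g (U f)) _).trans ?_
      rw [mul_pow]
      exact mul_le_mul (pow_le_pow_left₀ (norm_nonneg _) ng _) h1 (by positivity) (by positivity)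
    have e3 : u ^ (4 * (m + 2) - 2)
        = (u ^ (a + 1)) ^ (m + 2) * (u ^ (b + 1)) ^ m * u ^ (2 * b) := by
      rw [← pow_mul, ← pow_mul, ← pow_add, ← pow_add]
      congr 1
      obtain rfl : a = 2 - b := by omega
      have : b ≤ 2 := by omega
      interval_cases b <;> omega
    rw [e1]
    calc _ ≤ (11 / u ^ (a + 1)) ^ (m + 2) * ((11 / u ^ (b + 1)) ^ m * S) * u ^ (4 * (m + 2) - 2) :=
          mul_le_mul_of_nonneg_right h2 (by positivity)
      _ = 11 ^ (2 * m + 2) * (S * u ^ (2 * b)) := by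
          rw [e3, div_pow, div_pow]; field_simp; ring
      _ ≤ 11 ^ (2 * (m + 2)) * (S * u ^ (2 * b)) :=
          mul_le_mul_of_nonneg_right (pow_le_pow_right₀ (by norm_num) (by omega)) (by positivity)
      _ = _ := by
          rw [hS, sum_mul, mul_sum]
          exact sum_congr rfl fun t _ => by ring
  refine (setIntegral_mono_on (intOn _ (by fun_prop)) (intOn _ (by fun_prop))
    measurableSet_ball hpt).trans ?_
  rw [integral_finsetSum _ fun t _ => intOn _ (by fun_prop), mul_sum]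
  refine sum_le_sum fun t _ => ?_
  rw [integral_const_mul]
  have h1 := coh_bessel β (2 * b) hβ M (fun j => ⟪w t, P j⟫_ℂ)
  have h2 := bessel P hP (w t)
  rw [hw t, one_pow] at h2
  have h3 : ((2 * b).factorial : ℝ) ≤ 24 := by
    have : b ≤ 2 := by omega
    interval_cases b <;> norm_num [Nat.factorial]
  have h4 : π * (2 * b).factorial * ∑ n ∈ range M, ‖⟪w t, P n⟫_ℂ‖ ^ 2 ≤ π * 24 * 1 :=
    mul_le_mul (mul_le_mul_of_nonneg_left h3 pi_pos.le) h2 (by positivity) (by positivity)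
  have h5 : (0 : ℝ) ≤ 11 ^ (2 * (m + 2)) * σ t ^ (m + 2) :=
    mul_nonneg (by positivity) (pow_nonneg (hσ t) _)
  refine (mul_le_mul_of_nonneg_left (h1.trans h4) h5).trans (le_of_eq (by ring))

end

/-- basis vectors indexed by integers -/
noncomputable def ev (S : Finset ℤ) (x : ℤ) : EuclideanSpace ℂ S :=
  WithLp.toLp 2 (fun y : S => if (y : ℤ) = x then 1 else 0)

theorem ev_eq (S : Finset ℤ) (x : S) : ev S x = EuclideanSpace.single x 1 := by
  ext y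
  simp only [ev, PiLp.single_apply, Subtype.ext_iff]

theorem ev_inner (S : Finset ℤ) (x : ℤ) (hx : x ∈ S) (y : ℤ) :
    ⟪ev S x, ev S y⟫_ℂ = if x = y then 1 else 0 := by
  rw [show ev S x = EuclideanSpace.single (⟨x, hx⟩ : S) 1 from ev_eq S ⟨x, hx⟩,
    EuclideanSpace.inner_single_left]
  simp [ev]

/-- the coefficient `(n+1) ... (n+a+1)` -/
def dd (a n : ℕ) : ℕ := (n + 1).ascFactorial (a + 1)

theorem dd_sq (a : ℕ) (ha : a ≤ 2) (n : ℕ) :
    ((dd a n : ℝ) / √((n : ℝ) + a + 1)) ^ 2 ≤ ((n + 1).ascFactorial (2 * a + 1) : ℝ) := by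
  have hn : (0 : ℝ) ≤ n := by positivity
  rw [div_pow, Real.sq_sqrt (by positivity), div_le_iff₀ (by positivity)]
  interval_cases a <;> simp only [dd, Nat.ascFactorial] <;> push_cast
  · nlinarith
  · have : (0 : ℝ) ≤ (n + 1) * (n + 2) ^ 2 := by positivity
    nlinarith
  · have : (0 : ℝ) ≤ (n + 1) * (n + 2) * (n + 3) ^ 2 * (6 * n + 18) := by positivity
    nlinarith

theorem fin_bound (b : ℤ → ℂ) (hb : ∀ n, b (-n) = conj (b n)) (k r : ℕ) (hk : 2 ≤ k)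
    (hr : 2 * k = r + 1) (M R : ℕ) (hR : M + 3 ≤ R) (a a' : ℕ) (ha : a + a' = 2) :
    ∫ z in ball (0 : ℂ) 1, ‖∑ i ∈ range M, ∑ j ∈ range M,
        ((dd a i : ℂ) * dd a' j * ∑ l ∈ Icc (-(R : ℤ)) R, ((|l| : ℤ) : ℂ) *
          (b (l + (i + a + 1 : ℕ)) * b ((j + a' + 1 : ℕ) - l))) * z ^ (i + j)‖ ^ k
        * (1 - ‖z‖ ^ 2) ^ (4 * k - 2)
      ≤ 11 ^ (2 * k) * (π * 24) *
        (∑ p : Fin (r + 1) → (Icc (-(R : ℤ)) R), pathW b (fun i => (p i : ℤ))).re := by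
  set S := Icc (-(R : ℤ)) R with hS
  set X := Xm b S with hX
  set D : Matrix S S ℂ := Matrix.diagonal (fun i : S => (sg i : ℂ)) with hD
  have hDh : D.IsHermitian := by
    rw [hD, Matrix.isHermitian_diagonal_iff]
    intro i; simp [isSelfAdjoint_iff]
  have hDD : D * D = 1 := by
    rw [hD, Matrix.diagonal_mul_diagonal, ← Matrix.diagonal_one]
    congr 1; ext i
    rcases sg_cases i with h1 | h1 <;> simp [h1]
  obtain ⟨n, w, σ, hw, hσ, hZ, hU⟩ := spec_bound (Matrix.toEuclideanLin X)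
    (Matrix.toEuclideanLin D) (Matrix.isSymmetric_toEuclideanLin_iff.2 (Xm_herm b hb S))
    (Matrix.isSymmetric_toEuclideanLin_iff.2 hDh) (by
      intro x
      rw [← LinearMap.comp_apply, ← Matrix.toLpLin_mul_same, hDD, Matrix.toLpLin_one]; rfl) k hk
  have tr : ∀ A : Matrix S S ℂ, LinearMap.trace ℂ _ (Matrix.toEuclideanLin A) = A.trace := by
    intro A
    rw [Matrix.toEuclideanLin_eq_toLin_orthonormal, Matrix.trace_toLin_eq]
  rw [Module.End.mul_eq_comp, ← Matrix.toLpLin_mul_same, ← Matrix.toLpLin_pow,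
    ← Matrix.toLpLin_pow, tr, tr, hr, trace_diff] at hZ
  have mP : ∀ j < M, ((j + a' + 1 : ℕ) : ℤ) ∈ S := fun j hj => by
    rw [hS, mem_Icc]; omega
  have mQ : ∀ i < M, -((i + a + 1 : ℕ) : ℤ) ∈ S := fun j hj => by
    rw [hS, mem_Icc]; omega
  have key := core _ w σ hw hσ k hk hU (M := M) (fun j => ev S ((j + a' + 1 : ℕ) : ℤ))
    (fun i => ev S (-((i + a + 1 : ℕ) : ℤ)))
    (fun n hn m _ => by
      rw [ev_inner S _ (mP n hn)]
      exact if_congr (by omega) rfl rfl)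
    (fun n hn m _ => by
      rw [ev_inner S _ (mQ n hn)]
      exact if_congr (by omega) rfl rfl)
    a a' ha _ _ (dd_sq a (by omega)) (dd_sq a' (by omega))
  refine le_trans (le_of_eq ?_)
    (key.trans (mul_le_mul_of_nonneg_left hZ (by positivity)))
  refine setIntegral_congr_fun measurableSet_ball fun z _ => ?_
  congr 3
  refine sum_congr rfl fun i hi => sum_congr rfl fun j hj => ?_
  rw [mem_range] at hi hj
  congr 1
  set x : S := ⟨_, mQ i hi⟩ with hx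
  set y : S := ⟨_, mP j hj⟩ with hy
  rw [show ev S (-((i + a + 1 : ℕ) : ℤ)) = EuclideanSpace.single x 1 from ev_eq S x,
    show ev S ((j + a' + 1 : ℕ) : ℤ) = EuclideanSpace.single y 1 from ev_eq S y,
    EuclideanSpace.inner_single_left]
  have e : (((1 / 2 : ℂ) • (Matrix.toEuclideanLin X * Matrix.toEuclideanLin X -
      Matrix.toEuclideanLin D * (Matrix.toEuclideanLin X * Matrix.toEuclideanLin X) *
        Matrix.toEuclideanLin D)) (EuclideanSpace.single y 1)) x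
      = (1 / 2 : ℂ) * ((X * X) x y - sg x * (X * X) x y * sg y) := by
    simp only [LinearMap.smul_apply, LinearMap.sub_apply, Module.End.mul_apply, PiLp.smul_apply,
      PiLp.sub_apply, Matrix.toLpLin_apply, Matrix.mulVec_mulVec, smul_eq_mul]
    simp only [PiLp.ofLp_single, Matrix.mulVec_single_one, Matrix.col_apply]
    have : D * (X * (X * D)) = D * (X * X) * D := by simp only [Matrix.mul_assoc]
    rw [this, hD, Matrix.mul_diagonal, Matrix.diagonal_mul]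
  have s1 : sg x = -1 := by
    unfold sg; rw [if_neg]; simp only [hx]; omega
  have s2 : sg y = 1 := by
    unfold sg; rw [if_pos]; simp only [hy]; omega
  rw [e, s1, s2, hX, Xm_sq, Kf]
  have a1 : |(((x : ℤ)) : ℝ)| = (i : ℝ) + a + 1 := by
    simp only [hx]; push_cast; rw [abs_neg, abs_of_nonneg (by positivity)]
  have a2 : |(((y : ℤ)) : ℝ)| = (j : ℝ) + a' + 1 := by
    simp only [hy]; push_cast; rw [abs_of_nonneg (by positivity)]
  rw [a1, a2]
  have n1 : ((√((i : ℝ) + a + 1) : ℝ) : ℂ) ≠ 0 := by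
    rw [Complex.ofReal_ne_zero]; positivity
  have n2 : ((√((j : ℝ) + a' + 1) : ℝ) : ℂ) ≠ 0 := by
    rw [Complex.ofReal_ne_zero]; positivity
  simp only [hx, hy, sub_neg_eq_add, map_one, Complex.ofReal_div, Complex.ofReal_natCast,
    Complex.ofReal_neg, Complex.ofReal_one]
  field_simp
  ring

end Pool.Agent.P.MP_2eaf66_an.Bg
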