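import Mathlib
import Pool.Agent.P.MP_2eaf66_an.BgOp

set_option autoImplicit false

namespace Pool.Agent.P.MP_2eaf66_an.Bg

open scoped ComplexConjugate
open Finset Filter Topology MeasureTheory Metric Real

/-- truncated derivatives of the kernel on the diagonal -/
noncomputable def TT (b : ℤ → ℂ) (a a' M : ℕ) (z : ℂ) : ℂ :=
  ∑ i ∈ range M, ∑ j ∈ range M,
    ((dd a i : ℂ) * dd a' j * Gk b (i + a + 1 : ℕ) (j + a' + 1 : ℕ)) * z ^ (i + j)

theorem w_nonneg (z : ℂ) (hz : z ∈ ball (0 : ℂ) 1) (p : ℕ) : 0 ≤ (1 - ‖z‖ ^ 2) ^ p := by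
  rw [mem_ball_zero_iff] at hz
  exact pow_nonneg (by nlinarith [norm_nonneg z]) p

theorem lim_bound (b : ℤ → ℂ) (hb : ∀ n, b (-n) = conj (b n))
    (hs : ∀ p : ℕ, Summable (fun n : ℤ => (1 + |(n : ℝ)|) ^ p * ‖b n‖))
    (k r : ℕ) (hk : 2 ≤ k) (hr : 2 * k = r + 1) (Z : ℂ) (hZ : HasSum (pathW (r := r) b) Z)
    (M a a' : ℕ) (ha : a + a' = 2) :
    ∫ z in ball (0 : ℂ) 1, ‖TT b a a' M z‖ ^ k * (1 - ‖z‖ ^ 2) ^ (4 * k - 2)
      ≤ 11 ^ (2 * k) * (π * 24) * Z.re := by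
  have t2 := ((Complex.continuous_re.tendsto Z).comp (tendsto_trunc _ Z hZ)).const_mul
    (11 ^ (2 * k) * (π * 24))
  refine fatou _ _ ?_ ?_ (intOn _ (by unfold TT; fun_prop)) ?_ _ _ t2
    ((eventually_ge_atTop (M + 3)).mono fun R hR => fin_bound b hb k r hk hr M R hR a a' ha)
  · intro R; fun_prop
  · intro R z hz; exact mul_nonneg (by positivity) (w_nonneg z hz _)
  · intro z _
    refine Tendsto.mul_const _ (Tendsto.pow (Tendsto.norm ?_) _)
    refine tendsto_finsetSum _ fun i _ => tendsto_finsetSum _ fun j _ =>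
      Tendsto.mul_const _ (Tendsto.const_mul _ ?_)
    exact tendsto_trunc1 _ (by simpa using summable_G b hs 0 (i + a + 1 : ℕ) (j + a' + 1 : ℕ))

theorem G_bound (b : ℤ → ℂ)
    (hs : ∀ p : ℕ, Summable (fun n : ℤ => (1 + |(n : ℝ)|) ^ p * ‖b n‖)) :
    ∃ C : ℝ, 0 ≤ C ∧ (∀ n, ‖b n‖ ≤ C) ∧ ∀ i j : ℤ, ‖Gk b i j‖ ≤ C * (1 + |(i : ℝ)|) := by
  have h0 : Summable (fun n => ‖b n‖) := by simpa using hs 0
  have hC : ∀ n, ‖b n‖ ≤ ∑' n, ‖b n‖ := fun n => h0.le_tsum n fun _ _ => norm_nonneg _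
  set C0 := ∑' n, ‖b n‖ with hC0
  set C1 := ∑' n : ℤ, (1 + |(n : ℝ)|) ^ 1 * ‖b n‖ with hC1
  have p0 : 0 ≤ C0 := tsum_nonneg fun _ => norm_nonneg _
  have p1 : 0 ≤ C1 := tsum_nonneg fun _ => by positivity
  refine ⟨C0 + C0 * C1, by positivity, fun n => (hC n).trans (by nlinarith [mul_nonneg p0 p1]),
    fun i j => ?_⟩
  have h1 := ((Equiv.addRight i).hasSum_iff.2 (hs 1).hasSum).mul_left ((1 + |(i : ℝ)|) * C0)
  refine (tsum_of_norm_bounded h1 fun l => ?_).trans ?_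
  · simp only [Function.comp, Equiv.coe_addRight, pow_one]
    rw [norm_mul, norm_mul, Complex.norm_intCast]
    have a1 : |((|l| : ℤ) : ℝ)| ≤ (1 + |(i : ℝ)|) * (1 + |((l + i : ℤ) : ℝ)|) := by
      push_cast
      rw [abs_abs]
      have := abs_sub ((l : ℝ) + i) i
      rw [show (l : ℝ) + i - i = l by ring] at this
      nlinarith [abs_nonneg (i : ℝ), abs_nonneg ((l : ℝ) + i),
        mul_nonneg (abs_nonneg (i : ℝ)) (abs_nonneg ((l : ℝ) + i))]
    calc _ ≤ ((1 + |(i : ℝ)|) * (1 + |((l + i : ℤ) : ℝ)|)) * (‖b (l + i)‖ * C0) := by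
          gcongr; exact hC _
      _ = _ := by ring
  · rw [← hC1]
    have : 0 ≤ C0 * (1 + |(i : ℝ)|) := by positivity
    nlinarith

theorem dd0 (n : ℕ) : (dd 0 n : ℂ) = n + 1 := by simp [dd, Nat.ascFactorial]
theorem dd1 (n : ℕ) : (dd 1 n : ℂ) = (n + 1) * (n + 2) := by
  simp only [dd, Nat.ascFactorial]; push_cast; ring
theorem dd2 (n : ℕ) : (dd 2 n : ℂ) = (n + 1) * (n + 2) * (n + 3) := by
  simp only [dd, Nat.ascFactorial]; push_cast; ring

theorem dd_le (a : ℕ) (ha : a ≤ 2) (n : ℕ) : (dd a n : ℝ) ≤ ((n : ℝ) + 4) ^ 3 := by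
  have hn : (0 : ℝ) ≤ n := by positivity
  have h2 : (0 : ℝ) ≤ (n : ℝ) ^ 2 := by positivity
  have h3 : (0 : ℝ) ≤ (n : ℝ) ^ 3 := by positivity
  interval_cases a <;> simp only [dd, Nat.ascFactorial] <;> push_cast <;> nlinarith

/-- the defect in the bracket identity -/
noncomputable def Fc (b : ℤ → ℂ) (x : ℕ × ℕ) : ℂ :=
  3 * ((dd 2 x.1 : ℂ) * dd 0 x.2 * Gk b (x.1 + 2 + 1 : ℕ) (x.2 + 0 + 1 : ℕ)
    + (dd 0 x.1 : ℂ) * dd 2 x.2 * Gk b (x.1 + 0 + 1 : ℕ) (x.2 + 2 + 1 : ℕ)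
    - 3 * ((dd 1 x.1 : ℂ) * dd 1 x.2 * Gk b (x.1 + 1 + 1 : ℕ) (x.2 + 1 + 1 : ℕ)))
  - ((dd 2 x.1 : ℂ) * b (x.1 + 2)) * ((dd 2 x.2 : ℂ) * b (x.2 + 2))

theorem anti_zero (b : ℤ → ℂ)
    (hs : ∀ p : ℕ, Summable (fun n : ℤ => (1 + |(n : ℝ)|) ^ p * ‖b n‖)) (s : ℕ) :
    ∑ x ∈ antidiagonal s, Fc b x = 0 := by
  set g : ℤ → ℂ := fun x => Gk b x (s + 4 - x) with hg
  set c : ℂ → ℂ := fun x => (x + 1) * (x + 2) * (x + 3) with hc
  set D : ℕ → ℂ := fun n => (1 / 2) *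
    ((c n * c (s - n) - 6 * (n + 1) * c (s - n)) * g (n + 1)
      - (c (n - 1) * c (s - n + 1) - 6 * c (n - 1) * (s - n + 2)) * g (n + 2)) with hD
  have e : ∀ n ∈ range (s + 1), Fc b (n, s - n) = D (n + 1) - D n := by
    intro n hn
    rw [mem_range] at hn
    obtain ⟨j, rfl⟩ : ∃ j, s = n + j := ⟨s - n, by omega⟩
    have h := Gk_diff2 b hs (n + 2) (j + 2)
    have g1 : g (n + 1) = Gk b (n + 2 - 1) (j + 2 + 1) := by
      simp only [hg]; congr 1 <;> push_cast <;> ring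
    have g2 : g (n + 2) = Gk b (n + 2) (j + 2) := by
      simp only [hg]; congr 1; push_cast; ring
    have g3 : g (n + 3) = Gk b (n + 2 + 1) (j + 2 - 1) := by
      simp only [hg]; congr 1 <;> push_cast <;> ring
    have f1 : Gk b (n + 0 + 1 : ℕ) (j + 2 + 1 : ℕ) = g (n + 1) := by
      rw [g1]; congr 1 <;> push_cast <;> ring
    have f2 : Gk b (n + 1 + 1 : ℕ) (j + 1 + 1 : ℕ) = g (n + 2) := by
      rw [g2]; congr 1
    have f3 : Gk b (n + 2 + 1 : ℕ) (j + 0 + 1 : ℕ) = g (n + 3) := by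
      rw [g3]; congr 1 <;> push_cast <;> ring
    rw [← g1, ← g2, ← g3] at h
    have i1 : ((n + 1 : ℕ) : ℤ) + 1 = n + 2 := by push_cast; ring
    have i2 : ((n + 1 : ℕ) : ℤ) + 2 = n + 3 := by push_cast; ring
    simp only [Fc, hD, Nat.add_sub_cancel_left, f1, f2, f3, i1, i2, dd0, dd1, dd2, hc]
    push_cast
    linear_combination (1 / 2 * (((n : ℂ) + 1) * (n + 2) * (n + 3))
      * (((j : ℂ) + 1) * (j + 2) * (j + 3))) * h
  rw [Nat.sum_antidiagonal_eq_sum_range_succ_mk, sum_congr rfl e, sum_range_sub]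
  simp only [hD, hc]
  push_cast
  ring

theorem Fc_bound (b : ℤ → ℂ)
    (hs : ∀ p : ℕ, Summable (fun n : ℤ => (1 + |(n : ℝ)|) ^ p * ‖b n‖)) :
    ∃ C : ℝ, ∀ x : ℕ × ℕ, ‖Fc b x‖ ≤ C * (((x.1 : ℝ) + 4) ^ 4 * ((x.2 : ℝ) + 4) ^ 4) := by
  obtain ⟨C, C0, hb, hG⟩ := G_bound b hs
  refine ⟨15 * C + C * C, fun ⟨i, j⟩ => ?_⟩
  have hi : (1 : ℝ) ≤ (i : ℝ) + 4 := by have : (0 : ℝ) ≤ i := by positivity
                                        linarith
  have hj : (1 : ℝ) ≤ (j : ℝ) + 4 := by have : (0 : ℝ) ≤ j := by positivity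
                                        linarith
  have hi' : ((i : ℝ) + 4) ^ 3 ≤ ((i : ℝ) + 4) ^ 4 := pow_le_pow_right₀ hi (by norm_num)
  have hj' : ((j : ℝ) + 4) ^ 3 ≤ ((j : ℝ) + 4) ^ 4 := pow_le_pow_right₀ hj (by norm_num)
  set W : ℝ := ((i : ℝ) + 4) ^ 4 * ((j : ℝ) + 4) ^ 4 with hW
  have t : ∀ a a' : ℕ, a ≤ 2 → a' ≤ 2 →
      ‖(dd a i : ℂ) * dd a' j * Gk b (i + a + 1 : ℕ) (j + a' + 1 : ℕ)‖ ≤ C * W := by
    intro a a' ha ha'
    rw [norm_mul, norm_mul, Complex.norm_natCast, Complex.norm_natCast]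
    have h1 : 1 + |(((i + a + 1 : ℕ) : ℤ) : ℝ)| ≤ (i : ℝ) + 4 := by
      have : (a : ℝ) ≤ 2 := by exact_mod_cast ha
      push_cast
      rw [abs_of_nonneg (by positivity)]; linarith
    calc _ ≤ ((i : ℝ) + 4) ^ 3 * ((j : ℝ) + 4) ^ 4 * (C * ((i : ℝ) + 4)) := by
          gcongr
          · exact dd_le a ha i
          · exact (dd_le a' ha' j).trans hj'
          · exact (hG _ _).trans (mul_le_mul_of_nonneg_left h1 C0)
      _ = _ := by rw [hW]; ring
  have t4 : ‖((dd 2 i : ℂ) * b (i + 2)) * ((dd 2 j : ℂ) * b (j + 2))‖ ≤ C * C * W := by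
    rw [norm_mul, norm_mul, norm_mul, Complex.norm_natCast, Complex.norm_natCast]
    calc _ ≤ (((i : ℝ) + 4) ^ 4 * C) * (((j : ℝ) + 4) ^ 4 * C) := by
          gcongr
          · exact (dd_le 2 le_rfl i).trans hi'
          · exact hb _
          · exact (dd_le 2 le_rfl j).trans hj'
          · exact hb _
      _ = _ := by rw [hW]; ring
  have t1 := t 2 0 le_rfl (by norm_num)
  have t2 := t 0 2 (by norm_num) le_rfl
  have t3 := t 1 1 (by norm_num) (by norm_num)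
  unfold Fc
  refine (norm_sub_le _ _).trans ?_
  rw [norm_mul (3 : ℂ)]
  have u := (norm_sub_le _ _).trans (add_le_add ((norm_add_le _ _).trans (add_le_add t1 t2))
    (show ‖3 * ((dd 1 i : ℂ) * dd 1 j * Gk b (i + 1 + 1 : ℕ) (j + 1 + 1 : ℕ))‖ ≤ 3 * (C * W) by
      rw [norm_mul (3 : ℂ), Complex.norm_ofNat]; linarith))
  rw [Complex.norm_ofNat]
  nlinarith

theorem summ_pg (r : ℝ) (h0 : 0 ≤ r) (h1 : r < 1) :
    Summable (fun n : ℕ => ((n : ℝ) + 4) ^ 4 * r ^ n) := by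
  have hr : ‖r‖ < 1 := by rw [Real.norm_eq_abs, abs_of_nonneg h0]; exact h1
  have s := fun k => summable_pow_mul_geometric_of_norm_lt_one k hr
  refine (((((s 4).add ((s 3).mul_left 16)).add ((s 2).mul_left 96)).add
    ((s 1).mul_left 256)).add ((s 0).mul_left 256)).congr fun n => ?_
  ring

theorem defect_tendsto (b : ℤ → ℂ)
    (hs : ∀ p : ℕ, Summable (fun n : ℤ => (1 + |(n : ℝ)|) ^ p * ‖b n‖))
    (z : ℂ) (hz : z ∈ ball (0 : ℂ) 1) :
    Tendsto (fun M => 3 * (TT b 2 0 M z + TT b 0 2 M z - 3 * TT b 1 1 M z)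
      - (∑ n ∈ range M, (dd 2 n * b (n + 2)) * z ^ n) ^ 2) atTop (𝓝 0) := by
  rw [mem_ball_zero_iff] at hz
  obtain ⟨C, hC⟩ := Fc_bound b hs
  set F : ℕ × ℕ → ℂ := fun x => Fc b x * z ^ (x.1 + x.2) with hF
  have s1 := summ_pg ‖z‖ (norm_nonneg z) hz
  have hsum : Summable F := by
    refine Summable.of_norm_bounded ((s1.mul_of_nonneg s1 (fun _ => by positivity)
      (fun _ => by positivity)).mul_left C) fun x => ?_
    simp only [hF]
    rw [norm_mul, norm_pow]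
    refine (mul_le_mul_of_nonneg_right (hC x) (by positivity)).trans (le_of_eq (by ring))
  have h0 : HasSum F 0 := by
    have h1 := (HasAntidiagonal.sigmaAntidiagonalEquivProd (A := ℕ)).hasSum_iff.2 hsum.hasSum
    have h2 : HasSum (fun _ : ℕ => (0 : ℂ)) (∑' x, F x) := by
      refine h1.sigma fun s => ?_
      have h3 := hasSum_fintype (fun c : antidiagonal s => F c)
      have h4 : ∑ c : antidiagonal s, F c = 0 := by
        rw [sum_coe_sort (antidiagonal s) F]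
        have : ∀ x ∈ antidiagonal s, F x = Fc b x * z ^ s := by
          intro x hx
          simp only [hF]; rw [mem_antidiagonal.1 hx]
        rw [sum_congr rfl this, ← sum_mul, anti_zero b hs, zero_mul]
      rw [h4] at h3
      exact h3
    rw [hasSum_zero.unique h2]
    exact hsum.hasSum
  have hbox : Tendsto (fun M : ℕ => range M ×ˢ range M) atTop atTop := by
    rw [Filter.tendsto_atTop]
    intro t
    simp only [subset_iff]
    rw [eventually_all_finset]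
    intro x _
    filter_upwards [eventually_gt_atTop (x.1 + x.2)] with M hM
    rw [mem_product, mem_range, mem_range]; omega
  refine (Tendsto.comp h0 hbox).congr fun M => ?_
  simp only [Function.comp, hF, Fc, TT]
  rw [sum_product, sq, sum_mul_sum, mul_sum (a := (3 : ℂ)), ← sum_add_distrib, ← sum_sub_distrib,
    mul_sum, ← sum_sub_distrib]
  refine sum_congr rfl fun i _ => ?_
  rw [mul_sum (a := (3 : ℂ)), ← sum_add_distrib, ← sum_sub_distrib, mul_sum, ← sum_sub_distrib]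
  refine sum_congr rfl fun j _ => ?_
  ring

theorem comb_pow (x y u : ℂ) (k : ℕ) :
    ‖3 * (x + y - 3 * u)‖ ^ k ≤ 15 ^ k * (‖x‖ ^ k + ‖y‖ ^ k + ‖u‖ ^ k) := by
  set m := max (max ‖x‖ ‖y‖) ‖u‖ with hm
  have h1 : ‖x‖ ≤ m := (le_max_left _ _).trans (le_max_left _ _)
  have h2 : ‖y‖ ≤ m := (le_max_right _ _).trans (le_max_left _ _)
  have h3 : ‖u‖ ≤ m := le_max_right _ _
  have h4 : ‖3 * (x + y - 3 * u)‖ ≤ 15 * m := by
    have := (norm_sub_le (x + y) (3 * u)).trans (add_le_add (norm_add_le x y) le_rfl)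
    rw [norm_mul, Complex.norm_ofNat] at this ⊢
    linarith
  have h5 : m ^ k ≤ ‖x‖ ^ k + ‖y‖ ^ k + ‖u‖ ^ k := by
    have a1 : 0 ≤ ‖x‖ ^ k := by positivity
    have a2 : 0 ≤ ‖y‖ ^ k := by positivity
    have a3 : 0 ≤ ‖u‖ ^ k := by positivity
    rcases max_choice (max ‖x‖ ‖y‖) ‖u‖ with h | h
    · rcases max_choice ‖x‖ ‖y‖ with h' | h' <;> rw [hm, h, h'] <;> linarith
    · rw [hm, h]; linarith
  refine (pow_le_pow_left₀ (norm_nonneg _) h4 k).trans ?_
  rw [mul_pow]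
  exact mul_le_mul_of_nonneg_left h5 (by positivity)

theorem coef_lower (k n : ℕ) :
    ((n : ℝ) + 2) ^ (2 * (k + 1) + 1)
      ≤ (2 ^ (2 * (k + 1)) * (2 * ((k : ℝ) + 1)) ^ (4 * k + 3)) * ((dd 2 n : ℝ) ^ (2 * (k + 1)) *
        ((((k + 1) * n).factorial * (4 * (k + 1) - 2).factorial : ℝ)
          / ((k + 1) * n + (4 * (k + 1) - 2) + 1).factorial)) := by
  have hn : (0 : ℝ) ≤ n := by positivity
  have hk : (0 : ℝ) ≤ k := by positivity
  rw [show (k + 1) * n + (4 * (k + 1) - 2) + 1 = (k + 1) * n + (4 * k + 3) by omega,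
    ← Nat.factorial_mul_ascFactorial]
  have h1 : ((((k + 1) * n + 1).ascFactorial (4 * k + 3) : ℕ) : ℝ)
      ≤ (2 * ((k : ℝ) + 1) * (n + 2)) ^ (4 * k + 3) := by
    have : ((((k + 1) * n + 1).ascFactorial (4 * k + 3) : ℕ) : ℝ)
        ≤ (((k : ℝ) + 1) * n + (4 * k + 3)) ^ (4 * k + 3) := by
      exact_mod_cast Nat.ascFactorial_le_pow_add ((k + 1) * n) (4 * k + 3)
    refine this.trans (pow_le_pow_left₀ (by positivity) ?_ _)
    nlinarith [mul_nonneg hk hn]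
  have h2 : ((n : ℝ) + 2) ^ 3 ≤ 2 * (dd 2 n : ℝ) := by
    simp only [dd, Nat.ascFactorial]; push_cast
    nlinarith [mul_nonneg hn hn, mul_nonneg hn (mul_nonneg hn hn)]
  have h3 : (1 : ℝ) ≤ (4 * (k + 1) - 2).factorial := by
    exact_mod_cast Nat.one_le_iff_ne_zero.2 (Nat.factorial_ne_zero _)
  have h4 : (0 : ℝ) < (((k + 1) * n + 1).ascFactorial (4 * k + 3) : ℕ) := by
    exact_mod_cast Nat.ascFactorial_pos _ _
  have h5 : (0 : ℝ) < ((k + 1) * n).factorial := by positivity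
  set A : ℝ := ((((k + 1) * n + 1).ascFactorial (4 * k + 3) : ℕ) : ℝ) with hA
  set P : ℝ := ((4 * (k + 1) - 2).factorial : ℝ) with hP
  rw [Nat.cast_mul, ← hA, mul_div_mul_left _ _ h5.ne', ← mul_div_assoc, ← mul_div_assoc,
    le_div_iff₀ h4]
  have h6 := pow_le_pow_left₀ (by positivity) h2 (2 * (k + 1))
  calc _ ≤ ((n : ℝ) + 2) ^ (2 * (k + 1) + 1) * (2 * ((k : ℝ) + 1) * (n + 2)) ^ (4 * k + 3) :=
        mul_le_mul_of_nonneg_left h1 (by positivity)
    _ = (2 * ((k : ℝ) + 1)) ^ (4 * k + 3) * ((((n : ℝ) + 2) ^ 3) ^ (2 * (k + 1)) * 1) := by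
        rw [mul_pow (2 * ((k : ℝ) + 1)), ← pow_mul,
          show 3 * (2 * (k + 1)) = (2 * (k + 1) + 1) + (4 * k + 3) by ring,
          pow_add ((n : ℝ) + 2) (2 * (k + 1) + 1)]
        generalize ((n : ℝ) + 2) ^ (2 * (k + 1) + 1) = u
        generalize ((n : ℝ) + 2) ^ (4 * k + 3) = v
        generalize (2 * ((k : ℝ) + 1)) ^ (4 * k + 3) = w
        ring
    _ ≤ (2 * ((k : ℝ) + 1)) ^ (4 * k + 3) * ((2 * (dd 2 n : ℝ)) ^ (2 * (k + 1)) * P) := by
        gcongr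
    _ = _ := by rw [mul_pow 2 (dd 2 n : ℝ)]; ring

theorem main_berg (k : ℕ) (hk : 1 ≤ k) : ∃ c : ℝ, 0 < c ∧ ∀ b : ℤ → ℂ,
    (∀ n, b (-n) = conj (b n)) →
    (∀ p : ℕ, Summable (fun n : ℤ => (1 + |(n : ℝ)|) ^ p * ‖b n‖)) →
    ∀ L : ℕ, L = 2 * k → ∀ q : ℂ → ℂ, (∀ z, q z = ∑' n : ℕ, (dd 2 n * b (n + 2)) * z ^ n) →
    ∃ S Z : ℝ,
      HasSum (fun n : ℕ => ((n : ℝ) + 2) ^ (2 * k + 1) * ‖b (n + 2)‖ ^ (2 * k)) S ∧
      HasSum (fun m : {m : Fin L → ℤ // ∑ i, m i = 0} =>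
        (Ncoef m.1 : ℂ) * ∏ i, b (m.1 i)) (Z : ℂ) ∧
      IntegrableOn (fun z : ℂ => ‖q z‖ ^ (2 * k) * (1 - ‖z‖ ^ 2) ^ (4 * k - 2)) (ball 0 1) ∧
      c * S ≤ ∫ z in ball (0 : ℂ) 1, ‖q z‖ ^ (2 * k) * (1 - ‖z‖ ^ 2) ^ (4 * k - 2) ∧
      c * ∫ z in ball (0 : ℂ) 1, ‖q z‖ ^ (2 * k) * (1 - ‖z‖ ^ 2) ^ (4 * k - 2) ≤ Z := by
  obtain ⟨c0, hc0, h0⟩ := main_seq k hk
  obtain ⟨κ, rfl⟩ : ∃ κ, k = κ + 1 := ⟨k - 1, by omega⟩
  set K1 : ℝ := 2 ^ (2 * (κ + 1)) * (2 * ((κ : ℝ) + 1)) ^ (4 * κ + 3) with hK1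
  set K2 : ℝ := 15 ^ (κ + 1) * (3 * (11 ^ (2 * (κ + 1)) * (π * 24))) with hK2
  have K1p : 0 < K1 := by positivity
  have K2p : 0 < K2 := by have := pi_pos; positivity
  have K3p : 0 < 2 * π / c0 := by have := pi_pos; positivity
  set K : ℝ := K1 / π + K2 + 2 * π / c0 with hK
  have K4p : 0 < K1 / π := div_pos K1p pi_pos
  have Kp : 0 < K := by positivity
  refine ⟨K⁻¹, inv_pos.2 Kp, fun b hb hs L hL q hq => ?_⟩
  obtain ⟨S, Z, hS, hZ, hSZ⟩ := h0 b hb hs L hL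
  have S0 : 0 ≤ S := hS.nonneg fun n => by positivity
  have Z0 : 0 ≤ Z := le_trans (by positivity) hSZ
  set y : ℕ → ℂ := fun n => dd 2 n * b (n + 2) with hy
  have ys : Summable (fun n => ‖y n‖) := by
    have h1 := (hs 3).comp_injective (i := fun n : ℕ => (n : ℤ) + 2)
      (fun _ _ h => by simpa using h)
    refine Summable.of_nonneg_of_le (fun _ => norm_nonneg _) (fun n => ?_) h1
    simp only [hy, Function.comp]
    rw [norm_mul, Complex.norm_natCast]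
    refine mul_le_mul_of_nonneg_right ?_ (norm_nonneg _)
    have hn : (0 : ℝ) ≤ n := by positivity
    simp only [dd, Nat.ascFactorial]; push_cast
    rw [abs_of_nonneg (by positivity)]
    nlinarith [mul_nonneg hn hn]
  have yb : ∀ n, ∀ z ∈ closedBall (0 : ℂ) 1, ‖y n * z ^ n‖ ≤ ‖y n‖ := by
    intro n z hz
    rw [mem_closedBall_zero_iff] at hz
    rw [norm_mul, norm_pow]
    exact mul_le_of_le_one_right (norm_nonneg _) (pow_le_one₀ (norm_nonneg _) hz)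
  have qc : ContinuousOn q (closedBall 0 1) := by
    rw [show q = fun z => ∑' n : ℕ, y n * z ^ n from funext hq]
    exact continuousOn_tsum (fun n => by fun_prop) ys yb
  have qt : ∀ z ∈ ball (0 : ℂ) 1,
      Tendsto (fun M => ∑ n ∈ range M, y n * z ^ n) atTop (𝓝 (q z)) := by
    intro z hz
    rw [hq]
    exact (Summable.of_norm_bounded ys fun n =>
      yb n z (ball_subset_closedBall hz)).hasSum.tendsto_sum_nat
  have hint : IntegrableOn (fun z : ℂ => ‖q z‖ ^ (2 * (κ + 1)) * (1 - ‖z‖ ^ 2) ^ (4 * (κ + 1) - 2))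
      (ball 0 1) :=
    (ContinuousOn.integrableOn_compact (isCompact_closedBall 0 1)
      ((qc.norm.pow _).mul (by fun_prop))).mono_set ball_subset_closedBall
  set I := ∫ z in ball (0 : ℂ) 1, ‖q z‖ ^ (2 * (κ + 1)) * (1 - ‖z‖ ^ 2) ^ (4 * (κ + 1) - 2)
    with hI
  have I0 : 0 ≤ I := setIntegral_nonneg measurableSet_ball fun z hz =>
    mul_nonneg (by positivity) (w_nonneg z hz _)
  have It : Tendsto (fun M => ∫ z in ball (0 : ℂ) 1, ‖∑ n ∈ range M, y n * z ^ n‖ ^ (2 * (κ + 1))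
      * (1 - ‖z‖ ^ 2) ^ (4 * (κ + 1) - 2)) atTop (𝓝 I) := by
    refine tendsto_integral_of_dominated_convergence (fun _ => (∑' n, ‖y n‖) ^ (2 * (κ + 1)))
      (fun M => (intOn _ (by fun_prop)).aestronglyMeasurable) (intOn _ continuous_const)
      (fun M => (ae_restrict_iff' measurableSet_ball).2 (Eventually.of_forall fun z hz => ?_))
      ((ae_restrict_iff' measurableSet_ball).2 (Eventually.of_forall fun z hz =>
        ((qt z hz).norm.pow _).mul_const _))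
    have h1 : ‖∑ n ∈ range M, y n * z ^ n‖ ≤ ∑' n, ‖y n‖ :=
      (norm_sum_le _ _).trans ((sum_le_sum fun n _ => yb n z (ball_subset_closedBall hz)).trans
        (ys.sum_le_tsum _ fun _ _ => norm_nonneg _))
    have h2 : (1 - ‖z‖ ^ 2) ^ (4 * (κ + 1) - 2) ≤ 1 := by
      have := w_nonneg z hz 1
      exact pow_le_one₀ (by simpa using this) (by nlinarith [sq_nonneg ‖z‖])
    rw [Real.norm_eq_abs, abs_of_nonneg (mul_nonneg (by positivity) (w_nonneg z hz _))]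
    exact (mul_le_of_le_one_right (by positivity) h2).trans
      (pow_le_pow_left₀ (norm_nonneg _) h1 _)
  refine ⟨S, Z, hS, hZ, hint, ?_, ?_⟩
  · rw [inv_mul_le_iff₀ Kp]
    have h1 : S ≤ K1 / π * I := by
      refine le_of_tendsto_of_tendsto' hS.tendsto_sum_nat (It.const_mul (K1 / π)) fun M => ?_
      refine le_trans ?_ (mul_le_mul_of_nonneg_left
        (berg_lower y M κ (4 * (κ + 1) - 2)) K4p.le)
      rw [← mul_assoc, div_mul_cancel₀ _ pi_pos.ne', mul_sum]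
      refine sum_le_sum fun n _ => ?_
      simp only [hy]
      rw [norm_mul, Complex.norm_natCast, mul_pow]
      refine (mul_le_mul_of_nonneg_right (coef_lower κ n) (by positivity)).trans (le_of_eq ?_)
      rw [hK1]; ring
    refine h1.trans (mul_le_mul_of_nonneg_right (by linarith) I0)
  · rw [inv_mul_le_iff₀ Kp]
    rcases Nat.eq_zero_or_pos κ with h | h
    · subst h
      have h1 : I ≤ 2 * π * S := by
        refine le_of_tendsto_of_tendsto' It (hS.tendsto_sum_nat.const_mul (2 * π)) fun M => ?_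
        refine (berg_sq y M 2).le.trans ?_
        rw [mul_comm 2 π, mul_assoc, mul_sum (a := (2 : ℝ))]
        refine mul_le_mul_of_nonneg_left (sum_le_sum fun n _ => ?_) pi_pos.le
        have hn : (0 : ℝ) ≤ n := by positivity
        have e1 : ((n + 2 + 1).factorial : ℝ) = n.factorial * (dd 2 n : ℝ) := by
          exact_mod_cast (Nat.factorial_mul_ascFactorial n 3).symm
        have e2 : (dd 2 n : ℝ) = (n + 1) * (n + 2) * (n + 3) := by
          simp only [dd, Nat.ascFactorial]; push_cast; ring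
        have e3 : (0 : ℝ) < dd 2 n := by rw [e2]; positivity
        have e4 : (0 : ℝ) < n.factorial := by positivity
        have e5 : (dd 2 n : ℝ) ≤ (n + 2) ^ 3 := by rw [e2]; nlinarith
        simp only [hy]
        rw [norm_mul, Complex.norm_natCast, e1]
        calc _ = 2 * (dd 2 n * ‖b (n + 2)‖ ^ 2) := by
              simp only [Nat.factorial]; push_cast; field_simp
          _ ≤ 2 * ((n + 2) ^ 3 * ‖b (n + 2)‖ ^ 2) := by gcongr
          _ = _ := by norm_num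
      have h2 : S ≤ Z / c0 := by rw [le_div_iff₀ hc0]; linarith
      calc I ≤ 2 * π * (Z / c0) := h1.trans (mul_le_mul_of_nonneg_left h2 (by positivity))
        _ = 2 * π / c0 * Z := by ring
        _ ≤ K * Z := mul_le_mul_of_nonneg_right (by linarith) Z0
    · obtain ⟨r, rfl⟩ : ∃ r, L = r + 1 := ⟨L - 1, by omega⟩
      have hr : Even (r + 1) := hL ▸ even_two_mul _
      have hW := (pathW_summable hr b summable_inv_sq hs).hasSum
      rw [(hasSum_Ncoef hr b _ hW).unique hZ] at hW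
      have hl := fun M a a' ha => lim_bound b hb hs (κ + 1) r (by omega) hL.symm _ hW M a a' ha
      simp only [Complex.ofReal_re] at hl
      have h1 : I ≤ K2 * Z := by
        refine fatou (fun M z => ‖3 * (TT b 2 0 M z + TT b 0 2 M z - 3 * TT b 1 1 M z)‖ ^ (κ + 1)
            * (1 - ‖z‖ ^ 2) ^ (4 * (κ + 1) - 2)) _ (fun M => by unfold TT; fun_prop)
          (fun M z hz => mul_nonneg (by positivity) (w_nonneg z hz _)) hint (fun z hz => ?_)
          (fun _ => K2 * Z) _ tendsto_const_nhds (Eventually.of_forall fun M => ?_)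
        · have t := (defect_tendsto b hs z hz).add ((qt z hz).pow 2)
          simp only [hy, sub_add_cancel, zero_add] at t
          have t2 := (t.norm.pow (κ + 1)).mul_const ((1 - ‖z‖ ^ 2) ^ (4 * (κ + 1) - 2))
          rw [norm_pow, ← pow_mul] at t2
          exact t2
        · have i1 : ∀ a a', IntegrableOn (fun z : ℂ => ‖TT b a a' M z‖ ^ (κ + 1)
              * (1 - ‖z‖ ^ 2) ^ (4 * (κ + 1) - 2)) (ball 0 1) :=
            fun a a' => intOn _ (by unfold TT; fun_prop)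
          have hp : ∀ z ∈ ball (0 : ℂ) 1,
              ‖3 * (TT b 2 0 M z + TT b 0 2 M z - 3 * TT b 1 1 M z)‖ ^ (κ + 1)
                * (1 - ‖z‖ ^ 2) ^ (4 * (κ + 1) - 2)
              ≤ 15 ^ (κ + 1) * (‖TT b 2 0 M z‖ ^ (κ + 1) * (1 - ‖z‖ ^ 2) ^ (4 * (κ + 1) - 2)
                + ‖TT b 0 2 M z‖ ^ (κ + 1) * (1 - ‖z‖ ^ 2) ^ (4 * (κ + 1) - 2)
                + ‖TT b 1 1 M z‖ ^ (κ + 1) * (1 - ‖z‖ ^ 2) ^ (4 * (κ + 1) - 2)) := fun z hz =>
            (mul_le_mul_of_nonneg_right (comb_pow _ _ _ _) (w_nonneg z hz _)).trans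
              (le_of_eq (by ring))
          refine (setIntegral_mono_on (intOn _ (by unfold TT; fun_prop))
            (intOn _ (by unfold TT; fun_prop)) measurableSet_ball hp).trans ?_
          rw [integral_const_mul, integral_add (intOn _ (by unfold TT; fun_prop)) (i1 1 1),
            integral_add (i1 2 0) (i1 0 2), hK2, mul_assoc]
          refine mul_le_mul_of_nonneg_left ?_ (by positivity)
          linarith [hl M 2 0 rfl, hl M 0 2 rfl, hl M 1 1 rfl]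
      exact h1.trans (mul_le_mul_of_nonneg_right (by linarith) Z0)

end Pool.Agent.P.MP_2eaf66_an.Bg
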