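import Mathlib
import Pool.Agent.P.MP_2eaf66_an.Defs
import Pool.Agent.P.MP_2eaf66_an.Main

set_option autoImplicit false

namespace Pool.Agent.P.MP_2eaf66_an.ZetaLowerBoundMoved

open Pool.Agent.P.MP_2eaf66_an

/-- The weighted Fourier lower bound for the zeta-invariants, for every `k`. -/
theorem result (k : ℕ) (hk : 1 ≤ k) :
    ∃ c : ℝ, 0 < c ∧ ∀ a : ℝ → ℝ, ContDiff ℝ (⊤ : ℕ∞) a → Function.Periodic a (2 * Real.pi) →
      ∃ S Z : ℝ,
        HasSum (fun n : ℕ => ((n : ℝ) + 2) ^ (2 * k + 1) * ‖coeff a (n + 2)‖ ^ (2 * k)) S ∧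
        HasSum (fun m : {m : Fin (2 * k) → ℤ // ∑ i, m i = 0} =>
          (Ncoef m.1 : ℂ) * ∏ i, coeff a (m.1 i)) (Z : ℂ) ∧
        c * S ≤ Z := by
  obtain ⟨c, hc, h⟩ := main_seq k hk
  exact ⟨c, hc, fun a ha hp => h (coeff a) (coeff_neg a) (coeff_summable a ha hp) _ rfl⟩

end Pool.Agent.P.MP_2eaf66_an.ZetaLowerBoundMoved
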